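import Mathlib

/-!
# Hensel minimality: the notions used in the statement

A language `L` containing `L_val = {+, ·, O}` is given with its three symbols (`ValSymb`). For a
valued field `K` (with valuation ring `O`, written multiplicatively) and `λ = |l|`, `l ≠ 0`,
`|l| ≤ 1`, elements of `RV_λ` are given by representatives in `K`: `x` and `y` represent the same
element iff `RVEq O l x y`. A subset `X` of `K` is definable over `A ∪ RV ∪ A'`, `A' ⊆ RV_λ` finite,
iff it is the fibre of an `A`-definable set at a tuple of representatives and this fibre does not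
depend on the choice of the representatives (`DefOver`).
-/

set_option autoImplicit false

open FirstOrder FirstOrder.Language

namespace Pool.Agent.MP_e9d743_lc

universe u v w

/-- the symbols of `L_val = {+, ·, O}` in the language `L` -/
structure ValSymb (L : FirstOrder.Language.{u, v}) where
  /-- addition -/
  add : L.Functions 2
  /-- multiplication -/
  mul : L.Functions 2
  /-- the valuation ring -/
  ring : L.Relations 1

/-- The `L`-structure on the field `K` makes `K`, with the valuation ring `O`, a non-trivially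
valued field of equicharacteristic zero: the three symbols have their meaning, `O ≠ K` and every
nonzero natural number is a unit of `O`. -/
structure IsValModel {L : FirstOrder.Language.{u, v}} (S : ValSymb L) (K : Type w) [Field K] [L.Structure K]
    (O : ValuationSubring K) : Prop where
  add : ∀ x y : K, Structure.funMap S.add ![x, y] = x + y
  mul : ∀ x y : K, Structure.funMap S.mul ![x, y] = x * y
  ring : ∀ x : K, Structure.RelMap S.ring ![x] ↔ x ∈ O
  nontriv : O ≠ ⊤
  equichar : ∀ n : ℕ, n ≠ 0 → O.valuation (n : K) = 1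

/-- `rv_λ x = rv_λ y` for `λ = |l|`: both are `0` or `|x - y| < λ |y|` -/
def RVEq {K : Type w} [Field K] (O : ValuationSubring K) (l x y : K) : Prop :=
  (x = 0 ∧ y = 0) ∨ O.valuation (x - y) < O.valuation (l * y)

/-- `X ⊆ K` is definable over `A ∪ RV ∪ A'` for some `A' ⊆ RV_λ`, `λ = |l|`, with at most `ℓ`
elements: `r` represents elements of `RV = RV_1` and `s` elements of `RV_λ`. -/
def DefOver (L : FirstOrder.Language.{u, v}) {K : Type w} [Field K] [L.Structure K]
    (O : ValuationSubring K) (l : K) (ℓ : ℕ∞) (A X : Set K) : Prop :=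
  ∃ (m n : ℕ) (r : Fin m → K) (s : Fin n → K) (Y : Set (Option (Fin m ⊕ Fin n) → K)),
    (n : ℕ∞) ≤ ℓ ∧ A.Definable L Y ∧
    ∀ (r' : Fin m → K) (s' : Fin n → K), (∀ i, RVEq O 1 (r' i) (r i)) →
      (∀ j, RVEq O l (s' j) (s j)) → ∀ x, x ∈ X ↔ (fun o => o.elim x (Sum.elim r' s')) ∈ Y

/-- `C` `λ`-prepares `X`, `λ = |l|` -/
def Prepares {K : Type w} [Field K] (O : ValuationSubring K) (l : K) (C X : Set K) : Prop :=
  ∀ x x' : K, (∀ c ∈ C, RVEq O l (x - c) (x' - c)) → (x ∈ X ↔ x' ∈ X)

/-- The condition of `ℓ`-h-minimality for the model `K`: for `λ ≤ 1` and `A ⊆ K`, every `X ⊆ K`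
definable over `A ∪ RV ∪ A'`, where `A' ⊆ RV_λ` has at most `ℓ` elements, is `λ`-prepared by a finite
non-empty `A`-definable set. -/
def HMinModel (L : FirstOrder.Language.{u, v}) {K : Type w} [Field K] [L.Structure K]
    (O : ValuationSubring K) (ℓ : ℕ∞) : Prop :=
  ∀ l : K, l ≠ 0 → O.valuation l ≤ 1 → ∀ A X : Set K, DefOver L O l ℓ A X →
    ∃ C : Set K, C.Finite ∧ C.Nonempty ∧ A.Definable₁ L C ∧ Prepares O l C X

/-- the theory `T` is `ℓ`-h-minimal (`ℓ = ⊤` is `ω`) -/
def HMin {L : FirstOrder.Language.{u, v}} (S : ValSymb L) (T : L.Theory) (ℓ : ℕ∞) : Prop :=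
  ∀ (K : Type w) [Field K] [L.Structure K] (O : ValuationSubring K), IsValModel S K O →
    K ⊨ T → HMinModel L O ℓ

end Pool.Agent.MP_e9d743_lc
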