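import Mathlib
import Pool.Agent.Lib.MP_e9d743_lc.St

/-!
# Definability over `F ∪ RV`

The elements of `RV` are added to the language as unary predicates (the classes): `rvL O` has one
unary relation symbol for each `r : K`, interpreted as `{x | rv x = rv r}`. `Dfn L O F p` says that
the set `{v | p v}` is definable over `F` in `L + rvL O`, i.e. definable over `F ∪ RV`.
-/

set_option autoImplicit false

open FirstOrder FirstOrder.Language

namespace Pool.Agent.MP_e9d743_lc

universe u v w

/-- the relation symbols of `rvL`: one unary symbol for each `r : K` -/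
inductive RVSym {K : Type w} [Field K] (O : ValuationSubring K) : ℕ → Type w
  | mk (r : K) : RVSym O 1

/-- the language with a unary predicate for each class of `RV` -/
def rvL {K : Type w} [Field K] (O : ValuationSubring K) : FirstOrder.Language.{0, w} :=
  ⟨fun _ => Empty, RVSym O⟩

instance {K : Type w} [Field K] (O : ValuationSubring K) : (rvL O).Structure K where
  funMap := fun f => Empty.elim f
  RelMap := fun {n} (R : RVSym O n) => match n, R with
    | _, RVSym.mk r => fun x => RVEq O 1 (x 0) r

/-- the language with the constants of `RV` as predicates -/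
abbrev LRV (L : FirstOrder.Language.{u, v}) {K : Type w} [Field K] (O : ValuationSubring K) :
    FirstOrder.Language.{u, max v w} := L.sum (rvL O)

section
variable (L : FirstOrder.Language.{u, v}) {K : Type w} [Field K] [L.Structure K]
  (O : ValuationSubring K) {α : Type*}

/-- the predicate `p` on `K^α` is definable over `F ∪ RV` -/
def Dfn (F : Set K) (p : (α → K) → Prop) : Prop := F.Definable (LRV L O) {v | p v}

/-- the function `f` on `K^α` is definable over `F ∪ RV` -/
def DfnF (F : Set K) (f : (α → K) → K) : Prop := F.DefinableFun (LRV L O) f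

/-- a subset of `K` definable over `F ∪ RV` -/
def D1 (F X : Set K) : Prop := Dfn L O F (fun v : Unit → K => v () ∈ X)

/-- a function `K → K` definable over `F ∪ RV` -/
def DF1 (F : Set K) (f : K → K) : Prop := DfnF L O F (fun v : Unit → K => f (v ()))

/-- the closure of `F`: the elements of `K` definable over `F ∪ RV` -/
def cl (F : Set K) : Set K := {x | D1 L O F {x}}

/-- `F` is closed -/
def Cld (F : Set K) : Prop := cl L O F ⊆ F

end

section
variable {K : Type w} [Field K] (O : ValuationSubring K)

/-- `N_F(x)`: the `γ` such that some `c ∈ F` satisfies `|x - c| ≤ γ` -/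
def NN (F : Set K) (x : K) : Set O.ValueGroup := {γ | ∃ c ∈ F, O.valuation (x - c) ≤ γ}

/-- `f` scales by `μ` near `x` -/
def LS (f : K → K) (x : K) (μ : O.ValueGroup) : Prop :=
  ∃ ρ : O.ValueGroup, 0 < ρ ∧ ∀ z z' : K, O.valuation (z - x) < ρ → O.valuation (z' - x) < ρ →
    O.valuation (f z - f z') = μ * O.valuation (z - z')

/-- `f` scales by `μ` on the ball `B(x, < γ)` and maps it onto the ball `B(f x, < μ γ)` -/
def SC (f : K → K) (x : K) (μ γ : O.ValueGroup) : Prop :=
  (∀ z z' : K, O.valuation (z - x) < γ → O.valuation (z' - x) < γ →
    O.valuation (f z - f z') = μ * O.valuation (z - z')) ∧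
  ∀ w : K, O.valuation (w - f x) < μ * γ → ∃ z : K, O.valuation (z - x) < γ ∧ f z = w

end

end Pool.Agent.MP_e9d743_lc
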