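import Mathlib
import Pool.Agent.Lib.MP_e9d743_lc.B0_Defs

/-!
# Closure properties of `Dfn` and `DfnF`

Thin wrappers around `Set.Definable`, `Set.DefinableFun`.
-/

set_option autoImplicit false

open FirstOrder FirstOrder.Language

namespace Pool.Agent.MP_e9d743_lc

universe u v w

section
variable {L : FirstOrder.Language.{u, v}} {K : Type w} [Field K] [L.Structure K]
  {O : ValuationSubring K} {F G : Set K} {α β : Type*} {ι : Type*}

theorem Dfn.congr {p q : (α → K) → Prop} (hp : Dfn L O F p) (h : ∀ v, q v ↔ p v) :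
    Dfn L O F q := by
  have : q = p := by
    funext v
    exact propext (h v)
  rw [this]
  exact hp

theorem Dfn.mono {p : (α → K) → Prop} (hp : Dfn L O F p) (h : F ⊆ G) : Dfn L O G p :=
  Set.Definable.mono hp h

theorem Dfn.const (P : Prop) : Dfn L O F (fun _ : α → K => P) := by
  by_cases hP : P
  · refine Dfn.congr (p := fun _ => True) ?_ (by simp [hP])
    exact Set.definable_univ
  · refine Dfn.congr (p := fun _ => False) ?_ (by simp [hP])
    exact Set.definable_empty

theorem Dfn.and {p q : (α → K) → Prop} (hp : Dfn L O F p) (hq : Dfn L O F q) :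
    Dfn L O F (fun v => p v ∧ q v) := Set.Definable.inter hp hq

theorem Dfn.or {p q : (α → K) → Prop} (hp : Dfn L O F p) (hq : Dfn L O F q) :
    Dfn L O F (fun v => p v ∨ q v) := Set.Definable.union hp hq

theorem Dfn.not {p : (α → K) → Prop} (hp : Dfn L O F p) : Dfn L O F (fun v => ¬ p v) :=
  Set.Definable.compl hp

theorem Dfn.imp {p q : (α → K) → Prop} (hp : Dfn L O F p) (hq : Dfn L O F q) :
    Dfn L O F (fun v => p v → q v) :=
  (hp.not.or hq).congr fun v => by tauto

theorem Dfn.iff {p q : (α → K) → Prop} (hp : Dfn L O F p) (hq : Dfn L O F q) :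
    Dfn L O F (fun v => p v ↔ q v) :=
  ((hp.imp hq).and (hq.imp hp)).congr fun v => by tauto

/-- existential quantifier over finitely many variables -/
theorem Dfn.exF [Finite ι] {p : (α → K) → (ι → K) → Prop}
    (hp : Dfn L O F (fun w : α ⊕ ι → K => p (fun a => w (Sum.inl a)) (fun i => w (Sum.inr i)))) :
    Dfn L O F (fun v => ∃ x : ι → K, p v x) :=
  Set.Definable.exists_of_finite hp

/-- universal quantifier over finitely many variables -/
theorem Dfn.allF [Finite ι] {p : (α → K) → (ι → K) → Prop}
    (hp : Dfn L O F (fun w : α ⊕ ι → K => p (fun a => w (Sum.inl a)) (fun i => w (Sum.inr i)))) :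
    Dfn L O F (fun v => ∀ x : ι → K, p v x) :=
  Set.Definable.forall_of_finite hp

/-- renaming of variables -/
theorem Dfn.ren {p : (α → K) → Prop} (hp : Dfn L O F p) (f : α → β) :
    Dfn L O F (fun v : β → K => p (fun a => v (f a))) :=
  Set.Definable.preimage_comp f hp

/-- existential quantifier -/
theorem Dfn.ex {p : (α → K) → K → Prop}
    (hp : Dfn L O F (fun w : Option α → K => p (fun a => w (some a)) (w none))) :
    Dfn L O F (fun v => ∃ x : K, p v x) := by
  refine (Dfn.exF (ι := Unit) (p := fun v x => p v (x ())) ?_).congr fun v =>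
    ⟨fun ⟨x, hx⟩ => ⟨fun _ => x, hx⟩, fun ⟨x, hx⟩ => ⟨x (), hx⟩⟩
  exact hp.ren (fun o => o.elim (Sum.inr ()) Sum.inl)

/-- universal quantifier -/
theorem Dfn.all {p : (α → K) → K → Prop}
    (hp : Dfn L O F (fun w : Option α → K => p (fun a => w (some a)) (w none))) :
    Dfn L O F (fun v => ∀ x : K, p v x) := by
  refine (Dfn.ex (p := fun v x => ¬ p v x) hp.not).not.congr fun v => by simp

theorem Dfn.finAll [Finite ι] {p : ι → (α → K) → Prop} (hp : ∀ i, Dfn L O F (p i)) :
    Dfn L O F (fun v => ∀ i, p i v) := by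
  have := Set.definable_iInter_of_finite (fun i => hp i)
  exact Dfn.congr (p := fun v => v ∈ ⋂ i, {v | p i v}) this (by simp)

theorem Dfn.finEx [Finite ι] {p : ι → (α → K) → Prop} (hp : ∀ i, Dfn L O F (p i)) :
    Dfn L O F (fun v => ∃ i, p i v) := by
  have := Set.definable_iUnion_of_finite (fun i => hp i)
  exact Dfn.congr (p := fun v => v ∈ ⋃ i, {v | p i v}) this (by simp)

/-- substitution of definable functions -/
theorem Dfn.subst [Finite β] {p : (β → K) → Prop} (hp : Dfn L O F p) {t : (α → K) → β → K}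
    (ht : ∀ b, DfnF L O F (fun v => t v b)) : Dfn L O F (fun v => p (t v)) :=
  Set.Definable.preimage_map (F := t) ht hp

theorem Dfn.eq {f g : (α → K) → K} (hf : DfnF L O F f) (hg : DfnF L O F g) :
    Dfn L O F (fun v => f v = g v) :=
  Set.DefinableFun.ofPred_eq hf hg

theorem DfnF.mono {f : (α → K) → K} (hf : DfnF L O F f) (h : F ⊆ G) : DfnF L O G f :=
  Set.DefinableFun.mono hf h

theorem DfnF.var (i : α) : DfnF L O F (fun v : α → K => v i) :=
  Set.DefinableFun.proj (LRV L O)

theorem DfnF.const {c : K} (hc : c ∈ F) : DfnF L O F (fun _ : α → K => c) :=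
  FirstOrder.Language.definableFun_const (LRV L O) α hc

theorem DfnF.comp [Finite β] {g : (β → K) → K} (hg : DfnF L O F g) {t : (α → K) → β → K}
    (ht : ∀ b, DfnF L O F (fun v => t v b)) : DfnF L O F (fun v => g (t v)) :=
  Set.DefinableFun.comp (g := t) ht hg

theorem DfnF.graph_iff {f : (α → K) → K} : DfnF L O F f ↔
    Dfn L O F (fun w : Option α → K => f (fun a => w (some a)) = w none) := by
  unfold DfnF Set.DefinableFun Dfn
  exact Iff.rfl

/-- a function given by a definable relation -/
theorem DfnF.of_graph {f : (α → K) → K} {p : (α → K) → K → Prop}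
    (hp : Dfn L O F (fun w : Option α → K => p (fun a => w (some a)) (w none)))
    (h : ∀ v x, p v x ↔ f v = x) : DfnF L O F f :=
  DfnF.graph_iff.2 (hp.congr fun w => (h _ _).symm)

/-- renaming of variables -/
theorem DfnF.ren {f : (α → K) → K} (hf : DfnF L O F f) (h : α → β) :
    DfnF L O F (fun v : β → K => f (fun a => v (h a))) :=
  DfnF.graph_iff.2 (Dfn.ren (DfnF.graph_iff.1 hf) (Option.map h))

open Classical in
theorem DfnF.ite {p : (α → K) → Prop} {f g : (α → K) → K} (hp : Dfn L O F p)
    (hf : DfnF L O F f) (hg : DfnF L O F g) : DfnF L O F (fun v => if p v then f v else g v) :=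
  Set.DefinableFun.ite hp hf hg

/-- an `L`-definable set is definable -/
theorem Dfn.ofL {p : (α → K) → Prop} (hp : F.Definable L {v | p v}) : Dfn L O F p :=
  hp.map_expansion (LHom.sumInl : L →ᴸ LRV L O)

theorem DF1.app {f : K → K} (hf : DF1 L O F f) {g : (α → K) → K} (hg : DfnF L O F g) :
    DfnF L O F (fun v => f (g v)) :=
  DfnF.comp (g := fun v : Unit → K => f (v ())) hf (t := fun v _ => g v) fun _ => hg

theorem D1.app {X : Set K} (hX : D1 L O F X) {g : (α → K) → K} (hg : DfnF L O F g) :
    Dfn L O F (fun v => g v ∈ X) :=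
  Dfn.subst (p := fun v : Unit → K => v () ∈ X) hX (t := fun v _ => g v) fun _ => hg

end

end Pool.Agent.MP_e9d743_lc
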