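import Mathlib
import Pool.Agent.Lib.MP_e9d743_lc.B1_Form

/-!
# Definability: field operations and the valuation

`DV L O F g`: the function `g : K^α → Γ₀` is definable over `F ∪ RV`.
-/

set_option autoImplicit false

open FirstOrder FirstOrder.Language

namespace Pool.Agent.MP_e9d743_lc

universe u v w

section
variable {L : FirstOrder.Language.{u, v}} {K : Type w} [Field K] [L.Structure K]
  {O : ValuationSubring K} {F G : Set K} {α β : Type*} {ι : Type*} {S : ValSymb L}

/-! ### field operations -/

theorem DfnF.add (hK : IsValModel S K O) {f g : (α → K) → K} (hf : DfnF L O F f)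
    (hg : DfnF L O F g) : DfnF L O F (fun v => f v + g v) := by
  have h1 : DfnF L O F (fun v : Fin 2 → K => v 0 + v 1) := by
    have h2 := Set.DefinableFun.of_empty (A := F)
      (Set.DefinableFun.fun_symbol (M := K) (L := LRV L O) (Sum.inl S.add))
    refine DfnF.graph_iff.2 (Dfn.congr (DfnF.graph_iff.1 h2) fun w => ?_)
    have h3 : Structure.funMap (L := LRV L O) (Sum.inl S.add) (fun a => w (some a)) =
        w (some 0) + w (some 1) := by
      rw [← hK.add]
      change Structure.funMap S.add _ = _
      congr 1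
      funext i
      fin_cases i <;> rfl
    rw [h3]
  refine (h1.comp (t := fun v => ![f v, g v]) ?_)
  intro b
  fin_cases b
  · exact hf
  · exact hg

theorem DfnF.mul (hK : IsValModel S K O) {f g : (α → K) → K} (hf : DfnF L O F f)
    (hg : DfnF L O F g) : DfnF L O F (fun v => f v * g v) := by
  have h1 : DfnF L O F (fun v : Fin 2 → K => v 0 * v 1) := by
    have h2 := Set.DefinableFun.of_empty (A := F)
      (Set.DefinableFun.fun_symbol (M := K) (L := LRV L O) (Sum.inl S.mul))
    refine DfnF.graph_iff.2 (Dfn.congr (DfnF.graph_iff.1 h2) fun w => ?_)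
    have h3 : Structure.funMap (L := LRV L O) (Sum.inl S.mul) (fun a => w (some a)) =
        w (some 0) * w (some 1) := by
      rw [← hK.mul]
      change Structure.funMap S.mul _ = _
      congr 1
      funext i
      fin_cases i <;> rfl
    rw [h3]
  refine (h1.comp (t := fun v => ![f v, g v]) ?_)
  intro b
  fin_cases b
  · exact hf
  · exact hg

theorem DfnF.zero (hK : IsValModel S K O) : DfnF L O F (fun _ : α → K => (0 : K)) := by
  refine DfnF.of_graph (p := fun _ x => x + x = x) ?_ fun v x => ?_
  · exact Dfn.eq (DfnF.add hK (DfnF.var none) (DfnF.var none)) (DfnF.var none)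
  · constructor
    · intro h
      exact (add_eq_left.1 h).symm
    · rintro rfl
      simp

theorem DfnF.sub (hK : IsValModel S K O) {f g : (α → K) → K} (hf : DfnF L O F f)
    (hg : DfnF L O F g) : DfnF L O F (fun v => f v - g v) := by
  refine DfnF.of_graph (p := fun v x => x + g v = f v) ?_ fun v x => ?_
  · exact Dfn.eq (DfnF.add hK (DfnF.var none) (hg.ren some)) (hf.ren some)
  · constructor
    · intro h
      rw [← h]
      ring
    · rintro rfl
      ring

theorem DfnF.neg (hK : IsValModel S K O) {f : (α → K) → K} (hf : DfnF L O F f) :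
    DfnF L O F (fun v => - f v) := by
  have := DfnF.sub hK (DfnF.zero hK) hf
  simpa using this

theorem DfnF.one (hK : IsValModel S K O) : DfnF L O F (fun _ : α → K => (1 : K)) := by
  refine DfnF.of_graph (p := fun _ x => x * x = x ∧ ¬ x + x = x) ?_ fun v x => ?_
  · exact (Dfn.eq (DfnF.mul hK (DfnF.var none) (DfnF.var none)) (DfnF.var none)).and
      (Dfn.eq (DfnF.add hK (DfnF.var none) (DfnF.var none)) (DfnF.var none)).not
  · constructor
    · rintro ⟨h1, h2⟩
      have hx : x ≠ 0 := by
        rintro rfl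
        exact h2 (by simp)
      exact (mul_left_cancel₀ hx (by rw [h1, mul_one])).symm
    · rintro rfl
      simp

theorem DfnF.inv (hK : IsValModel S K O) {f : (α → K) → K} (hf : DfnF L O F f) :
    DfnF L O F (fun v => (f v)⁻¹) := by
  refine DfnF.of_graph (p := fun v x => (f v = 0 ∧ x = 0) ∨ (¬ f v = 0 ∧ x * f v = 1)) ?_
    fun v x => ?_
  · have h0 := DfnF.zero (F := F) (α := Option α) hK
    have h1 := DfnF.one (F := F) (α := Option α) hK
    have h2 := hf.ren (some : α → Option α)
    exact ((Dfn.eq h2 h0).and (Dfn.eq (DfnF.var none) h0)).or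
      ((Dfn.eq h2 h0).not.and (Dfn.eq (DfnF.mul hK (DfnF.var none) h2) h1))
  · constructor
    · rintro (⟨h1, h2⟩ | ⟨h1, h2⟩)
      · rw [h1, h2, inv_zero]
      · exact (eq_inv_of_mul_eq_one_left h2).symm
    · rintro rfl
      by_cases h : f v = 0
      · left
        simp [h]
      · right
        exact ⟨h, inv_mul_cancel₀ h⟩

theorem DfnF.natCast (hK : IsValModel S K O) (n : ℕ) : DfnF L O F (fun _ : α → K => (n : K)) := by
  induction n with
  | zero => simpa using DfnF.zero hK
  | succ n ih =>
    push_cast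
    exact DfnF.add hK ih (DfnF.one hK)

theorem Dfn.rel1 {f : (α → K) → K} (hf : DfnF L O F f) (R : (LRV L O).Relations 1) :
    Dfn L O F (fun v => Structure.RelMap R ![f v]) := by
  have h2 : Dfn L O F (fun v : Unit → K => Structure.RelMap R ![v ()]) := by
    unfold Dfn
    refine Set.Definable.mono (A := ∅) ?_ (Set.empty_subset _)
    rw [Set.empty_definable_iff]
    refine ⟨R.formula₁ (Term.var ()), ?_⟩
    ext v
    simp
  exact Dfn.subst h2 (t := fun v _ => f v) fun _ => hf

theorem Dfn.memRing (hK : IsValModel S K O) {f : (α → K) → K} (hf : DfnF L O F f) :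
    Dfn L O F (fun v => f v ∈ O) :=
  (Dfn.rel1 hf (Sum.inl S.ring)).congr fun v => (hK.ring (f v)).symm

/-- the classes of `RV` are definable -/
theorem Dfn.rvConst {f : (α → K) → K} (hf : DfnF L O F f) (r : K) :
    Dfn L O F (fun v => RVEq O 1 (f v) r) :=
  (Dfn.rel1 hf (Sum.inr (RVSym.mk r))).congr fun _ => Iff.rfl

/-! ### functions with values in the value group -/

theorem Dfn.valLe (hK : IsValModel S K O) {f g : (α → K) → K} (hf : DfnF L O F f)
    (hg : DfnF L O F g) : Dfn L O F (fun v => O.valuation (f v) ≤ O.valuation (g v)) := by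
  refine Dfn.congr (p := fun v => ∃ z : K, z ∈ O ∧ f v = z * g v) ?_ fun v => ?_
  · refine Dfn.ex ?_
    exact (Dfn.memRing hK (DfnF.var none)).and
      (Dfn.eq (hf.ren some) (DfnF.mul hK (DfnF.var none) (hg.ren some)))
  · rw [ValuationSubring.valuation_le_iff]
    constructor
    · rintro ⟨a, ha⟩
      exact ⟨a, a.2, ha.symm⟩
    · rintro ⟨z, hz, h⟩
      exact ⟨⟨z, hz⟩, h.symm⟩

/-- `g : K^α → Γ₀` is definable over `F ∪ RV` -/
def DV (L : FirstOrder.Language.{u, v}) {K : Type w} [Field K] [L.Structure K]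
    (O : ValuationSubring K) {α : Type*} (F : Set K) (g : (α → K) → O.ValueGroup) : Prop :=
  Dfn L O F (fun w : Option α → K => O.valuation (w none) = g (fun a => w (some a)))

theorem DV.val (hK : IsValModel S K O) {f : (α → K) → K} (hf : DfnF L O F f) :
    DV L O F (fun v => O.valuation (f v)) := by
  unfold DV
  refine Dfn.congr (p := fun w => O.valuation (w none) ≤ O.valuation (f (fun a => w (some a))) ∧
    O.valuation (f (fun a => w (some a))) ≤ O.valuation (w none)) ?_ fun w => ?_
  · exact (Dfn.valLe hK (DfnF.var none) (hf.ren some)).and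
      (Dfn.valLe hK (hf.ren some) (DfnF.var none))
  · constructor
    · intro h
      rw [h]
      exact ⟨le_rfl, le_rfl⟩
    · exact fun h => le_antisymm h.1 h.2

theorem DV.ren {g : (α → K) → O.ValueGroup} (hg : DV L O F g) (h : α → β) :
    DV L O F (fun v : β → K => g (fun a => v (h a))) :=
  Dfn.ren hg (Option.map h)

theorem DV.mono {g : (α → K) → O.ValueGroup} (hg : DV L O F g) (h : F ⊆ G) : DV L O G g :=
  Dfn.mono hg h

theorem Dfn.mem1 {f : (α → K) → K} (hf : DfnF L O F f) {g : (α → K) → O.ValueGroup}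
    (hg : DV L O F g) : Dfn L O F (fun v => O.valuation (f v) = g v) := by
  refine Dfn.congr (p := fun v => ∃ x : K, O.valuation x = g v ∧ x = f v) ?_ fun v => ?_
  · exact Dfn.ex ((hg : Dfn L O F _).and (Dfn.eq (DfnF.var none) (hf.ren some)))
  · constructor
    · exact fun h => ⟨f v, h, rfl⟩
    · rintro ⟨x, h, rfl⟩
      exact h

/-- an existential quantifier over the value group -/
theorem Dfn.exV {p : (α → K) → O.ValueGroup → Prop}
    (hp : Dfn L O F (fun w : Option α → K => p (fun a => w (some a)) (O.valuation (w none)))) :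
    Dfn L O F (fun v => ∃ γ, p v γ) := by
  refine (Dfn.ex (p := fun v x => p v (O.valuation x)) hp).congr fun v => ?_
  constructor
  · rintro ⟨γ, h⟩
    obtain ⟨x, rfl⟩ := O.valuation_surjective γ
    exact ⟨x, h⟩
  · rintro ⟨x, h⟩
    exact ⟨_, h⟩

/-- a universal quantifier over the value group -/
theorem Dfn.allV {p : (α → K) → O.ValueGroup → Prop}
    (hp : Dfn L O F (fun w : Option α → K => p (fun a => w (some a)) (O.valuation (w none)))) :
    Dfn L O F (fun v => ∀ γ, p v γ) := by
  refine (Dfn.all (p := fun v x => p v (O.valuation x)) hp).congr fun v => ?_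
  constructor
  · exact fun h x => h _
  · intro h γ
    obtain ⟨x, rfl⟩ := O.valuation_surjective γ
    exact h x

theorem rvEq_val {x y : K} (h : RVEq O 1 x y) : O.valuation x = O.valuation y := by
  rcases h with ⟨rfl, rfl⟩ | h
  · rfl
  · rw [one_mul] at h
    have h1 : x = y + (x - y) := by ring
    rw [h1]
    exact Valuation.map_add_eq_of_lt_left _ h

theorem rvEq_refl (x : K) : RVEq O 1 x x := by
  by_cases hx : x = 0
  · exact Or.inl ⟨hx, hx⟩
  · right
    rw [sub_self, map_zero, one_mul]
    exact zero_lt_iff.2 ((Valuation.ne_zero_iff _).2 hx)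

theorem DV.constV (hK : IsValModel S K O) (γ : O.ValueGroup) :
    DV L O F (fun _ : α → K => γ) := by
  obtain ⟨r, rfl⟩ := O.valuation_surjective γ
  refine Dfn.congr (p := fun w : Option α → K => ∃ y : K, RVEq O 1 y r ∧
    O.valuation (w none) = O.valuation y) ?_ fun w => ?_
  · refine Dfn.ex ((Dfn.rvConst (DfnF.var none) r).and ?_)
    exact Dfn.mem1 (DfnF.var (some none)) (DV.val hK (DfnF.var none))
  · constructor
    · exact fun h => ⟨r, rvEq_refl r, h⟩
    · rintro ⟨y, h1, h2⟩
      rw [h2, rvEq_val h1]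

theorem DV.mul (hK : IsValModel S K O) {g h : (α → K) → O.ValueGroup} (hg : DV L O F g)
    (hh : DV L O F h) : DV L O F (fun v => g v * h v) := by
  refine Dfn.congr (p := fun w : Option α → K => ∃ x : K, O.valuation x = g (fun a => w (some a)) ∧
    ∃ y : K, O.valuation y = h (fun a => w (some a)) ∧
    O.valuation (w none) = O.valuation (x * y)) ?_ fun w => ?_
  · refine Dfn.ex ((Dfn.mem1 (DfnF.var none) ((hg.ren some).ren some)).and (Dfn.ex
      ((Dfn.mem1 (DfnF.var none) (((hh.ren some).ren some).ren some)).and ?_)))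
    exact Dfn.mem1 (DfnF.var (some (some none)))
      (DV.val hK (DfnF.mul hK (DfnF.var (some none)) (DfnF.var none)))
  · constructor
    · intro hw
      obtain ⟨x, hx⟩ := O.valuation_surjective (g (fun a => w (some a)))
      obtain ⟨y, hy⟩ := O.valuation_surjective (h (fun a => w (some a)))
      refine ⟨x, hx, y, hy, ?_⟩
      rw [hw, map_mul, hx, hy]
    · rintro ⟨x, hx, y, hy, h3⟩
      rw [h3, map_mul, hx, hy]

theorem Dfn.vle (hK : IsValModel S K O) {g h : (α → K) → O.ValueGroup} (hg : DV L O F g)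
    (hh : DV L O F h) : Dfn L O F (fun v => g v ≤ h v) := by
  refine Dfn.congr (p := fun v => ∃ x : K, O.valuation x = g v ∧
    ∃ y : K, O.valuation y = h v ∧ O.valuation x ≤ O.valuation y) ?_ fun v => ?_
  · exact Dfn.ex ((Dfn.mem1 (DfnF.var none) (hg.ren some)).and (Dfn.ex
      ((Dfn.mem1 (DfnF.var none) ((hh.ren some).ren some)).and
        (Dfn.valLe hK (DfnF.var (some none)) (DfnF.var none)))))
  · constructor
    · intro hw
      obtain ⟨x, hx⟩ := O.valuation_surjective (g v)
      obtain ⟨y, hy⟩ := O.valuation_surjective (h v)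
      exact ⟨x, hx, y, hy, by rw [hx, hy]; exact hw⟩
    · rintro ⟨x, hx, y, hy, h3⟩
      rw [← hx, ← hy]
      exact h3

theorem Dfn.vlt (hK : IsValModel S K O) {g h : (α → K) → O.ValueGroup} (hg : DV L O F g)
    (hh : DV L O F h) : Dfn L O F (fun v => g v < h v) :=
  (Dfn.vle hK hh hg).not.congr fun v => by simp

theorem Dfn.veq (hK : IsValModel S K O) {g h : (α → K) → O.ValueGroup} (hg : DV L O F g)
    (hh : DV L O F h) : Dfn L O F (fun v => g v = h v) :=
  ((Dfn.vle hK hg hh).and (Dfn.vle hK hh hg)).congr fun v =>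
    ⟨fun h => ⟨h.le, h.ge⟩, fun h => le_antisymm h.1 h.2⟩

theorem Dfn.rvEq (hK : IsValModel S K O) {l f g : (α → K) → K} (hl : DfnF L O F l)
    (hf : DfnF L O F f) (hg : DfnF L O F g) : Dfn L O F (fun v => RVEq O (l v) (f v) (g v)) := by
  unfold RVEq
  exact ((Dfn.eq hf (DfnF.zero hK)).and (Dfn.eq hg (DfnF.zero hK))).or
    (Dfn.vlt hK (DV.val hK (DfnF.sub hK hf hg)) (DV.val hK (DfnF.mul hK hl hg)))

/-- the relation `rv_λ x = rv_λ y`, for any `λ` in the value group -/
theorem Dfn.rvEqC (hK : IsValModel S K O) (l : K) {f g : (α → K) → K}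
    (hf : DfnF L O F f) (hg : DfnF L O F g) : Dfn L O F (fun v => RVEq O l (f v) (g v)) := by
  unfold RVEq
  refine ((Dfn.eq hf (DfnF.zero hK)).and (Dfn.eq hg (DfnF.zero hK))).or
    ((Dfn.vlt hK (DV.val hK (DfnF.sub hK hf hg))
      (DV.mul hK (DV.constV hK (O.valuation l)) (DV.val hK hg))).congr fun _ => ?_)
  rw [map_mul]

end

end Pool.Agent.MP_e9d743_lc
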