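import Mathlib
import Pool.Agent.Lib.MP_e9d743_lc.B2_Val

/-!
# Definable over `F ∪ RV` in terms of representatives

Task B3. `dfn_bridge`: a set definable in `L + rvL O` over `F` is the fibre of an `L`-definable set
over `F` at a tuple `r`, independently of the choice of the representatives `r'`, `rv r' = rv r`.
Proof: induction on the formula (`(LRV L O)[[F]].BoundedFormula α n`): for each such `φ` there are
`m`, `r : Fin m → K` and `ψ : L[[F]].BoundedFormula (α ⊕ Fin m) n` with
`ψ.Realize (Sum.elim v r') xs ↔ φ.Realize v xs` for all `r'` with the same classes as `r`; the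
predicate `RVSym.mk r₀` applied to a term `t` is replaced by the formula of `RVEq O 1 t x`, `x` a new
variable (which is `L`-definable by `+`, `·`, `O`). Alternatively: let `𝒞` be the class of the sets
with the property of the theorem, prove that it is closed under the operations needed, and use
induction on the formula.
-/

set_option autoImplicit false

open FirstOrder FirstOrder.Language

namespace Pool.Agent.MP_e9d743_lc

universe u v w

private theorem br_term {L : FirstOrder.Language.{u, v}} {K : Type w} [Field K] [L.Structure K]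
    {O : ValuationSubring K} {γ : Type*} (t : (LRV L O).Term γ) :
    ∃ t' : L.Term γ, ∀ v : γ → K, t'.realize v = t.realize v := by
  induction t with
  | var i => exact ⟨Term.var i, fun _ => rfl⟩
  | func f ts ih =>
    choose ts' h using ih
    rcases f with f | f
    · refine ⟨Term.func f ts', fun v => ?_⟩
      simp only [Term.realize_func, h]
      rfl
    · exact Empty.elim f

private theorem br_symm {K : Type w} [Field K] {O : ValuationSubring K} {x y : K}
    (h : RVEq O 1 x y) : RVEq O 1 y x := by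
  have hv := rvEq_val h
  rcases h with ⟨h1, h2⟩ | h
  · exact Or.inl ⟨h2, h1⟩
  · right
    rw [one_mul] at h ⊢
    rw [← Valuation.map_neg, neg_sub, hv]
    exact h

private theorem br_trans {K : Type w} [Field K] {O : ValuationSubring K} {x y z : K}
    (h : RVEq O 1 x y) (h' : RVEq O 1 y z) : RVEq O 1 x z := by
  have hv' := rvEq_val h'
  rcases h with ⟨h1, h2⟩ | h
  · rcases h' with ⟨h3, h4⟩ | h'
    · exact Or.inl ⟨h1, h4⟩
    · right
      rw [h1]
      rw [h2] at h'
      exact h'
  · rcases h' with ⟨h3, h4⟩ | h'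
    · exfalso
      rw [h3, mul_zero, map_zero] at h
      exact not_lt_zero h
    · right
      rw [one_mul] at h h' ⊢
      have e : x - z = (x - y) + (y - z) := by ring
      rw [e]
      refine lt_of_le_of_lt (Valuation.map_add _ _ _) (max_lt ?_ h')
      rw [← hv']
      exact h

private theorem br_iff {K : Type w} [Field K] {O : ValuationSubring K} {x r r' : K}
    (h : RVEq O 1 r' r) : RVEq O 1 x r ↔ RVEq O 1 x r' :=
  ⟨fun hx => br_trans hx (br_symm h), fun hx => br_trans hx h⟩

private theorem br_rv {L : FirstOrder.Language.{u, v}} {K : Type w} [Field K] [L.Structure K]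
    {O : ValuationSubring K} {S : ValSymb L} (hK : IsValModel S K O) {γ : Type*}
    (t : L.Term γ) (s : L.Term γ) :
    ∃ φ : L.Formula γ, ∀ v : γ → K, φ.Realize v ↔ RVEq O 1 (t.realize v) (s.realize v) := by
  -- `RVEq O 1 x y` iff `x = y` or there is `z` with `z + y = x` and `y ∉ O * z`
  let z : L.Term (γ ⊕ Fin 1) := Term.var (Sum.inr 0)
  let y : L.Term (γ ⊕ Fin 1) := s.relabel Sum.inl
  let x : L.Term (γ ⊕ Fin 1) := t.relabel Sum.inl
  let body1 : L.BoundedFormula γ 1 := (S.add.apply₂ z y).bdEqual x
  let z2 : L.Term (γ ⊕ Fin 2) := Term.var (Sum.inr 0)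
  let a2 : L.Term (γ ⊕ Fin 2) := Term.var (Sum.inr 1)
  let y2 : L.Term (γ ⊕ Fin 2) := s.relabel Sum.inl
  let body2 : L.BoundedFormula γ 1 :=
    ((S.ring.boundedFormula₁ a2) ⊓ (S.mul.apply₂ a2 z2).bdEqual y2).ex.not
  let φ1 : L.Formula γ := t.equal s
  let φ2 : L.Formula γ := (body1 ⊓ body2).ex
  refine ⟨φ1 ⊔ φ2, fun v => ?_⟩
  have h1 : φ1.Realize v ↔ t.realize v = s.realize v := Formula.realize_equal
  have h2 : φ2.Realize v ↔ ∃ z : K, z + s.realize v = t.realize v ∧
      ¬ ∃ a : K, a ∈ O ∧ a * z = s.realize v := by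
    simp only [φ2, body1, body2, Formula.Realize, BoundedFormula.realize_ex,
      BoundedFormula.realize_inf, BoundedFormula.realize_not, BoundedFormula.realize_bdEqual,
      Term.realize_functions_apply₂, BoundedFormula.realize_rel₁, x, y, z, x, a2, z2, y2,
      Term.realize_relabel, Term.realize_var, hK.add, hK.mul, hK.ring, Sum.elim_inr]
    refine exists_congr fun z => ?_
    simp [Fin.snoc, Function.comp_def]
  rw [Formula.realize_sup, h1, h2]
  constructor
  · rintro (h | ⟨z, h3, h4⟩)
    · rw [h]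
      exact rvEq_refl _
    · right
      rw [one_mul]
      have h5 : z = t.realize v - s.realize v := by
        rw [← h3]
        ring
      by_contra hle
      rw [not_lt, ValuationSubring.valuation_le_iff, ← h5] at hle
      obtain ⟨a, ha⟩ := hle
      exact h4 ⟨a, a.2, ha⟩
  · rintro (⟨h3, h4⟩ | h)
    · left
      rw [h3, h4]
    · right
      refine ⟨t.realize v - s.realize v, by ring, ?_⟩
      rintro ⟨a, ha, h5⟩
      rw [one_mul] at h
      have h6 := (ValuationSubring.valuation_le_iff O (s.realize v)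
        (t.realize v - s.realize v)).2 ⟨⟨a, ha⟩, h5⟩
      exact absurd h (not_lt.2 h6)

private theorem br_elim {K : Type w} {β : Type*} {m n : ℕ} (v : β → K) (r : Fin m → K)
    (xs : Fin n → K) :
    Sum.elim (Sum.elim v r) xs ∘ Sum.map Sum.inl id = Sum.elim v xs := by
  funext s
  rcases s with s | s <;> rfl

private theorem br_main {L : FirstOrder.Language.{u, v}} {K : Type w} [Field K] [L.Structure K]
    {O : ValuationSubring K} {S : ValSymb L} (hK : IsValModel S K O) {β : Type*} {n : ℕ}
    (φ : (LRV L O).BoundedFormula β n) :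
    ∃ (m : ℕ) (r : Fin m → K) (ψ : L.BoundedFormula (β ⊕ Fin m) n),
      ∀ r' : Fin m → K, (∀ i, RVEq O 1 (r' i) (r i)) → ∀ (v : β → K) (xs : Fin n → K),
        φ.Realize v xs ↔ ψ.Realize (Sum.elim v r') xs := by
  induction φ with
  | falsum => exact ⟨0, Fin.elim0, ⊥, fun r' _ v xs => Iff.rfl⟩
  | equal t₁ t₂ =>
    obtain ⟨t₁', h₁⟩ := br_term t₁
    obtain ⟨t₂', h₂⟩ := br_term t₂
    refine ⟨0, Fin.elim0, (t₁'.relabel (Sum.map Sum.inl id)).bdEqual
      (t₂'.relabel (Sum.map Sum.inl id)), fun r' _ v xs => ?_⟩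
    rw [BoundedFormula.realize_bdEqual, Term.realize_relabel, Term.realize_relabel,
      br_elim, h₁, h₂]
    exact BoundedFormula.realize_bdEqual _ _
  | rel R ts =>
    rcases R with R | R
    · choose ts' h using fun i => br_term (ts i)
      refine ⟨0, Fin.elim0, BoundedFormula.rel R fun i => (ts' i).relabel (Sum.map Sum.inl id),
        fun r' _ v xs => ?_⟩
      have h2 : (BoundedFormula.rel (L := LRV L O) (Sum.inl R) ts).Realize v xs ↔
          Structure.RelMap R (fun i => (ts i).realize (Sum.elim v xs)) := Iff.rfl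
      have h3 : (BoundedFormula.rel R fun i => (ts' i).relabel (Sum.map Sum.inl id)).Realize
          (Sum.elim v r') xs ↔ Structure.RelMap R (fun i => ((ts' i).relabel
            (Sum.map Sum.inl id)).realize (Sum.elim (Sum.elim v r') xs)) := Iff.rfl
      refine h2.trans (Iff.trans ?_ h3.symm)
      simp only [Term.realize_relabel, br_elim, h]
    · rcases R with ⟨r₀⟩
      obtain ⟨t', h⟩ := br_term (ts 0)
      obtain ⟨ψ, hψ⟩ := br_rv hK (t'.relabel (Sum.map Sum.inl id))
        (Term.var (Sum.inl (Sum.inr 0)) : L.Term ((_ ⊕ Fin 1) ⊕ Fin _))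
      refine ⟨1, fun _ => r₀, BoundedFormula.relabel id ψ, fun r' hr' v xs => ?_⟩
      rw [BoundedFormula.realize_relabel]
      have h1 := hψ (Sum.elim (Sum.elim v r') xs)
      rw [Term.realize_relabel, br_elim, h, Term.realize_var] at h1
      have h2 : (BoundedFormula.rel (L := LRV L O) (Sum.inr (RVSym.mk r₀)) ts).Realize v xs ↔
          RVEq O 1 ((ts 0).realize (Sum.elim v xs)) r₀ := Iff.rfl
      rw [h2, br_iff (hr' 0)]
      refine h1.symm.trans ?_
      unfold Formula.Realize
      refine iff_of_eq ?_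
      congr 1
      funext s
      exact Fin.elim0 s
  | imp φ₁ φ₂ ih₁ ih₂ =>
    obtain ⟨m₁, r₁, ψ₁, h₁⟩ := ih₁
    obtain ⟨m₂, r₂, ψ₂, h₂⟩ := ih₂
    refine ⟨m₁ + m₂, Fin.append r₁ r₂,
      (ψ₁.subst fun s => Term.var (Sum.map id (Fin.castAdd m₂) s)).imp
        (ψ₂.subst fun s => Term.var (Sum.map id (Fin.natAdd m₁) s)), fun r' hr' v xs => ?_⟩
    have e₁ := h₁ (fun i => r' (Fin.castAdd m₂ i)) (fun i => by
      have := hr' (Fin.castAdd m₂ i)
      rwa [Fin.append_left] at this) v xs
    have e₂ := h₂ (fun i => r' (Fin.natAdd m₁ i)) (fun i => by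
      have := hr' (Fin.natAdd m₁ i)
      rwa [Fin.append_right] at this) v xs
    rw [BoundedFormula.realize_imp, BoundedFormula.realize_imp, BoundedFormula.realize_subst,
      BoundedFormula.realize_subst, e₁, e₂]
    have k₁ : (fun a => (Term.var (Sum.map id (Fin.castAdd m₂) a) : L.Term _).realize
        (Sum.elim v r')) = Sum.elim v (fun i => r' (Fin.castAdd m₂ i)) := by
      funext s
      rcases s with s | s <;> rfl
    have k₂ : (fun a => (Term.var (Sum.map id (Fin.natAdd m₁) a) : L.Term _).realize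
        (Sum.elim v r')) = Sum.elim v (fun i => r' (Fin.natAdd m₁ i)) := by
      funext s
      rcases s with s | s <;> rfl
    rw [k₁, k₂]
  | all φ ih =>
    obtain ⟨m, r, ψ, h⟩ := ih
    refine ⟨m, r, ψ.all, fun r' hr' v xs => ?_⟩
    rw [BoundedFormula.realize_all, BoundedFormula.realize_all]
    exact forall_congr' fun x => h r' hr' v (Fin.snoc xs x)

theorem dfn_bridge {L : FirstOrder.Language.{u, v}} {K : Type w} [Field K] [L.Structure K]
    {O : ValuationSubring K} {S : ValSymb L} (hK : IsValModel S K O) {F : Set K}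
    {α : Type} [Finite α] {p : (α → K) → Prop} (hp : Dfn L O F p) :
    ∃ (m : ℕ) (r : Fin m → K) (Y : Set (α ⊕ Fin m → K)), F.Definable L Y ∧
      ∀ r' : Fin m → K, (∀ i, RVEq O 1 (r' i) (r i)) → ∀ v, p v ↔ Sum.elim v r' ∈ Y := by
  unfold Dfn at hp
  rw [Set.definable_iff_exists_formula_sum] at hp
  obtain ⟨φ, hφ⟩ := hp
  obtain ⟨m, r, ψ, h⟩ := br_main hK φ
  refine ⟨m, r, {w | Formula.Realize (L := L) ψ (Sum.elim (Sum.elim (fun a : F => (a : K))
    (fun a => w (Sum.inl a))) (fun i => w (Sum.inr i)))}, ?_, fun r' hr' v => ?_⟩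
  · rw [Set.definable_iff_exists_formula_sum]
    refine ⟨Formula.relabel (L := L) (fun s : (F ⊕ α) ⊕ Fin m =>
      Sum.elim (Sum.elim Sum.inl (fun a => Sum.inr (Sum.inl a))) (fun i => Sum.inr (Sum.inr i)) s)
      ψ, ?_⟩
    ext w
    simp only [Set.mem_ofPred_eq]
    rw [Formula.realize_relabel]
    congr! 1
    funext s
    rcases s with (s | s) | s <;> rfl
  · have h1 : p v ↔ v ∈ {v | p v} := Iff.rfl
    rw [h1, hφ]
    have h2 := h r' hr' (Sum.elim (fun a : F => (a : K)) v) default
    exact h2

end Pool.Agent.MP_e9d743_lc
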