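import Mathlib
import Pool.Agent.Lib.MP_e9d743_lc.B3_Bridge

/-!
# Preparation

Task B4. `Hyp S T K O`: `K` is a model of the `1`-h-minimal theory `T`.
`prep0`, `prep1` are the axiom of `1`-h-minimality, via `dfn_bridge`: for `prep1` the parameter
`s` (an element of `RV_λ`) is the variable `v 1`.
-/

set_option autoImplicit false

open FirstOrder FirstOrder.Language

namespace Pool.Agent.MP_e9d743_lc

universe u v w

/-- `K` is a model of the `1`-h-minimal theory `T` -/
structure Hyp {L : FirstOrder.Language.{u, v}} (S : ValSymb L) (T : L.Theory) (K : Type w)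
    [Field K] [L.Structure K] (O : ValuationSubring K) : Prop where
  hmin : HMin.{u, v, w} S T 1
  val : IsValModel S K O
  mod : K ⊨ T

section
variable {L : FirstOrder.Language.{u, v}} {K : Type w} [Field K] [L.Structure K]
  {O : ValuationSubring K} {S : ValSymb L} {T : L.Theory} {F X : Set K}

theorem Hyp.h1 (H : Hyp S T K O) : HMinModel L O 1 := H.hmin K O H.val H.mod

theorem prep0 (H : Hyp S T K O) (hX : D1 L O F X) :
    ∃ C : Set K, C.Finite ∧ C.Nonempty ∧ F.Definable₁ L C ∧ Prepares O 1 C X := by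
  obtain ⟨m, r, Y, hY, h⟩ := dfn_bridge H.val hX
  refine H.h1 1 one_ne_zero (by simp) F X ⟨m, 0, r, Fin.elim0,
    (fun w : Option (Fin m ⊕ Fin 0) → K => w ∘ (Sum.elim (fun _ : Unit => none)
      (fun i : Fin m => some (Sum.inl i)))) ⁻¹' Y, by simp, hY.preimage_comp _, ?_⟩
  intro r' s' hr _ x
  have h1 := h r' hr (fun _ => x)
  have h2 : (fun o : Option (Fin m ⊕ Fin 0) => o.elim x (Sum.elim r' s')) ∘
      (Sum.elim (fun _ : Unit => none) (fun i : Fin m => some (Sum.inl i)))
      = Sum.elim (fun _ : Unit => x) r' := by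
    funext j
    rcases j with j | j <;> rfl
  rw [Set.mem_preimage, h2]
  exact h1

theorem prep1 (H : Hyp S T K O) {p : K → K → Prop}
    (hp : Dfn L O F (fun v : Fin 2 → K => p (v 0) (v 1))) {l s : K} (hl : l ≠ 0)
    (hl1 : O.valuation l ≤ 1) (hX : ∀ s', RVEq O l s' s → ∀ x, x ∈ X ↔ p x s') :
    ∃ C : Set K, C.Finite ∧ C.Nonempty ∧ F.Definable₁ L C ∧ Prepares O l C X := by
  obtain ⟨m, r, Y, hY, h⟩ := dfn_bridge H.val hp
  refine H.h1 l hl hl1 F X ⟨m, 1, r, fun _ => s,
    (fun w : Option (Fin m ⊕ Fin 1) → K => w ∘ (Sum.elim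
      (fun i : Fin 2 => if i = 0 then none else some (Sum.inr 0))
      (fun i : Fin m => some (Sum.inl i)))) ⁻¹' Y, by simp, hY.preimage_comp _, ?_⟩
  intro r' s' hr hs x
  have h1 := h r' hr ![x, s' 0]
  have h2 : (fun o : Option (Fin m ⊕ Fin 1) => o.elim x (Sum.elim r' s')) ∘
      (Sum.elim (fun i : Fin 2 => if i = 0 then none else some (Sum.inr 0))
      (fun i : Fin m => some (Sum.inl i)))
      = Sum.elim ![x, s' 0] r' := by
    funext j
    rcases j with j | j
    · fin_cases j <;> rfl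
    · rfl
  rw [Set.mem_preimage, h2, hX (s' 0) (hs 0) x]
  exact h1

end

end Pool.Agent.MP_e9d743_lc
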