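import Mathlib
import Pool.Agent.Lib.MP_e9d743_lc.B2_Val

/-!
# The elements of a finite definable set are definable

Task B5. Strong induction on the number `n` of elements of `C`. Let `a` be the barycentre of `C`
(`n a = ∑ c`; definable: `∃ s : Fin n → K` injective with values in `C`, `n a = ∑ i, s i`). For
`c₀ ∈ C` with `n > 1` the subset `{c ∈ C | RVEq O 1 (c - a) (c₀ - a)}` is definable (`a` is the unique
element of a definable set, quantify over it) and proper: otherwise all `c - a` are equal to
`u = c₀ - a` up to `< |u|`, so `|n u| < |u|` as their sum is `0`, but `|n| = 1`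
(`IsValModel.equichar`), or `u = 0` and `n = 1`.
-/

set_option autoImplicit false

open FirstOrder FirstOrder.Language

namespace Pool.Agent.MP_e9d743_lc

universe u v w

section
variable {L : FirstOrder.Language.{u, v}} {K : Type w} [Field K] [L.Structure K]
  {O : ValuationSubring K} {S : ValSymb L}

private theorem sep_sum (hK : IsValModel S K O) {F : Set K} {α ι : Type*} (s : Finset ι)
    {f : ι → (α → K) → K} (hf : ∀ i, DfnF L O F (f i)) :
    DfnF L O F (fun v => ∑ i ∈ s, f i v) := by
  classical
  induction s using Finset.induction_on with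
  | empty => simpa using DfnF.zero hK
  | insert i s hi ih =>
    have h1 := DfnF.add hK (hf i) ih
    have h2 : (fun v => ∑ j ∈ insert i s, f j v) = fun v => f i v + ∑ j ∈ s, f j v := by
      funext v
      rw [Finset.sum_insert hi]
    rw [h2]
    exact h1

/-- the barycentre of a finite definable set is definable -/
private theorem sep_bary (hK : IsValModel S K O) {F : Set K} (C : Finset K)
    (hC : D1 L O F (C : Set K)) (a : K) (ha : (C.card : K) * a = ∑ c ∈ C, c)
    (hn : (C.card : K) ≠ 0) : D1 L O F {a} := by
  classical
  refine Dfn.congr (p := fun v : Unit → K => ∃ s : Fin C.card → K,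
    ((∀ i j : Fin C.card, s i = s j → i = j) ∧ (∀ i, s i ∈ (C : Set K))) ∧
      (C.card : K) * v () = ∑ i, s i) ?_ ?_
  · refine Dfn.exF ?_
    refine Dfn.and (Dfn.and ?_ ?_) ?_
    · refine Dfn.finAll fun i => Dfn.finAll fun j => ?_
      exact (Dfn.eq (DfnF.var (Sum.inr i)) (DfnF.var (Sum.inr j))).imp (Dfn.const _)
    · exact Dfn.finAll fun i => D1.app hC (DfnF.var (Sum.inr i))
    · refine Dfn.eq (DfnF.mul hK (DfnF.natCast hK _) (DfnF.var (Sum.inl ()))) ?_
      exact sep_sum hK Finset.univ fun i => DfnF.var (Sum.inr i)
  · intro v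
    constructor
    · intro hv
      have hv' : v () = a := hv
      refine ⟨fun i => (C.equivFin.symm i : K), ⟨?_, fun i => (C.equivFin.symm i).2⟩, ?_⟩
      · intro i j hij
        exact C.equivFin.symm.injective (Subtype.ext hij)
      · rw [hv', ha]
        rw [← Finset.sum_coe_sort C (fun c => c)]
        exact (C.equivFin.symm.sum_comp (fun c : C => (c : K))).symm
    · rintro ⟨s, ⟨h1, h2⟩, h3⟩
      have h4 : ∑ i, s i = ∑ c ∈ C, c := by
        have h5 : Finset.univ.image s = C := by
          refine Finset.eq_of_subset_of_card_le ?_ ?_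
          · intro x hx
            obtain ⟨i, -, rfl⟩ := Finset.mem_image.1 hx
            exact h2 i
          · rw [Finset.card_image_of_injective _ (fun i j => h1 i j), Finset.card_univ,
              Fintype.card_fin]
        have h6 : ∑ c ∈ Finset.univ.image s, c = ∑ i, s i :=
          Finset.sum_image (fun i _ j _ hij => h1 i j hij)
        rw [← h6, h5]
      show v () = a
      refine mul_left_cancel₀ hn ?_
      rw [h3, h4, ha]

private theorem sep_main (hK : IsValModel S K O) {F : Set K} :
    ∀ n : ℕ, ∀ C : Finset K, C.card = n → D1 L O F (C : Set K) → ∀ c₀ ∈ C, c₀ ∈ cl L O F := by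
  classical
  intro n
  induction n using Nat.strong_induction_on with
  | _ n ih =>
    intro C hCn hC c₀ hc₀
    have hn0 : C.card ≠ 0 := Finset.card_ne_zero_of_mem hc₀
    have hval := hK.equichar C.card hn0
    have hn : (C.card : K) ≠ 0 := by
      intro h0
      rw [h0, map_zero] at hval
      exact zero_ne_one hval
    obtain ⟨a, ha⟩ : ∃ a : K, (C.card : K) * a = ∑ c ∈ C, c :=
      ⟨(C.card : K)⁻¹ * ∑ c ∈ C, c, by rw [← mul_assoc, mul_inv_cancel₀ hn, one_mul]⟩
    have hda := sep_bary hK C hC a ha hn
    let C' : Finset K := C.filter fun c => RVEq O 1 (c - a) (c₀ - a)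
    have hC' : D1 L O F (C' : Set K) := by
      refine Dfn.congr (p := fun v : Unit → K => v () ∈ (C : Set K) ∧
        ∃ y : K, y ∈ ({a} : Set K) ∧ RVEq O 1 (v () - y) (c₀ - a)) ?_ ?_
      · refine Dfn.and (D1.app hC (DfnF.var ())) (Dfn.ex ?_)
        exact (D1.app hda (DfnF.var none)).and
          (Dfn.rvConst (DfnF.sub hK (DfnF.var (some ())) (DfnF.var none)) _)
      · intro v
        rw [Finset.mem_coe, Finset.mem_filter]
        constructor
        · rintro ⟨h1, h2⟩
          exact ⟨h1, a, rfl, h2⟩
        · rintro ⟨h1, y, rfl, h2⟩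
          exact ⟨h1, h2⟩
    have hc₀' : c₀ ∈ C' := Finset.mem_filter.2 ⟨hc₀, rvEq_refl _⟩
    by_cases hlt : C'.card < n
    · exact ih C'.card hlt C' rfl hC' c₀ hc₀'
    · -- then `C' = C`
      have hCC : C' = C := Finset.eq_of_subset_of_card_le (Finset.filter_subset _ _) (by omega)
      have hall : ∀ c ∈ C, RVEq O 1 (c - a) (c₀ - a) := by
        intro c hc
        rw [← hCC] at hc
        exact (Finset.mem_filter.1 hc).2
      by_cases hu : c₀ - a = 0
      · have hca : ∀ c ∈ C, c = c₀ := by
          intro c hc
          rcases hall c hc with h1 | h1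
          · have := h1.1
            have h2 : c = a := sub_eq_zero.1 this
            have h3 : c₀ = a := sub_eq_zero.1 hu
            rw [h2, h3]
          · rw [hu, one_mul, map_zero] at h1
            exact absurd h1 not_lt_zero
        have hCs : C = {c₀} := by
          ext c
          rw [Finset.mem_singleton]
          exact ⟨hca c, fun h => h ▸ hc₀⟩
        rw [hCs, Finset.coe_singleton] at hC
        exact hC
      · exfalso
        have h1 : ∀ c ∈ C, O.valuation (c - a - (c₀ - a)) < O.valuation (c₀ - a) := by
          intro c hc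
          rcases hall c hc with h1 | h1
          · exact absurd h1.2 hu
          · rwa [one_mul] at h1
        have hpos : O.valuation (c₀ - a) ≠ 0 := (Valuation.ne_zero_iff _).2 hu
        have h2 : O.valuation (∑ c ∈ C, (c - a - (c₀ - a))) < O.valuation (c₀ - a) :=
          Valuation.map_sum_lt _ hpos h1
        have h3 : ∑ c ∈ C, (c - a - (c₀ - a)) = -((C.card : K) * (c₀ - a)) := by
          rw [Finset.sum_sub_distrib, Finset.sum_sub_distrib, ← ha, Finset.sum_const,
            Finset.sum_const, nsmul_eq_mul, nsmul_eq_mul]
          ring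
        rw [h3, Valuation.map_neg, map_mul, hval, one_mul] at h2
        exact lt_irrefl _ h2

end

theorem fin_subset_cl {L : FirstOrder.Language.{u, v}} {K : Type w} [Field K] [L.Structure K]
    {O : ValuationSubring K} {S : ValSymb L} (hK : IsValModel S K O) {F C : Set K}
    (hfin : C.Finite) (hC : D1 L O F C) : C ⊆ cl L O F := by
  obtain ⟨C', rfl⟩ := hfin.exists_finset_coe
  intro c hc
  exact sep_main hK C'.card C' rfl hC c hc

end Pool.Agent.MP_e9d743_lc
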