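import Mathlib
import Pool.Agent.Lib.MP_e9d743_lc.B2_Val

/-!
# Parameters

Task B6a.
* `subset_cl`: `{x}` is definable from the parameter `x ∈ F` (`DfnF.const`, `Dfn.eq`).
* `cl_mono`: `Dfn.mono`. `zero_mem_cl`: `DfnF.zero`.
* `Dfn.unfib`: from `Set.definable_iff_exists_formula_sum` (or
  `Set.definable_iff_finitely_definable` and the definition of `Set.Definable`): replace the constants
  of the formula that are in `Set.range a` by the variables in `ι` and keep the other ones.
* `DfnF.unfib`: apply `Dfn.unfib` to the graph, and let `g w` be the unique `y` with `q w y` if there is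
  a unique one, `0` otherwise.
* `Dfn.fib`: `Dfn.mono` and `Dfn.subst`. 
* `Dfn.ofCl`: only finitely many parameters `a i ∈ cl F` occur
  (`Set.definable_iff_finitely_definable` or the formula), `p v ↔ q (Sum.elim v a)` with `q` definable
  over `∅` (so over `F`), and `p v ↔ ∃ x : ι → K, (∀ i, x i ∈ {a i}) ∧ q (Sum.elim v x)`,
  `{a i}` definable over `F`. `DfnF.ofCl` is the same for the graph.
-/

set_option autoImplicit false

open FirstOrder FirstOrder.Language

namespace Pool.Agent.MP_e9d743_lc

universe u v w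

section
variable {L : FirstOrder.Language.{u, v}} {K : Type w} [Field K] [L.Structure K]
  {O : ValuationSubring K} {S : ValSymb L} {F G : Set K} {α : Type}

theorem subset_cl (hK : IsValModel S K O) : F ⊆ cl L O F := by
  intro x hx
  exact Dfn.congr (Dfn.eq (DfnF.var ()) (DfnF.const hx)) fun v => Iff.rfl

theorem cl_mono (h : F ⊆ G) : cl L O F ⊆ cl L O G := by
  intro x hx
  exact Dfn.mono hx h

theorem zero_mem_cl (hK : IsValModel S K O) : (0 : K) ∈ cl L O F := by
  exact Dfn.congr (Dfn.eq (DfnF.var ()) (DfnF.zero hK)) fun v => Iff.rfl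

/-- a set definable over `F ∪ {a i}` is the fibre of a set definable over `F` -/
theorem Dfn.unfib {ι : Type} [Finite ι] {a : ι → K} {p : (α → K) → Prop}
    (h : Dfn L O (F ∪ Set.range a) p) : ∃ q : (α ⊕ ι → K) → Prop, Dfn L O F q ∧
      ∀ v, p v ↔ q (Sum.elim v a) := by
  classical
  obtain ⟨φ, hφ⟩ := Set.definable_iff_exists_formula_sum.1 h
  have hmem : ∀ x : ↥(F ∪ Set.range a), (x : K) ∉ F → ∃ i, a i = (x : K) := by
    intro x hx
    rcases x.2 with h1 | h1
    · exact absurd h1 hx
    · exact h1
  let g : ↥(F ∪ Set.range a) ⊕ α → ↥F ⊕ (α ⊕ ι) := fun z => match z with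
    | Sum.inl x => if hx : (x : K) ∈ F then Sum.inl ⟨x, hx⟩ else
        Sum.inr (Sum.inr (hmem x hx).choose)
    | Sum.inr b => Sum.inr (Sum.inl b)
  refine ⟨fun w => (φ.relabel g).Realize (Sum.elim (fun x : ↥F => (x : K)) w), ?_, ?_⟩
  · exact Set.definable_iff_exists_formula_sum.2 ⟨φ.relabel g, rfl⟩
  · intro v
    have h1 : p v ↔ φ.Realize (Sum.elim (fun x : ↥(F ∪ Set.range a) => (x : K)) v) := by
      have h2 : v ∈ {v | p v} ↔ v ∈ {v | φ.Realize (Sum.elim
        (fun x : ↥(F ∪ Set.range a) => (x : K)) v)} := by rw [hφ]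
      exact h2
    rw [h1]
    show _ ↔ (φ.relabel g).Realize _
    rw [Formula.realize_relabel]
    have h3 : (Sum.elim (fun x : ↥F => (x : K)) (Sum.elim v a)) ∘ g =
        Sum.elim (fun x : ↥(F ∪ Set.range a) => (x : K)) v := by
      funext z
      rcases z with x | b
      · show (Sum.elim (fun x : ↥F => (x : K)) (Sum.elim v a)) (g (Sum.inl x)) = (x : K)
        by_cases hx : (x : K) ∈ F
        · have h4 : g (Sum.inl x) = Sum.inl ⟨x, hx⟩ := dif_pos hx
          rw [h4]
          rfl
        · have h4 : g (Sum.inl x) = Sum.inr (Sum.inr (hmem x hx).choose) := dif_neg hx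
          rw [h4]
          exact (hmem x hx).choose_spec
      · rfl
    rw [h3]

/-- the same for functions -/
theorem DfnF.unfib (hK : IsValModel S K O) {ι : Type} [Finite ι] {a : ι → K} {f : (α → K) → K}
    (h : DfnF L O (F ∪ Set.range a) f) : ∃ g : (α ⊕ ι → K) → K, DfnF L O F g ∧
      ∀ v, f v = g (Sum.elim v a) := by
  classical
  obtain ⟨q, hq, hqf⟩ := Dfn.unfib (DfnF.graph_iff.1 h)
  -- the relation
  let Q : (α ⊕ ι → K) → K → Prop := fun u y =>
    q (Sum.elim (fun o : Option α => o.elim y (fun b => u (Sum.inl b))) (fun i => u (Sum.inr i)))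
  have hQ : ∀ {γ : Type} (r : α ⊕ ι → γ) (s : γ),
      Dfn L O F (fun w : γ → K => Q (fun b => w (r b)) (w s)) := by
    intro γ r s
    refine (hq.ren (Sum.elim (fun o : Option α => o.elim s (fun b => r (Sum.inl b)))
      (fun i => r (Sum.inr i)))).congr fun w => ?_
    show q _ ↔ q _
    have : (Sum.elim (fun o : Option α => o.elim (w s) (fun b => w (r (Sum.inl b))))
        (fun i => w (r (Sum.inr i)))) = (fun b => w (Sum.elim
        (fun o : Option α => o.elim s (fun b => r (Sum.inl b))) (fun i => r (Sum.inr i)) b)) := by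
      funext z
      rcases z with o | i
      · cases o <;> rfl
      · rfl
    rw [this]
  let U : (α ⊕ ι → K) → K → Prop := fun u y => Q u y ∧ ∀ y', Q u y' → y' = y
  have hU : ∀ {γ : Type} (r : α ⊕ ι → γ) (s : γ),
      Dfn L O F (fun w : γ → K => U (fun b => w (r b)) (w s)) := by
    intro γ r s
    refine (hQ r s).and (Dfn.all ?_)
    exact (hQ (fun b => some (r b)) none).imp (Dfn.eq (DfnF.var none) (DfnF.var (some s)))
  let g : (α ⊕ ι → K) → K := fun u => if h : ∃ y, U u y then h.choose else 0
  refine ⟨g, ?_, ?_⟩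
  · refine DfnF.of_graph (p := fun u y => U u y ∨ ((¬ ∃ z, U u z) ∧ y = 0)) ?_ ?_
    · refine (hU some none).or (Dfn.and (Dfn.not (Dfn.ex ?_)) (Dfn.eq (DfnF.var none)
        (DfnF.zero hK)))
      exact hU (fun b => some (some b)) none
    · intro u y
      by_cases hu : ∃ y, U u y
      · have e : g u = hu.choose := dif_pos hu
        rw [e]
        have hc := hu.choose_spec
        constructor
        · rintro (h1 | h1)
          · exact h1.2 _ hc.1
          · exact absurd hu h1.1
        · rintro rfl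
          exact Or.inl hc
      · have e : g u = 0 := dif_neg hu
        rw [e]
        constructor
        · rintro (h1 | h1)
          · exact absurd ⟨y, h1⟩ hu
          · exact h1.2.symm
        · rintro rfl
          exact Or.inr ⟨hu, rfl⟩
  · intro v
    have hQv : ∀ y, Q (Sum.elim v a) y ↔ f v = y := by
      intro y
      have h1 := hqf (fun o : Option α => o.elim y (fun b => v b))
      exact h1.symm
    have hUv : ∃ y, U (Sum.elim v a) y :=
      ⟨f v, (hQv _).2 rfl, fun y' h' => ((hQv y').1 h').symm⟩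
    have e : g (Sum.elim v a) = hUv.choose := dif_pos hUv
    rw [e]
    exact (hQv _).1 hUv.choose_spec.1

/-- a fibre of a definable set is definable -/
theorem Dfn.fib {ι : Type} [Finite ι] {a : ι → K} [Finite α]
    {q : (α ⊕ ι → K) → Prop} (h : Dfn L O F q) (hF : F ⊆ G) (ha : ∀ i, a i ∈ G) :
    Dfn L O G (fun v => q (Sum.elim v a)) := by
  refine Dfn.subst (h.mono hF) (t := fun v => Sum.elim v a) ?_
  rintro (b | i)
  · exact DfnF.var b
  · exact DfnF.const (ha i)

theorem Dfn.ofCl (hK : IsValModel S K O) {p : (α → K) → Prop} (h : Dfn L O (cl L O F) p) :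
    Dfn L O F p := by
  classical
  obtain ⟨A0, hA0, hd⟩ := Set.definable_iff_finitely_definable.1 h
  obtain ⟨n, a, ha⟩ : ∃ (n : ℕ) (a : Fin n → K), Set.range a = (A0 : Set K) := by
    refine ⟨A0.card, fun i => (A0.equivFin.symm i : K), ?_⟩
    ext x
    constructor
    · rintro ⟨i, rfl⟩
      exact (A0.equivFin.symm i).2
    · intro hx
      exact ⟨A0.equivFin ⟨x, hx⟩, by simp⟩
  have hd' : Dfn L O (∅ ∪ Set.range a) p := by
    rw [Set.empty_union, ha]
    exact hd
  obtain ⟨q, hq, hpq⟩ := Dfn.unfib hd'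
  have hcl : ∀ i, D1 L O F {a i} := by
    intro i
    have : a i ∈ (A0 : Set K) := by
      rw [← ha]
      exact ⟨i, rfl⟩
    exact hA0 this
  refine (Dfn.exF (ι := Fin n) (p := fun v x => (∀ i, x i ∈ ({a i} : Set K)) ∧ q (Sum.elim v x))
    ?_).congr fun v => ?_
  · refine (Dfn.finAll fun i => D1.app (hcl i) (DfnF.var (Sum.inr i))).and ?_
    refine (hq.mono (Set.empty_subset F)).congr fun w => ?_
    have : (Sum.elim (fun b => w (Sum.inl b)) (fun i => w (Sum.inr i))) = w := by
      funext z
      rcases z with b | i <;> rfl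
    rw [this]
  · rw [hpq]
    constructor
    · intro h1
      exact ⟨a, fun i => rfl, h1⟩
    · rintro ⟨x, hx, h1⟩
      have : x = a := by
        funext i
        exact hx i
      rw [← this]
      exact h1

theorem DfnF.ofCl (hK : IsValModel S K O) {f : (α → K) → K} (h : DfnF L O (cl L O F) f) :
    DfnF L O F f := by
  exact DfnF.graph_iff.2 (Dfn.ofCl hK (DfnF.graph_iff.1 h))

end

end Pool.Agent.MP_e9d743_lc
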