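import Mathlib
import Pool.Agent.Lib.MP_e9d743_lc.B6a_Par

/-!
# The closure operator `cl`

Task B6. `cl L O F` is the set of the elements of `K` definable over `F ∪ RV`.
Everything follows from the lemmas of `B6a_Par` (black boxes for this task).
* `cld_cl`: `Dfn.ofCl`. `cl_sub_iff`: `cl F ⊆ cl G ⊆ G`.
* `cl_fin`: `Dfn.unfib` with a finite set of parameters (`Set.definable_iff_finitely_definable`).
* `exists_fun`: if `{x} = {y | q y a}` with `q` definable over `F` then let
  `h u = ` the unique `y` with `q y u` (`0` if there is no unique one).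
-/

set_option autoImplicit false

open FirstOrder FirstOrder.Language

namespace Pool.Agent.MP_e9d743_lc

universe u v w

section
variable {L : FirstOrder.Language.{u, v}} {K : Type w} [Field K] [L.Structure K]
  {O : ValuationSubring K} {S : ValSymb L} {F G : Set K} {α : Type}

/-- the closure is closed -/
theorem cld_cl (hK : IsValModel S K O) : Cld L O (cl L O F) :=
  fun _ hx => Dfn.ofCl hK hx

theorem cl_sub_iff (hK : IsValModel S K O) (hG : Cld L O G) : cl L O F ⊆ G ↔ F ⊆ G :=
  ⟨fun h => (subset_cl hK).trans h, fun h => (cl_mono h).trans hG⟩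

theorem cl_eq (hK : IsValModel S K O) (hF : Cld L O F) : cl L O F = F :=
  Set.Subset.antisymm hF (subset_cl hK)

theorem cl_union_cl (hK : IsValModel S K O) : cl L O (cl L O F ∪ G) = cl L O (F ∪ G) := by
  refine Set.Subset.antisymm ?_ (cl_mono (Set.union_subset_union_left _ (subset_cl hK)))
  rw [cl_sub_iff hK (cld_cl hK)]
  exact Set.union_subset (cl_mono Set.subset_union_left)
    (Set.subset_union_right.trans (subset_cl hK))

theorem cl_insert_cl (hK : IsValModel S K O) (x : K) :
    cl L O (insert x (cl L O F)) = cl L O (insert x F) := by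
  refine Set.Subset.antisymm ?_ (cl_mono (Set.insert_subset_insert (subset_cl hK)))
  rw [cl_sub_iff hK (cld_cl hK)]
  exact Set.insert_subset (subset_cl hK (Set.mem_insert _ _)) (cl_mono (Set.subset_insert _ _))

theorem zero_mem (hK : IsValModel S K O) (hF : Cld L O F) : (0 : K) ∈ F :=
  hF (zero_mem_cl hK)

/-- finite character -/
theorem cl_fin {x : K} (hx : x ∈ cl L O F) :
    ∃ F₀ : Set K, F₀.Finite ∧ F₀ ⊆ F ∧ x ∈ cl L O F₀ := by
  have h : F.Definable (LRV L O) {v : Unit → K | v () ∈ ({x} : Set K)} := hx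
  rw [Set.definable_iff_finitely_definable] at h
  obtain ⟨A0, h1, h2⟩ := h
  exact ⟨A0, A0.finite_toSet, h1, h2⟩

theorem exists_fun (hK : IsValModel S K O) {ι : Type} [Finite ι] {a : ι → K} {x : K}
    (hx : x ∈ cl L O (F ∪ Set.range a)) : ∃ h : (ι → K) → K, DfnF L O F h ∧ h a = x := by
  classical
  have hx' : Dfn L O (F ∪ Set.range a) (fun v : Unit → K => v () ∈ ({x} : Set K)) := hx
  obtain ⟨q, hq, hqa⟩ := hx'.unfib
  obtain ⟨r, hr⟩ : ∃ r : (ι → K) → K → Prop, ∀ u y, r u y ↔ q (Sum.elim (fun _ => y) u) :=
    ⟨fun u y => q (Sum.elim (fun _ => y) u), fun _ _ => Iff.rfl⟩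
  have hdr : ∀ {β : Type} (f : ι → β) (b : β),
      Dfn L O F (fun w : β → K => r (fun i => w (f i)) (w b)) := by
    intro β f b
    refine (hq.ren (Sum.elim (fun _ => b) f)).congr fun w => ?_
    rw [hr]
    have : (fun a : Unit ⊕ ι => w (Sum.elim (fun _ => b) f a)) =
        Sum.elim (fun _ => w b) (fun i => w (f i)) := by
      funext c
      cases c <;> rfl
    rw [this]
  refine ⟨fun u => if h : ∃ y, r u y ∧ ∀ y', r u y' → y' = y then h.choose else 0, ?_, ?_⟩
  · refine DfnF.of_graph (p := fun u y => (r u y ∧ ∀ y', r u y' → y' = y) ∨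
      ((¬ ∃ z, r u z ∧ ∀ y', r u y' → y' = z) ∧ y = 0)) ?_ ?_
    · refine Dfn.or ?_ ?_
      · refine (hdr some none).and (Dfn.all ?_)
        exact (hdr (fun i => some (some i)) none).imp
          (Dfn.eq (DfnF.var none) (DfnF.var (some none)))
      · refine (Dfn.ex ?_).not.and (Dfn.eq (DfnF.var none) (DfnF.zero hK))
        refine (hdr (fun i => some (some i)) none).and (Dfn.all ?_)
        exact (hdr (fun i => some (some (some i))) none).imp
          (Dfn.eq (DfnF.var none) (DfnF.var (some none)))
    · intro u y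
      by_cases h : ∃ y, r u y ∧ ∀ y', r u y' → y' = y
      · rw [dif_pos h]
        have hs := h.choose_spec
        constructor
        · rintro (h1 | h1)
          · exact h1.2 _ hs.1
          · exact absurd h h1.1
        · rintro rfl
          exact Or.inl hs
      · rw [dif_neg h]
        constructor
        · rintro (h1 | h1)
          · exact absurd ⟨y, h1⟩ h
          · exact h1.2.symm
        · rintro rfl
          exact Or.inr ⟨h, rfl⟩
  · have h0 : ∀ y, r a y ↔ y = x := by
      intro y
      rw [hr, ← hqa (fun _ => y)]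
      exact Iff.rfl
    have h : ∃ y, r a y ∧ ∀ y', r a y' → y' = y := ⟨x, (h0 x).2 rfl, fun y' => (h0 y').1⟩
    show (if h : ∃ y, r a y ∧ ∀ y', r a y' → y' = y then h.choose else 0) = x
    rw [dif_pos h]
    exact (h0 _).1 h.choose_spec.1

private theorem B6_union (x : K) : F ∪ Set.range (fun _ : Unit => x) = insert x F := by
  rw [Set.range_const, Set.union_singleton]

theorem exists_fun1 (hK : IsValModel S K O) {x y : K} (hy : y ∈ cl L O (insert x F)) :
    ∃ h : K → K, DF1 L O F h ∧ h x = y := by
  rw [← B6_union] at hy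
  obtain ⟨h, h1, h2⟩ := exists_fun hK hy
  refine ⟨fun z => h (fun _ => z), ?_, h2⟩
  have : (fun v : Unit → K => h (fun _ => v ())) = h := by
    funext v
    rfl
  unfold DF1
  rw [this]
  exact h1

theorem fun_mem_cl (hK : IsValModel S K O) {ι : Type} [Finite ι] {h : (ι → K) → K}
    (hh : DfnF L O F h) (a : ι → K) : h a ∈ cl L O (F ∪ Set.range a) := by
  have h1 : DfnF L O (F ∪ Set.range a) (fun _ : Unit → K => h a) :=
    DfnF.comp (hh.mono Set.subset_union_left) (t := fun _ i => a i)
      fun i => DfnF.const (Or.inr ⟨i, rfl⟩)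
  exact Dfn.eq (DfnF.var ()) h1

theorem fun1_mem_cl (hK : IsValModel S K O) {h : K → K} (hh : DF1 L O F h) (x : K) :
    h x ∈ cl L O (insert x F) := by
  have := fun_mem_cl hK (h := fun v : Unit → K => h (v ())) hh (fun _ => x)
  rwa [B6_union] at this

/-- values of definable functions at elements of a closed set -/
theorem fun1_mem (hK : IsValModel S K O) (hF : Cld L O F) {h : K → K} (hh : DF1 L O F h) {x : K}
    (hx : x ∈ F) : h x ∈ F := by
  have := fun1_mem_cl hK hh x
  rw [Set.insert_eq_of_mem hx] at this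
  exact hF this

theorem fun_mem (hK : IsValModel S K O) (hF : Cld L O F) {ι : Type} [Finite ι] {h : (ι → K) → K}
    (hh : DfnF L O F h) {a : ι → K} (ha : ∀ i, a i ∈ F) : h a ∈ F := by
  have := fun_mem_cl hK hh a
  rw [Set.union_eq_self_of_subset_right (Set.range_subset_iff.2 ha)] at this
  exact hF this

/-- closed sets are closed under sums and differences -/
theorem add_mem (hK : IsValModel S K O) (hF : Cld L O F) {x y : K} (hx : x ∈ F) (hy : y ∈ F) :
    x + y ∈ F := by
  have := fun_mem hK hF (h := fun v : Fin 2 → K => v 0 + v 1)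
    (DfnF.add hK (DfnF.var 0) (DfnF.var 1)) (a := ![x, y]) (by
      intro i
      fin_cases i
      · exact hx
      · exact hy)
  exact this

theorem sub_mem (hK : IsValModel S K O) (hF : Cld L O F) {x y : K} (hx : x ∈ F) (hy : y ∈ F) :
    x - y ∈ F := by
  have := fun_mem hK hF (h := fun v : Fin 2 → K => v 0 - v 1)
    (DfnF.sub hK (DfnF.var 0) (DfnF.var 1)) (a := ![x, y]) (by
      intro i
      fin_cases i
      · exact hx
      · exact hy)
  exact this

end

end Pool.Agent.MP_e9d743_lc
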