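import Mathlib
import Pool.Agent.Lib.MP_e9d743_lc.B4_Prep
import Pool.Agent.Lib.MP_e9d743_lc.B5_Sep
import Pool.Agent.Lib.MP_e9d743_lc.B6_Cl

/-!
# (P0)

Task B7.
* `acl_sub`: `fin_subset_cl`, `Dfn.ofL`.
* `mem_acl`: `prep0` for `X = {x}` gives a finite non-empty `C`, definable over `F` in `L`. If
  `x ∉ C` let `r` be the minimum of `|x - c|`, `c ∈ C`, and take `y ≠ x` with `|y - x| < r`
  (the valuation is non-trivial): `rv (x - c) = rv (y - c)` for all `c ∈ C`, but `y ∉ {x}`.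
* `P0`: `prep0` for `X`; `C ⊆ cl F = F`; take `c ∈ C` with `|x - c|` minimal.
* `exists_small`: non-triviality of the valuation.
-/

set_option autoImplicit false

open FirstOrder FirstOrder.Language

namespace Pool.Agent.MP_e9d743_lc

universe u v w

section
variable {L : FirstOrder.Language.{u, v}} {K : Type w} [Field K] [L.Structure K]
  {O : ValuationSubring K} {S : ValSymb L} {T : L.Theory} {F : Set K}

/-- the valuation is non-trivial: there are elements of small valuation -/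
theorem exists_small (hK : IsValModel S K O) {γ : O.ValueGroup} (hγ : 0 < γ) :
    ∃ t : K, t ≠ 0 ∧ O.valuation t < γ ∧ O.valuation t < 1 := by
  obtain ⟨a, ha⟩ : ∃ a : K, a ∉ O := by
    by_contra h
    push Not at h
    exact hK.nontriv (eq_top_iff.2 fun x _ => h x)
  have ha0 : a ≠ 0 := fun h => ha (h ▸ O.zero_mem)
  have h1 : 1 < O.valuation a := by
    by_contra h
    exact ha ((O.valuation_le_one_iff a).1 (not_lt.1 h))
  obtain ⟨g, hg⟩ := O.valuation_surjective γ
  have hg0 : g ≠ 0 := by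
    rintro rfl
    rw [map_zero] at hg
    exact hγ.ne hg
  have h2 : O.valuation a⁻¹ < 1 := by
    rw [map_inv₀]
    exact inv_lt_one_of_one_lt₀ h1
  by_cases hle : γ ≤ 1
  · refine ⟨g * a⁻¹, mul_ne_zero hg0 (inv_ne_zero ha0), ?_, ?_⟩
    · rw [map_mul, hg]
      exact mul_lt_of_lt_one_right hγ h2
    · rw [map_mul, hg]
      exact lt_of_lt_of_le (mul_lt_of_lt_one_right hγ h2) hle
  · exact ⟨a⁻¹, inv_ne_zero ha0, h2.trans (not_le.1 hle), h2⟩

theorem acl_sub (H : Hyp S T K O) {C : Set K} (hf : C.Finite) (hC : F.Definable₁ L C) :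
    C ⊆ cl L O F := by
  refine fin_subset_cl H.val hf ?_
  have h := Dfn.ofL (O := O) (p := fun v : Fin 1 → K => v 0 ∈ C) hC
  exact (h.ren (fun _ : Fin 1 => ())).congr fun v => Iff.rfl

private theorem exists_min {C : Set K} (hf : C.Finite) (hn : C.Nonempty) (x : K) :
    ∃ c ∈ C, ∀ c' ∈ C, O.valuation (x - c) ≤ O.valuation (x - c') := by
  obtain ⟨c, hc, h⟩ := Set.exists_min_image C (fun c => O.valuation (x - c)) hf hn
  exact ⟨c, hc, h⟩

private theorem prep_ball {C X : Set K} (hf : C.Finite) (hn : C.Nonempty)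
    (hP : Prepares O 1 C X) {x : K} (hx : x ∈ X) :
    ∃ c ∈ C, ∀ y, O.valuation (y - x) < O.valuation (x - c) → y ∈ X := by
  obtain ⟨c, hc, hmin⟩ := exists_min (O := O) hf hn x
  refine ⟨c, hc, fun y hy => (hP x y fun c' hc' => ?_).1 hx⟩
  right
  have h1 : O.valuation (y - x) < O.valuation (x - c') := hy.trans_le (hmin c' hc')
  have h2 : O.valuation (y - c') = O.valuation (x - c') := by
    have : y - c' = (x - c') + (y - x) := by ring
    rw [this]
    exact Valuation.map_add_eq_of_lt_left _ h1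
  have h3 : x - c' - (y - c') = -(y - x) := by ring
  rw [h3, Valuation.map_neg, one_mul, h2]
  exact h1

theorem mem_acl (H : Hyp S T K O) {x : K} (hx : x ∈ cl L O F) :
    ∃ C : Set K, C.Finite ∧ F.Definable₁ L C ∧ x ∈ C := by
  obtain ⟨C, h1, h2, h3, h4⟩ := prep0 H (X := {x}) hx
  refine ⟨C, h1, h3, ?_⟩
  by_contra hxC
  obtain ⟨c, hc, h⟩ := prep_ball h1 h2 h4 (Set.mem_singleton x)
  have hne : x - c ≠ 0 := by
    intro h0
    exact hxC ((sub_eq_zero.1 h0) ▸ hc)
  obtain ⟨t, ht0, ht1, -⟩ := exists_small H.val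
    (zero_lt_iff.2 ((Valuation.ne_zero_iff O.valuation).2 hne))
  have h5 := h (x + t) (by rw [add_sub_cancel_left]; exact ht1)
  exact ht0 (add_eq_left.1 h5)

theorem P0 (H : Hyp S T K O) (hF : Cld L O F) {X : Set K} (hX : D1 L O F X) {x : K} (hx : x ∈ X)
    (hxF : x ∉ F) : ∃ c ∈ F, ∀ y, O.valuation (y - x) < O.valuation (x - c) → y ∈ X := by
  obtain ⟨C, h1, h2, h3, h4⟩ := prep0 H hX
  have hCF : C ⊆ F := (acl_sub H h1 h3).trans hF
  obtain ⟨c, hc, h⟩ := prep_ball h1 h2 h4 hx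
  exact ⟨c, hCF hc, h⟩

end

end Pool.Agent.MP_e9d743_lc
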