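import Mathlib
import Pool.Agent.Lib.MP_e9d743_lc.B7_P0

/-!
# (P1)

Task B8. Let `X = {w | ∃ z, RVEq O l (z - c) (x - c) ∧ f z = w}`; it is the fibre at `s = x - c` of
`p w s ↔ ∃ z, RVEq O l (z - c) s ∧ f z = w` (use `Dfn.rvEqC`), and only depends on the class of `s`
(`RVEq O l` is transitive and symmetric as `|l| ≤ 1`). `prep1` gives a finite non-empty `C ⊆ F`
(`acl_sub`) that `λ`-prepares `X`; take `d ∈ C` with `|f x - d|` minimal. `f x ∈ X`, and if
`|w - f x| < |l| |f x - d|` then `RVEq O l (f x - c') (w - c')` for all `c' ∈ C`, so `w ∈ X`: there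
is `z` with `f z = w` and `|z - x| < |l| |x - c|` (`x ≠ c` since `x ∉ F`).
-/

set_option autoImplicit false

open FirstOrder FirstOrder.Language

namespace Pool.Agent.MP_e9d743_lc

universe u v w

section
variable {L : FirstOrder.Language.{u, v}} {K : Type w} [Field K] [L.Structure K]
  {O : ValuationSubring K} {S : ValSymb L} {T : L.Theory} {F : Set K}

private theorem val_eq_of_lt {a b l : K} (hl1 : O.valuation l ≤ 1)
    (h : O.valuation (a - b) < O.valuation (l * b)) : O.valuation a = O.valuation b := by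
  have h1 : O.valuation (a - b) < O.valuation b := by
    refine lt_of_lt_of_le h ?_
    rw [map_mul]
    exact mul_le_of_le_one_left' hl1
  have h2 := Valuation.map_add_eq_of_lt_left O.valuation h1
  rwa [add_sub_cancel] at h2

private theorem rvEq_symm {a b l : K} (hl1 : O.valuation l ≤ 1) (h : RVEq O l a b) :
    RVEq O l b a := by
  rcases h with ⟨ha, hb⟩ | h
  · exact Or.inl ⟨hb, ha⟩
  · refine Or.inr ?_
    rw [Valuation.map_sub_swap, map_mul, val_eq_of_lt hl1 h, ← map_mul]
    exact h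

private theorem rvEq_trans {a b c l : K} (hl1 : O.valuation l ≤ 1) (h : RVEq O l a b)
    (h' : RVEq O l b c) : RVEq O l a c := by
  rcases h with ⟨ha, hb⟩ | h
  · rw [ha, ← hb]
    exact h'
  · rcases h' with ⟨hb, hc⟩ | h'
    · rw [hc, ← hb]
      exact Or.inr h
    · refine Or.inr ?_
      have h1 : O.valuation (a - b) < O.valuation (l * c) := by
        rw [map_mul, ← val_eq_of_lt hl1 h', ← map_mul]
        exact h
      have h2 : a - c = (a - b) + (b - c) := by ring
      rw [h2]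
      exact Valuation.map_add_lt O.valuation h1 h'

theorem P1 (H : Hyp S T K O) (hF : Cld L O F) {f : K → K} (hf : DF1 L O F f) {x : K} (hx : x ∉ F)
    (hfx : f x ∉ F) {c : K} (hc : c ∈ F) {l : K} (hl : l ≠ 0) (hl1 : O.valuation l ≤ 1) :
    ∃ d ∈ F, ∀ w, O.valuation (w - f x) < O.valuation (l * (f x - d)) →
      ∃ z, O.valuation (z - x) < O.valuation (l * (x - c)) ∧ f z = w := by
  have hxc : x - c ≠ 0 := fun h => hx (by rw [sub_eq_zero.1 h]; exact hc)
  have hp : Dfn L O F (fun v : Fin 2 → K => ∃ z, RVEq O l (z - c) (v 1) ∧ f z = v 0) := by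
    refine Dfn.ex (p := fun (v : Fin 2 → K) z => RVEq O l (z - c) (v 1) ∧ f z = v 0) ?_
    exact Dfn.and (Dfn.rvEqC H.val l (DfnF.sub H.val (DfnF.var none) (DfnF.const hc))
      (DfnF.var (some 1))) (Dfn.eq (DF1.app hf (DfnF.var none)) (DfnF.var (some 0)))
  obtain ⟨C, hCf, hCn, hCd, hCp⟩ := prep1 (X := {w | ∃ z, RVEq O l (z - c) (x - c) ∧ f z = w})
    (p := fun w s => ∃ z, RVEq O l (z - c) s ∧ f z = w) (s := x - c) H hp hl hl1 (by
      intro s' hs' w
      constructor
      · rintro ⟨z, hz, hw⟩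
        exact ⟨z, rvEq_trans hl1 hz (rvEq_symm hl1 hs'), hw⟩
      · rintro ⟨z, hz, hw⟩
        exact ⟨z, rvEq_trans hl1 hz hs', hw⟩)
  have hCF : C ⊆ F := (acl_sub H hCf hCd).trans hF
  obtain ⟨d, hdC, hd⟩ := Set.exists_min_image C (fun d => O.valuation (f x - d)) hCf hCn
  refine ⟨d, hCF hdC, fun w hw => ?_⟩
  have hX : f x ∈ {w | ∃ z, RVEq O l (z - c) (x - c) ∧ f z = w} := by
    refine ⟨x, Or.inr ?_, rfl⟩
    rw [sub_self, map_zero]
    exact zero_lt_iff.2 ((Valuation.ne_zero_iff _).2 (mul_ne_zero hl hxc))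
  have h1 : ∀ c' ∈ C, RVEq O l (f x - c') (w - c') := by
    intro c' hc'
    refine rvEq_symm hl1 (Or.inr ?_)
    have h2 : w - c' - (f x - c') = w - f x := by ring
    rw [h2]
    refine lt_of_lt_of_le hw ?_
    rw [map_mul, map_mul]
    exact mul_le_mul_right (hd c' hc') _
  obtain ⟨z, hz, hzw⟩ := (hCp (f x) w h1).1 hX
  refine ⟨z, ?_, hzw⟩
  rcases hz with ⟨-, h0⟩ | hz
  · exact absurd h0 hxc
  · have h2 : z - c - (x - c) = z - x := by ring
    rwa [h2] at hz

end

end Pool.Agent.MP_e9d743_lc
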