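import Mathlib
import Pool.Agent.Lib.MP_e9d743_lc.B8_P1

/-!
# Exchange, local inverse

Task B9.
* `exch`: suppose `x ∉ F' = cl (insert (f x) F)`. `{z | f z = f x}` is definable over `F'` and
  contains `x`, so by `P0` there is `c ∈ F'` with `f y = f x` whenever `|y - x| < |x - c|`. Take
  `l ≠ 0`, `|l| ≤ 1`, `|l x| ≤ |x - c|` (`x ≠ 0` as `0 ∈ F`). `P1` over `F` with centre `0` gives
  `d ∈ F` such that every `w` with `|w - f x| < |l (f x - d)|` is equal to `f x`; contradiction with
  `exists_small`.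
* `exch'`: `exists_fun1`; if `x ∈ F` then `y ∈ F`.
* `inv`: `exch` and `exists_fun1` give `g` with `g (f x) = x`; then `P0` for `{z | g (f z) = z}` and
  `{w | f (g w) = w}`.
-/

set_option autoImplicit false

open FirstOrder FirstOrder.Language

namespace Pool.Agent.MP_e9d743_lc

universe u v w

section
variable {L : FirstOrder.Language.{u, v}} {K : Type w} [Field K] [L.Structure K]
  {O : ValuationSubring K} {S : ValSymb L} {T : L.Theory} {F : Set K}

theorem exch (H : Hyp S T K O) (hF : Cld L O F) {f : K → K} (hf : DF1 L O F f) {x : K}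
    (hx : x ∉ F) (hfx : f x ∉ F) : x ∈ cl L O (insert (f x) F) := by
  by_contra hcon
  have hF' : Cld L O (cl L O (insert (f x) F)) := cld_cl H.val
  have hsub : F ⊆ cl L O (insert (f x) F) :=
    (Set.subset_insert _ _).trans (subset_cl H.val)
  have hmem : f x ∈ cl L O (insert (f x) F) := subset_cl H.val (Set.mem_insert _ _)
  have hX : D1 L O (cl L O (insert (f x) F)) {z | f z = f x} := by
    refine Dfn.congr (p := fun v : Unit → K => f (v ()) = f x) ?_ fun v => Iff.rfl
    exact Dfn.eq (DfnF.mono hf hsub) (DfnF.const hmem)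
  obtain ⟨c, hcF, hc⟩ := P0 H hF' hX (x := x) rfl hcon
  have h0 : (0 : K) ∈ F := zero_mem H.val hF
  have hx0 : x ≠ 0 := by
    rintro rfl
    exact hx h0
  have hxc : x - c ≠ 0 := by
    intro h
    apply hcon
    have h' : x = c := sub_eq_zero.1 h
    exact h' ▸ hcF
  have hvx : O.valuation x ≠ 0 := (Valuation.ne_zero_iff _).2 hx0
  have hvc : O.valuation (x - c) ≠ 0 := (Valuation.ne_zero_iff _).2 hxc
  obtain ⟨l, hl, hl1, hl2⟩ := exists_small H.val
    (γ := O.valuation ((x - c) / x)) (zero_lt_iff.2 ((Valuation.ne_zero_iff _).2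
      (div_ne_zero hxc hx0)))
  obtain ⟨d, hd, hP⟩ := P1 H hF hf hx hfx h0 hl hl2.le
  have hfd : f x - d ≠ 0 := by
    intro h
    apply hfx
    rw [sub_eq_zero.1 h]
    exact hd
  obtain ⟨t, ht, ht1, -⟩ := exists_small H.val
    (γ := O.valuation (l * (f x - d))) (zero_lt_iff.2 ((Valuation.ne_zero_iff _).2
      (mul_ne_zero hl hfd)))
  obtain ⟨z, hz, hfz⟩ := hP (f x + t) (by rwa [add_sub_cancel_left])
  have hlx : O.valuation (l * (x - 0)) < O.valuation (x - c) := by
    rw [sub_zero, map_mul]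
    have h1 : O.valuation l * O.valuation x < O.valuation ((x - c) / x) * O.valuation x :=
      mul_lt_mul_of_pos_right hl1 (zero_lt_iff.2 hvx)
    rwa [← map_mul, ← map_mul, div_mul_cancel₀ _ hx0, map_mul] at h1
  have h2 : f z = f x := hc z (hz.trans hlx)
  apply ht
  have h3 : f x + t = f x := by rw [← hfz, h2]
  simpa using h3

theorem exch' (H : Hyp S T K O) (hF : Cld L O F) {x y : K} (hy : y ∈ cl L O (insert x F))
    (hyF : y ∉ F) : x ∈ cl L O (insert y F) := by
  obtain ⟨h, hh, rfl⟩ := exists_fun1 H.val hy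
  have hx : x ∉ F := fun hx => hyF (fun1_mem H.val hF hh hx)
  exact exch H hF hh hx hyF

theorem inv (H : Hyp S T K O) (hF : Cld L O F) {f : K → K} (hf : DF1 L O F f) {x : K}
    (hx : x ∉ F) (hfx : f x ∉ F) :
    ∃ g : K → K, DF1 L O F g ∧ g (f x) = x ∧
      (∃ c ∈ F, ∀ z, O.valuation (z - x) < O.valuation (x - c) → g (f z) = z) ∧
      (∃ d ∈ F, ∀ w, O.valuation (w - f x) < O.valuation (f x - d) → f (g w) = w) := by
  obtain ⟨g, hg, hgx⟩ := exists_fun1 H.val (exch H hF hf hx hfx)
  refine ⟨g, hg, hgx, ?_, ?_⟩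
  · have hX : D1 L O F {z | g (f z) = z} := by
      refine Dfn.congr (p := fun v : Unit → K => g (f (v ())) = v ()) ?_ fun v => Iff.rfl
      exact Dfn.eq (DF1.app hg hf) (DfnF.var ())
    exact P0 H hF hX (x := x) hgx hx
  · have hX : D1 L O F {w | f (g w) = w} := by
      refine Dfn.congr (p := fun v : Unit → K => f (g (v ())) = v ()) ?_ fun v => Iff.rfl
      exact Dfn.eq (DF1.app hf hg) (DfnF.var ())
    refine P0 H hF hX (x := f x) ?_ hfx
    change f (g (f x)) = f x
    rw [hgx]

end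

end Pool.Agent.MP_e9d743_lc
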