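import Mathlib
import Pool.Agent.Lib.MP_e9d743_lc.B9_E

/-!
# (Att): scaling when the distance to `F` is attained

Task B10. Let `g₀ = |x - c|`, `B = B(x, < g₀)`, `w = f x`, `g` from `inv`.
(i) every `X` definable over `F` with `x ∈ X` contains `B` (`P0`, `hmin`). So `g (f z) = z` on `B`.
(ii) `P1` (`l = 1`): there is `d ∈ F` with `V := B(w, < |w - d|) ⊆ f(B)`. And `f(B) ⊆ V` by (i)
for `{z | RVEq O 1 (f z - d) (w - d)}` (`Dfn.rvConst`). So `f : B → V` is bijective with inverse
`g`, `g(V) ⊆ B`, `f (g v) = v` on `V`.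
(iii) `d` is closest to `w`: if `d' ∈ F`, `|w - d'| < |w - d|`, then `d' = f z`, `z ∈ B`,
`z = g d' ∈ F` (`fun1_mem`), `|x - z| < g₀`, contradiction.
(iv) for `z ∈ B`: `z ∉ F`, `|z - c| = g₀`, every `c' ∈ F` has `|z - c'| ≥ g₀`; `f z ∉ F`,
`|f z - d| = |w - d|`, every `d' ∈ F` has `|f z - d'| ≥ |w - d|`. With `μ = |w - d| / g₀`, `P1` at `z`
and centre `c` gives for `0 < |l| ≤ 1`: `B(f z, < |l| μ g₀) ⊆ f(B(z, < |l| g₀))`; `P1` for `g` at
`f z` and centre `d` gives `B(z, < |l| g₀) ⊆ g(B(f z, < |l| μ g₀))`.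
(v) `z ≠ z'` in `B`: with `|l| = |z - z'| / g₀ < 1`, if `|f z - f z'| < |l| μ g₀` then `f z' = f z''`
with `|z'' - z| < |l| g₀`, `z'' = z'` by injectivity, contradiction. If `|f z - f z'| > μ |z - z'|`
take `|l| = |f z - f z'| / (μ g₀)`, `< 1` as both are in `V`: `|z' - z| < |l| g₀` so `z' = g v'` with
`|v' - f z| < |l| μ g₀ = |f z - f z'|`, `v' ∈ V`, `v' = f z'`, contradiction.
The second half of `SC` is `V ⊆ f(B)`.
-/

set_option autoImplicit false

open FirstOrder FirstOrder.Language

namespace Pool.Agent.MP_e9d743_lc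

universe u v w

section
variable {L : FirstOrder.Language.{u, v}} {K : Type w} [Field K] [L.Structure K]
  {O : ValuationSubring K} {S : ValSymb L} {T : L.Theory} {F : Set K}

omit [L.Structure K] in
private theorem vt {a b c : K} {γ : O.ValueGroup} (h1 : O.valuation (a - b) < γ)
    (h2 : O.valuation (b - c) < γ) : O.valuation (a - c) < γ := by
  have : a - c = (a - b) + (b - c) := by ring
  rw [this]
  exact Valuation.map_add_lt _ h1 h2

omit [L.Structure K] in
private theorem ve {a b c : K} (h : O.valuation (a - b) < O.valuation (b - c)) :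
    O.valuation (a - c) = O.valuation (b - c) := by
  have : a - c = (a - b) + (b - c) := by ring
  rw [this]
  exact Valuation.map_add_eq_of_lt_right _ h

theorem att (H : Hyp S T K O) (hF : Cld L O F) {f : K → K} (hf : DF1 L O F f) {x : K}
    (hx : x ∉ F) (hfx : f x ∉ F) {c : K} (hc : c ∈ F)
    (hmin : ∀ c' ∈ F, O.valuation (x - c) ≤ O.valuation (x - c')) :
    ∃ d ∈ F, (∀ d' ∈ F, O.valuation (f x - d) ≤ O.valuation (f x - d')) ∧
      SC O f x (O.valuation (f x - d) / O.valuation (x - c)) (O.valuation (x - c)) := by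
  have hK := H.val
  have hxc : x - c ≠ 0 := by
    intro h
    exact hx ((sub_eq_zero.1 h) ▸ hc)
  have hg0 : 0 < O.valuation (x - c) := zero_lt_iff.2 ((Valuation.ne_zero_iff _).2 hxc)
  -- points of the ball
  have hzF : ∀ z, O.valuation (z - x) < O.valuation (x - c) → z ∉ F := by
    intro z hz hzF
    have h1 := hmin z hzF
    rw [Valuation.map_sub_swap] at hz
    exact absurd hz (not_lt.2 h1)
  have hzc : ∀ z, O.valuation (z - x) < O.valuation (x - c) →
      ∀ c' ∈ F, O.valuation (x - c) ≤ O.valuation (z - c') := by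
    intro z hz c' hc'
    by_contra h
    rw [not_le] at h
    rw [Valuation.map_sub_swap] at hz
    exact absurd (vt hz h) (not_lt.2 (hmin c' hc'))
  obtain ⟨g, hg, hgx, ⟨c1, hc1, hgf⟩, -⟩ := inv H hF hf hx hfx
  have hgf' : ∀ z, O.valuation (z - x) < O.valuation (x - c) → g (f z) = z :=
    fun z hz => hgf z (lt_of_lt_of_le hz (hmin c1 hc1))
  obtain ⟨d, hd, hPd⟩ := P1 H hF hf hx hfx hc (l := 1) one_ne_zero (by rw [map_one])
  rw [one_mul, one_mul] at hPd
  have hfxd : f x - d ≠ 0 := by
    intro h
    exact hfx ((sub_eq_zero.1 h) ▸ hd)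
  have hw0 : 0 < O.valuation (f x - d) := zero_lt_iff.2 ((Valuation.ne_zero_iff _).2 hfxd)
  -- `f` maps the ball to the ball
  have hfB : ∀ z, O.valuation (z - x) < O.valuation (x - c) →
      O.valuation (f z - f x) < O.valuation (f x - d) := by
    have hX : D1 L O F {z | RVEq O 1 (f z - d) (f x - d)} :=
      Dfn.rvConst (DfnF.sub hK (DF1.app hf (DfnF.var ())) (DfnF.const hd)) _
    obtain ⟨c2, hc2, h2⟩ := P0 H hF hX (x := x) (rvEq_refl _) hx
    intro z hz
    have h3 := h2 z (lt_of_lt_of_le hz (hmin c2 hc2))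
    rcases h3 with h4 | h4
    · exact absurd h4.2 hfxd
    · rw [one_mul] at h4
      have e : f z - d - (f x - d) = f z - f x := by ring
      rwa [e] at h4
  have hfzF : ∀ z, O.valuation (z - x) < O.valuation (x - c) → f z ∉ F := by
    intro z hz h
    have h1 := fun1_mem hK hF hg h
    rw [hgf' z hz] at h1
    exact hzF z hz h1
  have hclose : ∀ d' ∈ F, O.valuation (f x - d) ≤ O.valuation (f x - d') := by
    intro d' hd'
    by_contra h
    rw [not_le, Valuation.map_sub_swap] at h
    obtain ⟨z, hz1, hz2⟩ := hPd d' h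
    have h1 := fun1_mem hK hF hg hd'
    rw [← hz2, hgf' z hz1] at h1
    exact hzF z hz1 h1
  have hclose' : ∀ z, O.valuation (z - x) < O.valuation (x - c) → ∀ d' ∈ F,
      O.valuation (f x - d) ≤ O.valuation (f z - d') := by
    intro z hz d' hd'
    by_contra h
    rw [not_le] at h
    have h1 := hfB z hz
    rw [Valuation.map_sub_swap] at h1
    exact absurd (vt h1 h) (not_lt.2 (hclose d' hd'))
  have hzceq : ∀ z, O.valuation (z - x) < O.valuation (x - c) →
      O.valuation (z - c) = O.valuation (x - c) := fun z hz => ve hz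
  have hfzdeq : ∀ z, O.valuation (z - x) < O.valuation (x - c) →
      O.valuation (f z - d) = O.valuation (f x - d) := fun z hz => ve (hfB z hz)
  -- the two inclusions
  have hA : ∀ z, O.valuation (z - x) < O.valuation (x - c) → ∀ l : K, l ≠ 0 → O.valuation l ≤ 1 →
      ∀ w, O.valuation (w - f z) < O.valuation l * O.valuation (f x - d) →
      ∃ z', O.valuation (z' - z) < O.valuation l * O.valuation (x - c) ∧ f z' = w := by
    intro z hz l hl hl1 w hw
    obtain ⟨d', hd', h1⟩ := P1 H hF hf (hzF z hz) (hfzF z hz) hc hl hl1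
    have h2 : O.valuation (w - f z) < O.valuation (l * (f z - d')) := by
      rw [map_mul]
      exact lt_of_lt_of_le hw (mul_le_mul_right (hclose' z hz d' hd') _)
    obtain ⟨z', h3, h4⟩ := h1 w h2
    rw [map_mul, hzceq z hz] at h3
    exact ⟨z', h3, h4⟩
  have hBl : ∀ z, O.valuation (z - x) < O.valuation (x - c) → ∀ l : K, l ≠ 0 → O.valuation l ≤ 1 →
      ∀ u, O.valuation (u - z) < O.valuation l * O.valuation (x - c) →
      ∃ v, O.valuation (v - f z) < O.valuation l * O.valuation (f x - d) ∧ g v = u := by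
    intro z hz l hl hl1 u hu
    have e := hgf' z hz
    have hgz : g (f z) ∉ F := by
      rw [e]
      exact hzF z hz
    obtain ⟨c', hc', h1⟩ := P1 H hF hg (hfzF z hz) hgz hd hl hl1
    rw [e] at h1
    have h2 : O.valuation (u - z) < O.valuation (l * (z - c')) := by
      rw [map_mul]
      exact lt_of_lt_of_le hu (mul_le_mul_right (hzc z hz c' hc') _)
    obtain ⟨v, h3, h4⟩ := h1 u h2
    rw [map_mul, hfzdeq z hz] at h3
    exact ⟨v, h3, h4⟩
  have hfg : ∀ v, O.valuation (v - f x) < O.valuation (f x - d) → f (g v) = v := by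
    intro v hv
    obtain ⟨z, hz1, hz2⟩ := hPd v hv
    rw [← hz2, hgf' z hz1]
  refine ⟨d, hd, hclose, ?_, ?_⟩
  · intro z z' hz hz'
    by_cases hzz : z = z'
    · subst hzz
      simp
    have hzz0 : z - z' ≠ 0 := sub_ne_zero.2 hzz
    have hdz : O.valuation (z - z') < O.valuation (x - c) := by
      rw [Valuation.map_sub_swap] at hz'
      exact vt hz hz'
    have hdw : O.valuation (f z - f z') < O.valuation (f x - d) := by
      have h1 := hfB z hz
      have h2 := hfB z' hz'
      rw [Valuation.map_sub_swap] at h2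
      exact vt h1 h2
    refine le_antisymm ?_ ?_
    · -- upper bound
      by_contra h
      rw [not_le] at h
      have hff : f z - f z' ≠ 0 := by
        intro h0
        rw [h0, map_zero] at h
        exact absurd h (not_lt.2 zero_le')
      have hl1 : O.valuation ((f z - f z') / (f x - d)) ≤ 1 := by
        rw [map_div₀]
        exact (div_le_one₀ hw0).2 hdw.le
      have hl2 : O.valuation ((f z - f z') / (f x - d)) * O.valuation (f x - d) =
          O.valuation (f z - f z') := by
        rw [← map_mul, div_mul_cancel₀ _ hfxd]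
      have h3 : O.valuation (z' - z) <
          O.valuation ((f z - f z') / (f x - d)) * O.valuation (x - c) := by
        rw [Valuation.map_sub_swap, map_div₀, div_mul_eq_mul_div, lt_div_iff₀ hw0]
        rw [div_mul_eq_mul_div, div_lt_iff₀ hg0] at h
        rwa [mul_comm]
      obtain ⟨v, h4, h5⟩ := hBl z hz _ (div_ne_zero hff hfxd) hl1 z' h3
      rw [hl2] at h4
      have h6 : O.valuation (v - f x) < O.valuation (f x - d) :=
        vt (h4.trans hdw) (hfB z hz)
      have h7 := hfg v h6
      rw [h5] at h7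
      rw [← h7, Valuation.map_sub_swap] at h4
      exact absurd h4 (lt_irrefl _)
    · -- lower bound
      by_contra h
      rw [not_le] at h
      have hl1 : O.valuation ((z - z') / (x - c)) ≤ 1 := by
        rw [map_div₀]
        exact (div_le_one₀ hg0).2 hdz.le
      have hl2 : O.valuation ((z - z') / (x - c)) * O.valuation (x - c) =
          O.valuation (z - z') := by
        rw [← map_mul, div_mul_cancel₀ _ hxc]
      have h3 : O.valuation (f z' - f z) <
          O.valuation ((z - z') / (x - c)) * O.valuation (f x - d) := by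
        rw [Valuation.map_sub_swap, map_div₀, div_mul_eq_mul_div, lt_div_iff₀ hg0]
        rw [div_mul_eq_mul_div, lt_div_iff₀ hg0] at h
        rwa [mul_comm (O.valuation (z - z'))]
      obtain ⟨z'', h4, h5⟩ := hA z hz _ (div_ne_zero hzz0 hxc) hl1 (f z') h3
      rw [hl2] at h4
      have h6 : O.valuation (z'' - x) < O.valuation (x - c) := vt (h4.trans hdz) hz
      have h7 := hgf' z'' h6
      rw [h5, hgf' z' hz'] at h7
      rw [← h7, Valuation.map_sub_swap] at h4
      exact absurd h4 (lt_irrefl _)
  · intro w hw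
    rw [div_mul_cancel₀ _ hg0.ne'] at hw
    exact hPd w hw

end

end Pool.Agent.MP_e9d743_lc
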