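import Mathlib
import Pool.Agent.Lib.MP_e9d743_lc.B10_Att

/-!
# (Ext)

Task B11. Let `g₁ = |x - c₁|` and suppose `d ∈ cl (insert c₁ F)` with `|x - d| < g₁`; `d = h c₁`,
`h` definable over `F` (`exists_fun1`). Let `Fₓ = cl (insert x F)` (closed, `0, x ∈ Fₓ`).
`c₁ ≠ x` by `h3` for `e = 0`; `c₁ ∉ F`, `d ∉ F` since `|x - d| < |x - c₁| < δ < |x - c|` for `c ∈ F`.
(a) `c₁ ∉ Fₓ` (by `h3` for `e = c₁ - x`, `rvEq_refl`), and `d ∉ Fₓ`: else
`c₁ ∈ cl (insert d F) ⊆ Fₓ` by `exch'`.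
(b) `x` is closest to `c₁` in `Fₓ`: if `e ∈ Fₓ`, `|c₁ - e| < |c₁ - x|` then
`RVEq O 1 (c₁ - x) (e - x)`, `e - x ∈ Fₓ`, contradiction with `h3`.
(c) `att` for `h` over `Fₓ` at `c₁` with centre `x`: there is `d₀ ∈ Fₓ` closest to `d` and
`SC O h c₁ μ g₁`, `μ = |d - d₀| / g₁ ≤ |d - x| / g₁ < 1`.
(d) `t z = h z - z` (definable over `F`): `|t z - t z'| = |z - z'|` for `z, z' ∈ B(c₁, < g₁)`.
`w₁ = t c₁ = d - c₁`, `|w₁| = g₁`. `w₁ ∉ F`: else `P0` for `{z | t z = w₁}` at `c₁ ∉ F`: `t` is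
constant on a ball, contradiction (`exists_small`).
(e) `inv` for `t` at `c₁` over `F`: `s` with `s w₁ = c₁` and `e₀ ∈ F` with `t (s v) = v` for
`|v - w₁| < |w₁ - e₀|`. `P1` for `s` at `w₁` (`s w₁ = c₁ ∉ F`), centre `0`, `l ≠ 0` with `|l| < 1` and
`|l| g₁ ≤ |w₁ - e₀|`: there is `d'' ∈ F` with `B(c₁, < |l| |c₁ - d''|) ⊆ s(B(w₁, < |l| g₁))`, and
`|c₁ - d''| = |x - d''| > δ > g₁`. Take `z = c₁ + l w₁`: `|z - c₁| = |l| g₁ < |l| |c₁ - d''|`, so
`z = s v` with `|v - w₁| < |l| g₁`, `t z = v`; but `|t z - t c₁| = |z - c₁| = |l| g₁`. Contradiction.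
-/

set_option autoImplicit false

open FirstOrder FirstOrder.Language

namespace Pool.Agent.MP_e9d743_lc

universe u v w

section
variable {L : FirstOrder.Language.{u, v}} {K : Type w} [Field K] [L.Structure K]
  {O : ValuationSubring K} {S : ValSymb L} {T : L.Theory} {F : Set K}

theorem ext (H : Hyp S T K O) (hF : Cld L O F) {x c₁ : K} {δ : O.ValueGroup}
    (h1 : O.valuation (x - c₁) < δ) (h2 : ∀ c ∈ F, δ < O.valuation (x - c))
    (h3 : ∀ e ∈ cl L O (insert x F), ¬ RVEq O 1 (c₁ - x) e) :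
    ∀ d ∈ cl L O (insert c₁ F), O.valuation (x - c₁) ≤ O.valuation (x - d) := by
  intro d hd
  by_contra hlt
  rw [not_le] at hlt
  have hK := H.val
  have hFx : Cld L O (cl L O (insert x F)) := cld_cl hK
  have hsub : F ⊆ cl L O (insert x F) :=
    (Set.subset_insert x F).trans (subset_cl hK)
  have hxx : x ∈ cl L O (insert x F) := subset_cl hK (Set.mem_insert x F)
  have hcx : c₁ ≠ x := by
    intro h
    exact h3 0 (zero_mem hK hFx) (Or.inl ⟨sub_eq_zero.2 h, rfl⟩)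
  have hg0 : 0 < O.valuation (x - c₁) :=
    zero_lt_iff.2 ((Valuation.ne_zero_iff _).2 (sub_ne_zero.2 hcx.symm))
  have hcs : O.valuation (c₁ - x) = O.valuation (x - c₁) := Valuation.map_sub_swap _ _ _
  have hds : O.valuation (d - x) = O.valuation (x - d) := Valuation.map_sub_swap _ _ _
  have hcF : c₁ ∉ F := fun h => absurd (h2 c₁ h) (not_lt.2 h1.le)
  have hdF : d ∉ F := fun h => absurd ((h2 d h).trans hlt) (not_lt.2 h1.le)
  obtain ⟨h, hh, hhd⟩ := exists_fun1 hK hd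
  -- (a)
  have a1 : c₁ ∉ cl L O (insert x F) := by
    intro hc
    exact h3 _ (sub_mem hK hFx hc hxx) (rvEq_refl _)
  have a2 : d ∉ cl L O (insert x F) := by
    intro hdx
    apply a1
    refine (cl_sub_iff hK hFx).2 ?_ (exch' H hF hd hdF)
    exact Set.insert_subset hdx hsub
  -- (b)
  have b1 : ∀ e ∈ cl L O (insert x F), O.valuation (c₁ - x) ≤ O.valuation (c₁ - e) := by
    intro e he
    by_contra hlt'
    rw [not_le] at hlt'
    refine h3 (e - x) (sub_mem hK hFx he hxx) (Or.inr ?_)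
    rw [one_mul, show c₁ - x - (e - x) = c₁ - e by ring,
      show e - x = (c₁ - x) - (c₁ - e) by ring, Valuation.map_sub_eq_of_lt_left _ hlt']
    exact hlt'
  -- (c)
  obtain ⟨d₀, hd₀, hd₁, hsc, -⟩ := att H hFx (hh.mono hsub) a1 (by rw [hhd]; exact a2) hxx b1
  have c1 : O.valuation (h c₁ - d₀) < O.valuation (c₁ - x) := by
    refine (hd₁ x hxx).trans_lt ?_
    rw [hhd, hds, hcs]
    exact hlt
  have c2 : O.valuation (h c₁ - d₀) / O.valuation (c₁ - x) < 1 := by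
    rw [div_lt_one₀ (by rw [hcs]; exact hg0)]
    exact c1
  -- (d)
  have ht : DF1 L O F (fun z => h z - z) := DfnF.sub hK hh (DfnF.var ())
  have d1 : ∀ z z' : K, O.valuation (z - c₁) < O.valuation (c₁ - x) →
      O.valuation (z' - c₁) < O.valuation (c₁ - x) →
      O.valuation ((h z - z) - (h z' - z')) = O.valuation (z - z') := by
    intro z z' hz hz'
    by_cases hzz : z = z'
    · rw [hzz, sub_self, sub_self]
    · have e1 := hsc z z' hz hz'
      have e2 : 0 < O.valuation (z - z') :=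
        zero_lt_iff.2 ((Valuation.ne_zero_iff _).2 (sub_ne_zero.2 hzz))
      have e3 : O.valuation (h z - h z') < O.valuation (z - z') := by
        rw [e1]
        exact mul_lt_of_lt_one_left e2 c2
      rw [show (h z - z) - (h z' - z') = (h z - h z') - (z - z') by ring]
      exact Valuation.map_sub_eq_of_lt_right _ e3
  have d2 : O.valuation (h c₁ - c₁) = O.valuation (c₁ - x) := by
    rw [hhd, show d - c₁ = (d - x) - (c₁ - x) by ring]
    exact Valuation.map_sub_eq_of_lt_right _ (by rw [hds, hcs]; exact hlt)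
  have hcc : O.valuation (c₁ - c₁) < O.valuation (c₁ - x) := by
    rw [sub_self, map_zero, hcs]
    exact hg0
  have d3 : h c₁ - c₁ ∉ F := by
    intro hw
    have hX : D1 L O F {z | h z - z = h c₁ - c₁} :=
      Dfn.eq (DfnF.sub hK hh (DfnF.var ())) (DfnF.const hw)
    obtain ⟨c, hc, hc2⟩ := P0 H hF hX (x := c₁) rfl hcF
    have hc3 : 0 < O.valuation (c₁ - c) :=
      zero_lt_iff.2 ((Valuation.ne_zero_iff _).2 (sub_ne_zero.2 fun e => hcF (e ▸ hc)))
    obtain ⟨u, hu0, hu1, -⟩ := exists_small hK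
      (lt_min hc3 (hcs ▸ hg0 : 0 < O.valuation (c₁ - x)))
    have hu2 := hc2 (c₁ + u) (by rw [add_sub_cancel_left]; exact hu1.trans_le (min_le_left _ _))
    have hu3 := d1 (c₁ + u) c₁
      (by rw [add_sub_cancel_left]; exact hu1.trans_le (min_le_right _ _)) hcc
    have hu4 : h (c₁ + u) - (c₁ + u) = h c₁ - c₁ := hu2
    rw [hu4, sub_self, add_sub_cancel_left, map_zero] at hu3
    exact (Valuation.ne_zero_iff _).2 hu0 hu3.symm
  -- (e)
  obtain ⟨s, hs, hs1, -, e₀, he₀, hs2⟩ := inv H hF ht hcF d3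
  have e1 : 0 < O.valuation (h c₁ - c₁ - e₀) :=
    zero_lt_iff.2 ((Valuation.ne_zero_iff _).2 (sub_ne_zero.2 fun e => d3 (e ▸ he₀)))
  obtain ⟨l, hl0, hl1, hl2⟩ := exists_small hK
    (div_pos e1 (hcs ▸ hg0 : 0 < O.valuation (c₁ - x)))
  rw [lt_div_iff₀ (hcs ▸ hg0 : 0 < O.valuation (c₁ - x))] at hl1
  have hlp : 0 < O.valuation l := zero_lt_iff.2 ((Valuation.ne_zero_iff _).2 hl0)
  obtain ⟨d', hd', hP⟩ := P1 H hF hs d3 (by rw [hs1]; exact hcF) (zero_mem hK hF) hl0 hl2.le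
  rw [hs1] at hP
  have e2 : O.valuation (c₁ - x) < O.valuation (c₁ - d') := by
    have e3 := h2 d' hd'
    rw [show c₁ - d' = (x - d') - (x - c₁) by ring,
      Valuation.map_sub_eq_of_lt_left _ (h1.trans e3), hcs]
    exact h1.trans e3
  have e3 : O.valuation (c₁ + l * (h c₁ - c₁) - c₁) = O.valuation l * O.valuation (c₁ - x) := by
    rw [add_sub_cancel_left, map_mul, d2]
  obtain ⟨v, hv1, hv2⟩ := hP (c₁ + l * (h c₁ - c₁)) (by
    rw [e3, map_mul]
    exact mul_lt_mul_of_pos_left e2 hlp)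
  rw [sub_zero, map_mul, d2] at hv1
  have e4 := hs2 v (hv1.trans hl1)
  rw [hv2] at e4
  have e5 := d1 (c₁ + l * (h c₁ - c₁)) c₁ (by
    rw [e3]
    exact mul_lt_of_lt_one_left (hcs ▸ hg0) hl2) hcc
  rw [e3] at e5
  rw [e4] at e5
  exact absurd e5 hv1.ne

end

end Pool.Agent.MP_e9d743_lc
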