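import Mathlib
import Pool.Agent.Lib.MP_e9d743_lc.B4_Prep

/-!
# The ultrapower over the finite subsets of `K`

`KS K` is the ultrapower of `K` over the index set `Finset K`, for an ultrafilter `ufil K` finer than
`atTop`; `mkS x` is the class of the family `x`, `inS a` the class of the constant family `a`,
`OS O` the valuation ring. `starP p` is the extension of the predicate `p` and `starF f` the
extension of the function `f`.
-/

set_option autoImplicit false

open FirstOrder FirstOrder.Language

namespace Pool.Agent.MP_e9d743_lc

universe u v w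

section
variable (K : Type w)

/-- an ultrafilter on `Finset K` finer than `atTop` -/
noncomputable def ufil : Ultrafilter (Finset K) := by
  classical
  exact Ultrafilter.of Filter.atTop

/-- the ultrapower of `K` -/
def KS : Type w := (ufil K : Filter (Finset K)).Product (fun _ => K)

end

section
variable {K : Type w}

/-- the class of the family `x` -/
noncomputable def mkS (x : Finset K → K) : KS K :=
  @Quotient.mk' _ (Filter.productSetoid (ufil K : Filter (Finset K)) (fun _ => K)) x

/-- the diagonal embedding -/
noncomputable def inS (a : K) : KS K := mkS fun _ => a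

theorem mkS_surj (z : KS K) : ∃ x, mkS x = z := Quotient.exists_rep z

theorem mkS_eq {x y : Finset K → K} : mkS x = mkS y ↔ ∀ᶠ j in (ufil K : Filter (Finset K)), x j = y j :=
  Quotient.eq''

theorem ufil_le : (ufil K : Filter (Finset K)) ≤ Filter.atTop := by
  classical
  unfold ufil
  convert Ultrafilter.of_le (Filter.atTop : Filter (Finset K))

theorem inS_inj {a b : K} (h : inS a = inS b) : a = b := by
  have h1 := mkS_eq.1 h
  obtain ⟨j, hj⟩ := h1.exists
  exact hj

/-- a property of all `j ∋ a` holds eventually -/
theorem ev_of_mem {p : Finset K → Prop} (a : K) (h : ∀ j, a ∈ j → p j) :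
    ∀ᶠ j in (ufil K : Filter (Finset K)), p j := by
  refine ufil_le ?_
  refine Filter.mem_atTop_sets.2 ⟨{a}, fun j hj => h j ?_⟩
  exact hj (Finset.mem_singleton_self a)

noncomputable instance [Field K] : Field (KS K) :=
  inferInstanceAs (Field (Filter.Germ (ufil K : Filter (Finset K)) K))

noncomputable instance {L : FirstOrder.Language.{u, v}} [L.Structure K] : L.Structure (KS K) :=
  inferInstanceAs (L.Structure ((ufil K : Filter (Finset K)).Product (fun _ => K)))

theorem mkS_add [Field K] (x y : Finset K → K) : mkS x + mkS y = mkS fun j => x j + y j := rfl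

theorem mkS_mul [Field K] (x y : Finset K → K) : mkS x * mkS y = mkS fun j => x j * y j := rfl

theorem mkS_sub [Field K] (x y : Finset K → K) : mkS x - mkS y = mkS fun j => x j - y j := rfl

theorem mkS_neg [Field K] (x : Finset K → K) : - mkS x = mkS fun j => - x j := rfl

theorem mkS_inv [Field K] (x : Finset K → K) : (mkS x)⁻¹ = mkS fun j => (x j)⁻¹ := rfl

theorem inS_zero [Field K] : inS (0 : K) = 0 := rfl

theorem inS_one [Field K] : inS (1 : K) = 1 := rfl

/-- a representative of an element of the ultrapower -/
noncomputable def repS (z : KS K) : Finset K → K := (mkS_surj z).choose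

theorem mkS_repS (z : KS K) : mkS (repS z) = z := (mkS_surj z).choose_spec

/-- the extension of a predicate -/
def starP {α : Type*} (p : (α → K) → Prop) (v : α → KS K) : Prop :=
  ∀ᶠ j in (ufil K : Filter (Finset K)), p fun a => repS (v a) j

/-- the extension of a function -/
noncomputable def starF {α : Type*} (f : (α → K) → K) (v : α → KS K) : KS K :=
  mkS fun j => f fun a => repS (v a) j

/-- the extension of a function of one variable -/
noncomputable def starF1 (f : K → K) (z : KS K) : KS K := mkS fun j => f (repS z j)

theorem starP_mk {α : Type*} [Finite α] (p : (α → K) → Prop) (x : α → Finset K → K) :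
    starP p (fun a => mkS (x a)) ↔ ∀ᶠ j in (ufil K : Filter (Finset K)), p fun a => x a j := by
  have h : ∀ᶠ j in (ufil K : Filter (Finset K)), ∀ a, repS (mkS (x a)) j = x a j :=
    Filter.eventually_all.2 fun a => mkS_eq.1 (mkS_repS (mkS (x a)))
  unfold starP
  refine Filter.eventually_congr (h.mono fun j hj => ?_)
  have : (fun a => repS (mkS (x a)) j) = fun a => x a j := funext hj
  rw [this]

theorem starF_mk {α : Type*} [Finite α] (f : (α → K) → K) (x : α → Finset K → K) :
    starF f (fun a => mkS (x a)) = mkS fun j => f fun a => x a j := by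
  have h : ∀ᶠ j in (ufil K : Filter (Finset K)), ∀ a, repS (mkS (x a)) j = x a j :=
    Filter.eventually_all.2 fun a => mkS_eq.1 (mkS_repS (mkS (x a)))
  unfold starF
  refine mkS_eq.2 (h.mono fun j hj => ?_)
  have : (fun a => repS (mkS (x a)) j) = fun a => x a j := funext hj
  rw [this]

theorem starF1_mk (f : K → K) (x : Finset K → K) : starF1 f (mkS x) = mkS fun j => f (x j) := by
  unfold starF1
  refine mkS_eq.2 ((mkS_eq.1 (mkS_repS (mkS x))).mono fun j hj => ?_)
  rw [hj]

theorem starF1_in (f : K → K) (a : K) : starF1 f (inS a) = inS (f a) := starF1_mk f _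

section
variable [Field K] (O : ValuationSubring K)

/-- the valuation ring of the ultrapower -/
def OS : ValuationSubring (KS K) where
  carrier := {z | ∀ᶠ j in (ufil K : Filter (Finset K)), repS z j ∈ O}
  mul_mem' := by
    intro a b ha hb
    have h := mkS_eq.1 ((mkS_repS (a * b)).trans (by
      conv_lhs => rw [← mkS_repS a, ← mkS_repS b]
      exact mkS_mul _ _))
    filter_upwards [ha, hb, h] with j h1 h2 h3
    rw [h3]
    exact mul_mem h1 h2
  one_mem' := by
    have h := mkS_eq.1 ((mkS_repS (1 : KS K)).trans inS_one.symm)
    filter_upwards [h] with j h1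
    rw [h1]
    exact one_mem _
  add_mem' := by
    intro a b ha hb
    have h := mkS_eq.1 ((mkS_repS (a + b)).trans (by
      conv_lhs => rw [← mkS_repS a, ← mkS_repS b]
      exact mkS_add _ _))
    filter_upwards [ha, hb, h] with j h1 h2 h3
    rw [h3]
    exact add_mem h1 h2
  zero_mem' := by
    have h := mkS_eq.1 ((mkS_repS (0 : KS K)).trans inS_zero.symm)
    filter_upwards [h] with j h1
    rw [h1]
    exact zero_mem _
  neg_mem' := by
    intro a ha
    have h := mkS_eq.1 ((mkS_repS (- a)).trans (by
      conv_lhs => rw [← mkS_repS a]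
      exact mkS_neg _))
    filter_upwards [ha, h] with j h1 h3
    rw [h3]
    exact neg_mem h1
  mem_or_inv_mem' := by
    intro a
    have h := mkS_eq.1 ((mkS_repS a⁻¹).trans (by
      conv_lhs => rw [← mkS_repS a]
      exact mkS_inv _))
    rcases (ufil K).em fun j => repS a j ∈ O with h1 | h1
    · exact Or.inl h1
    · right
      change ∀ᶠ j in (ufil K : Filter (Finset K)), repS a⁻¹ j ∈ O
      filter_upwards [h1, h] with j h2 h3
      rw [h3]
      exact (O.mem_or_inv_mem (repS a j)).resolve_left h2

theorem mem_OS {x : Finset K → K} :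
    mkS x ∈ OS O ↔ ∀ᶠ j in (ufil K : Filter (Finset K)), x j ∈ O := by
  change (∀ᶠ j in (ufil K : Filter (Finset K)), repS (mkS x) j ∈ O) ↔ _
  refine Filter.eventually_congr ((mkS_eq.1 (mkS_repS (mkS x))).mono fun j hj => ?_)
  rw [hj]

end

end

end Pool.Agent.MP_e9d743_lc
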