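import Mathlib
import Pool.Agent.Lib.MP_e9d743_lc.U1_Def

/-!
# The ultrapower is a valued field

Task U2. `val_le`: from `ValuationSubring.valuation_le_iff` (`v x ≤ v y` iff there is `a` in the ring
with `a * y = x`), `mem_OS` and choice of `a j` for each `j`. `isVal`: `funMap` on the ultraproduct is
`FirstOrder.Language.Ultraproduct.funMap_cast` (definitionally the class of the pointwise values, up
to `Fin 2`-tuples), `RelMap` on classes is the eventual `RelMap` (`relMap_quotient_mk'`); `OS O ≠ ⊤` as
`inS a ∉ OS O` for `a ∉ O`; `equichar` from `val_le`.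
-/

set_option autoImplicit false

open FirstOrder FirstOrder.Language

namespace Pool.Agent.MP_e9d743_lc

universe u v w

private theorem u2_fun {L : FirstOrder.Language.{u, v}} {K : Type w} [L.Structure K] {n : ℕ}
    (f : L.Functions n) (x : Fin n → Finset K → K) :
    Structure.funMap f (fun i => mkS (x i)) = mkS (fun j => Structure.funMap f fun i => x i j) :=
  Ultraproduct.funMap_cast (M := fun _ : Finset K => K) (u := ufil K) f x

private theorem u2_rel {L : FirstOrder.Language.{u, v}} {K : Type w} [L.Structure K] {n : ℕ}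
    (R : L.Relations n) (x : Fin n → Finset K → K) :
    Structure.RelMap R (fun i => mkS (x i)) ↔
      ∀ᶠ j in (ufil K : Filter (Finset K)), Structure.RelMap R fun i => x i j := by
  have h := @FirstOrder.Language.relMap_quotient_mk' L
    (Finset K → K) ((ufil K : Filter (Finset K)).productSetoid (fun _ => K))
    (Ultraproduct.setoidPrestructure (fun _ : Finset K => K) (ufil K)) n R x
  exact h

section
variable {L : FirstOrder.Language.{u, v}} {K : Type w} [Field K] [L.Structure K]
  {O : ValuationSubring K} {S : ValSymb L} {T : L.Theory} {F : Set K}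

private theorem u2_zero {x : Finset K → K} :
    mkS x = 0 ↔ ∀ᶠ j in (ufil K : Filter (Finset K)), x j = 0 := by
  rw [← inS_zero]
  exact mkS_eq

private theorem u2_nat (n : ℕ) : ((n : ℕ) : KS K) = mkS fun _ => (n : K) := by
  induction n with
  | zero =>
    rw [Nat.cast_zero, ← inS_zero]
    unfold inS
    simp
  | succ n ih =>
    rw [Nat.cast_succ, ih, ← inS_one]
    refine (mkS_add _ _).trans ?_
    congr 1
    funext j
    rw [Nat.cast_succ]

theorem val_le {x y : Finset K → K} : (OS O).valuation (mkS x) ≤ (OS O).valuation (mkS y) ↔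
    ∀ᶠ j in (ufil K : Filter (Finset K)), O.valuation (x j) ≤ O.valuation (y j) := by
  rw [ValuationSubring.valuation_le_iff]
  constructor
  · rintro ⟨⟨a, ha⟩, h⟩
    obtain ⟨z, rfl⟩ := mkS_surj a
    have h1 := (mem_OS O).1 ha
    have h2 : mkS (fun j => z j * y j) = mkS x := (mkS_mul z y).symm.trans h
    filter_upwards [h1, mkS_eq.1 h2] with j h3 h4
    rw [ValuationSubring.valuation_le_iff]
    exact ⟨⟨z j, h3⟩, h4⟩
  · intro h
    classical
    let z : Finset K → K := fun j => if h : O.valuation (x j) ≤ O.valuation (y j) then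
      (((ValuationSubring.valuation_le_iff O _ _).1 h).choose : K) else 0
    have hz : ∀ j, O.valuation (x j) ≤ O.valuation (y j) → z j ∈ O ∧ z j * y j = x j := by
      intro j hj
      have e : z j = (((ValuationSubring.valuation_le_iff O _ _).1 hj).choose : K) := dif_pos hj
      rw [e]
      exact ⟨SetLike.coe_mem _, ((ValuationSubring.valuation_le_iff O _ _).1 hj).choose_spec⟩
    refine ⟨⟨mkS z, (mem_OS O).2 (h.mono fun j hj => (hz j hj).1)⟩, ?_⟩
    refine (mkS_mul z y).trans (mkS_eq.2 (h.mono fun j hj => (hz j hj).2))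

theorem val_lt {x y : Finset K → K} : (OS O).valuation (mkS x) < (OS O).valuation (mkS y) ↔
    ∀ᶠ j in (ufil K : Filter (Finset K)), O.valuation (x j) < O.valuation (y j) := by
  rw [← not_le, val_le, ← Ultrafilter.eventually_not]
  exact Filter.eventually_congr (Filter.Eventually.of_forall fun j => not_le)

theorem rvEq_mk {l x y : Finset K → K} : RVEq (OS O) (mkS l) (mkS x) (mkS y) ↔
    ∀ᶠ j in (ufil K : Filter (Finset K)), RVEq O (l j) (x j) (y j) := by
  unfold RVEq
  rw [Ultrafilter.eventually_or, Filter.eventually_and, mkS_sub, mkS_mul, val_lt, u2_zero, u2_zero]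

theorem isVal (hK : IsValModel S K O) : IsValModel S (KS K) (OS O) := by
  constructor
  · intro x y
    obtain ⟨x', rfl⟩ := mkS_surj x
    obtain ⟨y', rfl⟩ := mkS_surj y
    have h := u2_fun (K := K) S.add ![x', y']
    have e1 : (fun i => mkS (![x', y'] i)) = ![mkS x', mkS y'] := by
      funext i
      fin_cases i <;> rfl
    rw [e1] at h
    rw [h, mkS_add]
    congr 1
    funext j
    rw [← hK.add]
    congr 1
    funext i
    fin_cases i <;> rfl
  · intro x y
    obtain ⟨x', rfl⟩ := mkS_surj x
    obtain ⟨y', rfl⟩ := mkS_surj y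
    have h := u2_fun (K := K) S.mul ![x', y']
    have e1 : (fun i => mkS (![x', y'] i)) = ![mkS x', mkS y'] := by
      funext i
      fin_cases i <;> rfl
    rw [e1] at h
    rw [h, mkS_mul]
    congr 1
    funext j
    rw [← hK.mul]
    congr 1
    funext i
    fin_cases i <;> rfl
  · intro x
    obtain ⟨x', rfl⟩ := mkS_surj x
    have h := u2_rel (K := K) S.ring ![x']
    have e1 : (fun i => mkS (![x'] i)) = ![mkS x'] := by
      funext i
      fin_cases i
      rfl
    rw [e1] at h
    rw [h, mem_OS]
    refine Filter.eventually_congr (Filter.Eventually.of_forall fun j => ?_)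
    rw [← hK.ring]
    have e2 : (fun i => ![x'] i j) = ![x' j] := by
      funext i
      fin_cases i
      rfl
    rw [e2]
  · intro htop
    apply hK.nontriv
    ext a
    refine ⟨fun _ => trivial, fun _ => ?_⟩
    have h1 : inS a ∈ OS O := by
      rw [htop]
      trivial
    obtain ⟨j, hj⟩ := ((mem_OS O).1 h1).exists
    exact hj
  · intro n hn
    rw [u2_nat]
    have h1 := hK.equichar n hn
    have h2 : (OS O).valuation (mkS fun _ => (n : K)) = (OS O).valuation (mkS fun _ => (1 : K)) := by
      refine le_antisymm (val_le.2 ?_) (val_le.2 ?_)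
      · exact Filter.Eventually.of_forall fun _ => by rw [h1, map_one]
      · exact Filter.Eventually.of_forall fun _ => by rw [h1, map_one]
    rw [h2]
    have h3 : (mkS fun _ => (1 : K)) = (1 : KS K) := inS_one
    rw [h3, map_one]

end

end Pool.Agent.MP_e9d743_lc
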