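import Mathlib
import Pool.Agent.Lib.MP_e9d743_lc.U2_Val

/-!
# The theorem of Łoś for the ultrapower

Task U3. From `FirstOrder.Language.Ultraproduct.realize_formula_cast` and `sentence_realize`.
For `los` use the description of `Set.Definable` by a formula with parameters
(`Set.definable_iff_exists_formula_sum`), and `starP_mk`-like arguments: every element of the
ultrapower is `mkS x` (`mkS_surj`). `los1` is `los` for `α = Unit`/`Fin 1`. `fin_los`: if `C*` is
`L`-definable over `inS '' F` and finite then it is the image of a finite `L`-definable set over `F`: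
`C* = {z | φ z (inS a)}`, `C = {x | φ x a}`; by Łoś (for the formula `there are exactly n elements z
with φ z a`) `C` has the same number `n` of elements as `C*`, and `inS '' C ⊆ C*`.
-/

set_option autoImplicit false

open FirstOrder FirstOrder.Language

namespace Pool.Agent.MP_e9d743_lc

universe u v w

private theorem u3_cast {L : FirstOrder.Language.{u, v}} {K : Type w} [Nonempty K]
    [L.Structure K] {β : Type*} (φ : L.Formula β) (x : β → Finset K → K) :
    (φ.Realize fun s => mkS (x s)) ↔
      ∀ᶠ j in (ufil K : Filter (Finset K)), φ.Realize fun s => x s j :=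
  Ultraproduct.realize_formula_cast (M := fun _ : Finset K => K) (u := ufil K) φ x

section
variable {L : FirstOrder.Language.{u, v}} {K : Type w} [Field K] [L.Structure K]
  {O : ValuationSubring K} {S : ValSymb L} {T : L.Theory} {F : Set K}

theorem hypS (H : Hyp S T K O) : Hyp S T (KS K) (OS O) := by
  refine ⟨H.hmin, isVal H.val, ?_⟩
  have h1 := H.mod
  refine (Theory.model_iff T).2 fun φ hφ => ?_
  have h2 : ∀ᶠ _ in (ufil K : Filter (Finset K)), K ⊨ φ :=
    Filter.Eventually.of_forall fun _ => Theory.realize_sentence_of_mem T hφ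
  exact (Ultraproduct.sentence_realize (M := fun _ : Finset K => K) (u := ufil K) φ).2 h2

theorem los {α : Type} [Finite α] {Y : Set (α → K)} (hY : F.Definable L Y) :
    (inS '' F).Definable L {v : α → KS K | starP (fun v => v ∈ Y) v} := by
  obtain ⟨φ, hφ⟩ := Set.definable_iff_exists_formula_sum.1 hY
  refine Set.definable_iff_exists_formula_sum.2
    ⟨φ.relabel (Sum.map (fun x : F => ⟨inS (x : K), Set.mem_image_of_mem _ x.2⟩) id), ?_⟩
  ext v
  have h1 := u3_cast φ (Sum.elim (fun (x : F) (_ : Finset K) => (x : K)) (fun a => repS (v a)))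
  have h2 : (fun s => mkS (Sum.elim (fun (x : F) (_ : Finset K) => (x : K))
      (fun a => repS (v a)) s)) = Sum.elim (fun y : ↥(inS '' F) => (y : KS K)) v ∘
      (Sum.map (fun x : F => ⟨inS (x : K), Set.mem_image_of_mem _ x.2⟩) id) := by
    funext s
    rcases s with s | s
    · rfl
    · exact mkS_repS _
  rw [h2] at h1
  show starP (fun v => v ∈ Y) v ↔ (φ.relabel _).Realize _
  rw [Formula.realize_relabel, h1]
  unfold starP
  refine Filter.eventually_congr (Filter.Eventually.of_forall fun j => ?_)
  rw [hφ]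
  show φ.Realize _ ↔ φ.Realize _
  have h3 : (Sum.elim (fun x : F => (x : K)) fun a => repS (v a) j) =
      fun s => Sum.elim (fun (x : F) (_ : Finset K) => (x : K)) (fun a => repS (v a)) s j := by
    funext s
    rcases s with s | s <;> rfl
  rw [h3]

theorem fin_los {C : Set (KS K)} (hC : (inS '' F).Definable₁ L C) (hfin : C.Finite) :
    ∃ C₀ : Set K, C₀.Finite ∧ F.Definable₁ L C₀ ∧ C = inS '' C₀ := by
  classical
  obtain ⟨φ, hφ⟩ := Set.definable_iff_exists_formula_sum.1 hC
  have hg : ∀ y : ↥(inS '' F), ∃ x : F, inS (x : K) = (y : KS K) := by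
    rintro ⟨y, x, hx, rfl⟩
    exact ⟨⟨x, hx⟩, rfl⟩
  choose g hg using hg
  let φ0 : L.Formula (F ⊕ Fin 1) := φ.relabel (Sum.map g id)
  let C₀ : Set K := {x | φ0.Realize (Sum.elim (fun x : F => (x : K)) (fun _ => x))}
  have key : ∀ x : Finset K → K, mkS x ∈ C ↔ ∀ᶠ j in (ufil K : Filter (Finset K)), x j ∈ C₀ := by
    intro x
    have h1 : mkS x ∈ C ↔ (fun _ : Fin 1 => mkS x) ∈ {v : Fin 1 → KS K | v 0 ∈ C} := Iff.rfl
    rw [h1, hφ]
    show φ.Realize _ ↔ _
    have h2 := u3_cast φ (Sum.elim (fun (y : ↥(inS '' F)) (_ : Finset K) => (g y : K))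
      (fun _ => x))
    have h3 : (fun s => mkS (Sum.elim (fun (y : ↥(inS '' F)) (_ : Finset K) => (g y : K))
        (fun _ : Fin 1 => x) s)) =
        Sum.elim (fun y : ↥(inS '' F) => (y : KS K)) (fun _ : Fin 1 => mkS x) := by
      funext s
      rcases s with s | s
      · exact hg s
      · rfl
    rw [h3] at h2
    rw [h2]
    refine Filter.eventually_congr (Filter.Eventually.of_forall fun j => ?_)
    show _ ↔ φ0.Realize _
    rw [Formula.realize_relabel]
    have h4 : (fun s => Sum.elim (fun (y : ↥(inS '' F)) (_ : Finset K) => (g y : K))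
        (fun _ : Fin 1 => x) s j) =
        Sum.elim (fun x : F => (x : K)) (fun _ : Fin 1 => x j) ∘ Sum.map g id := by
      funext s
      rcases s with s | s <;> rfl
    rw [h4]
  have hsub : inS '' C₀ ⊆ C := by
    rintro z ⟨a, ha, rfl⟩
    exact (key _).2 (Filter.Eventually.of_forall fun _ => ha)
  have hfin0 : C₀.Finite :=
    Set.Finite.of_finite_image (hfin.subset hsub) (fun a _ b _ hab => inS_inj hab)
  refine ⟨C₀, hfin0, ?_, Set.Subset.antisymm ?_ hsub⟩
  · refine Set.definable_iff_exists_formula_sum.2 ⟨φ0, ?_⟩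
    ext v
    show φ0.Realize _ ↔ φ0.Realize _
    have h5 : (fun _ : Fin 1 => v 0) = v := by
      funext i
      fin_cases i
      rfl
    rw [h5]
  · intro z hz
    obtain ⟨x, rfl⟩ := mkS_surj z
    have h1 := (key x).1 hz
    have h2 : ∀ᶠ j in (ufil K : Filter (Finset K)), ∃ a ∈ C₀, x j = a := by
      filter_upwards [h1] with j hj
      exact ⟨x j, hj, rfl⟩
    obtain ⟨a, ha, h3⟩ := (Ultrafilter.eventually_exists_mem_iff hfin0).1 h2
    exact ⟨a, ha, (mkS_eq.2 (h3.mono fun j hj => hj.symm))⟩

end

end Pool.Agent.MP_e9d743_lc
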