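import Mathlib
import Pool.Agent.Lib.MP_e9d743_lc.U3_Los

/-!
# Definable sets of `K` extend to definable sets of the ultrapower

Task U4. `dfn_star`: let `L₁ = (LRV L O)[[F]]`; `KS K` is an `L₁`-structure as an ultraproduct. By Łoś
(`Ultraproduct.realize_formula_cast` for `L₁`) `starP p` is the set defined in it by the formula of
`p`. In this structure the symbol `RVSym.mk r` is interpreted by `{z | RVEq (OS O) 1 z (inS r)}`
(`rvEq_mk`) and the constants of `F` by `inS c`. So the formula can be read in
`(LRV L (OS O))[[inS '' F]]` through the language map `RVSym.mk r ↦ RVSym.mk (inS r)`, `c ↦ inS c`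
(`FirstOrder.Language.LHom.onFormula`, an expansion). Alternatively: by `Set.Definable` induction on
the formula prove directly the statement for all formulas of `(LRV L O)[[F]]`, using the closure
properties of `Dfn` (`B1_Form`) and `val_lt`, `rvEq_mk`, or use `dfn_bridge` and `los`: `p v` iff
`∃ r', (∀ i, RVEq O 1 (r' i) (r i)) ∧ Sum.elim v r' ∈ Y` (this is the shortest way).
`df1_star`: the graph of `starF1 f` is the extension of the graph of `f`.
-/

set_option autoImplicit false

open FirstOrder FirstOrder.Language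

namespace Pool.Agent.MP_e9d743_lc

universe u v w

section
variable {L : FirstOrder.Language.{u, v}} {K : Type w} [Field K] [L.Structure K]
  {O : ValuationSubring K} {S : ValSymb L} {T : L.Theory} {F : Set K}

private theorem starP_elim {α : Type} [Finite α] {m : ℕ} (q : (α ⊕ Fin m → K) → Prop)
    (v : α → KS K) (x : Fin m → Finset K → K) :
    starP q (Sum.elim v fun i => mkS (x i)) ↔ ∀ᶠ j in (ufil K : Filter (Finset K)),
      q (Sum.elim (fun a => repS (v a) j) fun i => x i j) := by
  have h1 : (Sum.elim v fun i => mkS (x i)) = fun a => mkS (Sum.elim (fun a => repS (v a)) x a) := by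
    funext a
    rcases a with a | a
    · exact (mkS_repS (v a)).symm
    · rfl
  rw [h1, starP_mk]
  refine Filter.eventually_congr (Filter.Eventually.of_forall fun j => ?_)
  have h2 : (fun a => Sum.elim (fun a => repS (v a)) x a j) =
      Sum.elim (fun a => repS (v a) j) fun i => x i j := by
    funext a
    rcases a with a | a <;> rfl
  rw [h2]

private theorem star_iff {α : Type} [Finite α] {p : (α → K) → Prop} {m : ℕ} {r : Fin m → K}
    {Y : Set (α ⊕ Fin m → K)}
    (h : ∀ r' : Fin m → K, (∀ i, RVEq O 1 (r' i) (r i)) → ∀ v, p v ↔ Sum.elim v r' ∈ Y)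
    (v : α → KS K) : starP p v ↔ ∃ r' : Fin m → KS K,
      (∀ i, RVEq (OS O) 1 (r' i) (inS (r i))) ∧
      starP (fun v : α ⊕ Fin m → K => v ∈ Y) (Sum.elim v r') := by
  constructor
  · intro hv
    refine ⟨fun i => inS (r i), fun i => rvEq_refl _, ?_⟩
    refine (starP_elim (fun v : α ⊕ Fin m → K => v ∈ Y) v fun i _ => r i).2 ?_
    exact Filter.Eventually.mono hv fun j hj => (h r (fun i => rvEq_refl _) _).1 hj
  · rintro ⟨r', h1, h2⟩
    obtain ⟨x, hx⟩ : ∃ x : Fin m → Finset K → K, r' = fun i => mkS (x i) :=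
      ⟨fun i => repS (r' i), funext fun i => (mkS_repS (r' i)).symm⟩
    subst hx
    have h3 := (starP_elim (fun v : α ⊕ Fin m → K => v ∈ Y) v x).1 h2
    have h4 : ∀ᶠ j in (ufil K : Filter (Finset K)), ∀ i, RVEq O 1 (x i j) (r i) :=
      Filter.eventually_all.2 fun i => (rvEq_mk (l := fun _ => 1) (y := fun _ => r i)).1 (h1 i)
    exact (h3.and h4).mono fun j hj => (h (fun i => x i j) hj.2 _).2 hj.1

theorem dfn_star (hK : IsValModel S K O) {α : Type} [Finite α] {p : (α → K) → Prop}
    (hp : Dfn L O F p) : Dfn L (OS O) (inS '' F) (starP p) := by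
  obtain ⟨m, r, Y, hY, h⟩ := dfn_bridge hK hp
  refine Dfn.congr (p := fun v : α → KS K => ∃ r' : Fin m → KS K,
    (∀ i, RVEq (OS O) 1 (r' i) (inS (r i))) ∧
      starP (fun v : α ⊕ Fin m → K => v ∈ Y) (Sum.elim v r')) ?_ fun v => ?_
  · refine Dfn.exF (p := fun (v : α → KS K) (r' : Fin m → KS K) =>
      (∀ i, RVEq (OS O) 1 (r' i) (inS (r i))) ∧
      starP (fun v : α ⊕ Fin m → K => v ∈ Y) (Sum.elim v r')) ?_
    refine Dfn.and ?_ ?_
    · exact Dfn.finAll fun i => Dfn.rvConst (DfnF.var (Sum.inr i)) (inS (r i))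
    · refine Dfn.congr (Dfn.ofL (los hY)) fun w => ?_
      have hw : Sum.elim (fun a => w (Sum.inl a)) (fun i => w (Sum.inr i)) = w := by
        funext a
        rcases a with a | a <;> rfl
      rw [hw]
  · exact star_iff h v

theorem df1_star (hK : IsValModel S K O) {f : K → K} (hf : DF1 L O F f) :
    DF1 L (OS O) (inS '' F) (starF1 f) := by
  have h1 := dfn_star hK (DfnF.graph_iff.1 hf)
  refine DfnF.graph_iff.2 (Dfn.congr h1 fun w => ?_)
  constructor
  · intro h
    have h2 : mkS (fun j => f (repS (w (some ())) j)) = mkS (repS (w none)) := by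
      rw [mkS_repS]
      exact h
    exact mkS_eq.1 h2
  · intro h
    have h2 : mkS (fun j => f (repS (w (some ())) j)) = mkS (repS (w none)) := mkS_eq.2 h
    rw [mkS_repS] at h2
    exact h2

end

end Pool.Agent.MP_e9d743_lc
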