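import Mathlib
import Pool.Agent.Lib.MP_e9d743_lc.U4_Dfn
import Pool.Agent.Lib.MP_e9d743_lc.B7_P0

/-!
# The closure in the ultrapower

Task U5. `⊆`: by `mem_acl` in the ultrapower (`hypS H`) an element `x` of the closure lies in a finite
`C`, `L`-definable over `inS '' F`; by `fin_los` `C = inS '' C₀`, and `C₀ ⊆ cl F` by `acl_sub`.
`⊇`: if `x ∈ cl F` then `{x}` is definable, `dfn_star`. `cl_star_insert`: `cl_star` for
`insert x F`. `cld_star`: from `cl_star` and `cl_eq`.
-/

set_option autoImplicit false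

open FirstOrder FirstOrder.Language

namespace Pool.Agent.MP_e9d743_lc

universe u v w

section
variable {L : FirstOrder.Language.{u, v}} {K : Type w} [Field K] [L.Structure K]
  {O : ValuationSubring K} {S : ValSymb L} {T : L.Theory} {F : Set K}

theorem cl_star (H : Hyp S T K O) (F : Set K) : cl L (OS O) (inS '' F) = inS '' cl L O F := by
  apply Set.Subset.antisymm
  · intro x hx
    obtain ⟨C, h1, h2, h3⟩ := mem_acl (hypS H) hx
    obtain ⟨C₀, h4, h5, h6⟩ := fin_los h2 h1
    rw [h6] at h3
    obtain ⟨c, hc, rfl⟩ := h3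
    exact ⟨c, acl_sub H h4 h5 hc, rfl⟩
  · rintro _ ⟨x, hx, rfl⟩
    have hx' : Dfn L O F (fun v : Unit → K => v () ∈ ({x} : Set K)) := hx
    have h1 := dfn_star H.val hx'
    refine Dfn.congr h1 fun v => ?_
    obtain ⟨y, hy⟩ := mkS_surj (v ())
    have hv : v = fun a : Unit => mkS ((fun _ : Unit => y) a) := by
      funext a
      exact hy.symm
    rw [hv, starP_mk]
    exact mkS_eq

theorem cl_star_insert (H : Hyp S T K O) (F : Set K) (x : K) :
    cl L (OS O) (insert (inS x) (inS '' F)) = inS '' cl L O (insert x F) := by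
  rw [← Set.image_insert_eq, cl_star H]

theorem cld_star (H : Hyp S T K O) (hF : Cld L O F) : Cld L (OS O) (inS '' F) := by
  unfold Cld
  rw [cl_star H]
  exact Set.image_mono hF

end

end Pool.Agent.MP_e9d743_lc
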