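import Mathlib
import Pool.Agent.Lib.MP_e9d743_lc.U2_Val

/-!
# Transfer of `SC`

Task U6. Both directions by choice of counterexamples for each `j` (`mkS_surj`, `starF1_mk`,
`val_lt`, `val_le`, `Ultrafilter.eventually_not`); the equality of valuations
`v (f z - f z') = v (m * (z - z'))` is two inequalities `≤`.
-/

set_option autoImplicit false

open FirstOrder FirstOrder.Language

namespace Pool.Agent.MP_e9d743_lc

universe u v w

section
variable {L : FirstOrder.Language.{u, v}} {K : Type w} [Field K] [L.Structure K]
  {O : ValuationSubring K} {S : ValSymb L} {T : L.Theory} {F : Set K}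

private theorem U6_val_eq {x y : Finset K → K} :
    (OS O).valuation (mkS x) = (OS O).valuation (mkS y) ↔
      ∀ᶠ j in (ufil K : Filter (Finset K)), O.valuation (x j) = O.valuation (y j) := by
  rw [le_antisymm_iff, val_le, val_le, ← Filter.eventually_and]
  exact Filter.eventually_congr (Filter.Eventually.of_forall fun j => le_antisymm_iff.symm)

theorem sc_star {f : K → K} {x m p : Finset K → K} :
    SC (OS O) (starF1 f) (mkS x) ((OS O).valuation (mkS m)) ((OS O).valuation (mkS p)) ↔
      ∀ᶠ j in (ufil K : Filter (Finset K)),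
        SC O f (x j) (O.valuation (m j)) (O.valuation (p j)) := by
  have e1 : ∀ z z' : Finset K → K,
      (OS O).valuation (starF1 f (mkS z) - starF1 f (mkS z')) =
        (OS O).valuation (mkS m) * (OS O).valuation (mkS z - mkS z') ↔
      ∀ᶠ j in (ufil K : Filter (Finset K)), O.valuation (f (z j) - f (z' j)) =
        O.valuation (m j) * O.valuation (z j - z' j) := by
    intro z z'
    rw [starF1_mk, starF1_mk, mkS_sub, mkS_sub, ← map_mul, mkS_mul, U6_val_eq]
    refine Filter.eventually_congr (Filter.Eventually.of_forall fun j => ?_)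
    rw [map_mul]
  have e2 : ∀ w : Finset K → K,
      (OS O).valuation (mkS w - starF1 f (mkS x)) <
        (OS O).valuation (mkS m) * (OS O).valuation (mkS p) ↔
      ∀ᶠ j in (ufil K : Filter (Finset K)), O.valuation (w j - f (x j)) <
        O.valuation (m j) * O.valuation (p j) := by
    intro w
    rw [starF1_mk, mkS_sub, ← map_mul, mkS_mul, val_lt]
    refine Filter.eventually_congr (Filter.Eventually.of_forall fun j => ?_)
    rw [map_mul]
  have e3 : ∀ z : Finset K → K,
      (OS O).valuation (mkS z - mkS x) < (OS O).valuation (mkS p) ↔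
      ∀ᶠ j in (ufil K : Filter (Finset K)), O.valuation (z j - x j) < O.valuation (p j) := by
    intro z
    rw [mkS_sub, val_lt]
  constructor
  · rintro ⟨h1, h2⟩
    by_contra hc
    have hc' : ∀ᶠ j in (ufil K : Filter (Finset K)),
        ¬ SC O f (x j) (O.valuation (m j)) (O.valuation (p j)) :=
      Ultrafilter.eventually_not.2 hc
    rcases (ufil K).em fun j => ∃ z z' : K, O.valuation (z - x j) < O.valuation (p j) ∧
        O.valuation (z' - x j) < O.valuation (p j) ∧
        ¬ O.valuation (f z - f z') = O.valuation (m j) * O.valuation (z - z') with h | h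
    · have h' : ∀ j, ∃ z z' : K, (∃ z z' : K, O.valuation (z - x j) < O.valuation (p j) ∧
          O.valuation (z' - x j) < O.valuation (p j) ∧
          ¬ O.valuation (f z - f z') = O.valuation (m j) * O.valuation (z - z')) →
          O.valuation (z - x j) < O.valuation (p j) ∧
          O.valuation (z' - x j) < O.valuation (p j) ∧
          ¬ O.valuation (f z - f z') = O.valuation (m j) * O.valuation (z - z') := by
        intro j
        by_cases hj : ∃ z z' : K, O.valuation (z - x j) < O.valuation (p j) ∧
          O.valuation (z' - x j) < O.valuation (p j) ∧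
          ¬ O.valuation (f z - f z') = O.valuation (m j) * O.valuation (z - z')
        · obtain ⟨z, z', hz⟩ := hj
          exact ⟨z, z', fun _ => hz⟩
        · exact ⟨0, 0, fun hj' => absurd hj' hj⟩
      choose z z' hz using h'
      have g1 := (e3 z).2 (h.mono fun j hj => (hz j hj).1)
      have g2 := (e3 z').2 (h.mono fun j hj => (hz j hj).2.1)
      have g3 := (e1 z z').1 (h1 _ _ g1 g2)
      obtain ⟨j, hj, hj'⟩ := (g3.and h).exists
      exact (hz j hj').2.2 hj
    · have h3 : ∀ᶠ j in (ufil K : Filter (Finset K)), ∃ w : K,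
          O.valuation (w - f (x j)) < O.valuation (m j) * O.valuation (p j) ∧
          ¬ ∃ z, O.valuation (z - x j) < O.valuation (p j) ∧ f z = w := by
        filter_upwards [hc', h] with j hj hj'
        by_contra hcon
        push Not at hcon hj'
        exact hj ⟨fun z z' a b => hj' z z' a b, fun w hw => hcon w hw⟩
      have h' : ∀ j, ∃ w : K, (∃ w : K,
          O.valuation (w - f (x j)) < O.valuation (m j) * O.valuation (p j) ∧
          ¬ ∃ z, O.valuation (z - x j) < O.valuation (p j) ∧ f z = w) →
          O.valuation (w - f (x j)) < O.valuation (m j) * O.valuation (p j) ∧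
          ¬ ∃ z, O.valuation (z - x j) < O.valuation (p j) ∧ f z = w := by
        intro j
        by_cases hj : ∃ w : K,
          O.valuation (w - f (x j)) < O.valuation (m j) * O.valuation (p j) ∧
          ¬ ∃ z, O.valuation (z - x j) < O.valuation (p j) ∧ f z = w
        · obtain ⟨w, hw⟩ := hj
          exact ⟨w, fun _ => hw⟩
        · exact ⟨0, fun hj' => absurd hj' hj⟩
      choose w hw using h'
      obtain ⟨z, hz1, hz2⟩ := h2 _ ((e2 w).2 (h3.mono fun j hj => (hw j hj).1))
      obtain ⟨z, rfl⟩ := mkS_surj z
      rw [starF1_mk] at hz2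
      obtain ⟨j, hj, hj1, hj2⟩ := (h3.and (((e3 z).1 hz1).and (mkS_eq.1 hz2))).exists
      exact (hw j hj).2 ⟨z j, hj1, hj2⟩
  · intro h
    constructor
    · intro z z' hz hz'
      obtain ⟨z, rfl⟩ := mkS_surj z
      obtain ⟨z', rfl⟩ := mkS_surj z'
      rw [e1]
      filter_upwards [h, (e3 z).1 hz, (e3 z').1 hz'] with j h1 h2 h3
      exact h1.1 _ _ h2 h3
    · intro w hw
      obtain ⟨w, rfl⟩ := mkS_surj w
      have hw' := (e2 w).1 hw
      have h' : ∀ j, ∃ z : K, (∃ z : K, O.valuation (z - x j) < O.valuation (p j) ∧
          f z = w j) → O.valuation (z - x j) < O.valuation (p j) ∧ f z = w j := by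
        intro j
        by_cases hj : ∃ z : K, O.valuation (z - x j) < O.valuation (p j) ∧ f z = w j
        · obtain ⟨z, hz⟩ := hj
          exact ⟨z, fun _ => hz⟩
        · exact ⟨0, fun hj' => absurd hj' hj⟩
      choose z hz using h'
      have h3 : ∀ᶠ j in (ufil K : Filter (Finset K)),
          O.valuation (z j - x j) < O.valuation (p j) ∧ f (z j) = w j := by
        filter_upwards [h, hw'] with j h1 h2
        exact hz j (h1.2 _ h2)
      refine ⟨mkS z, (e3 z).2 (h3.mono fun j hj => hj.1), ?_⟩
      rw [starF1_mk]
      exact mkS_eq.2 (h3.mono fun j hj => hj.2)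

end

end Pool.Agent.MP_e9d743_lc
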