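import Mathlib
import Pool.Agent.Lib.MP_e9d743_lc.B11_Ext
import Pool.Agent.Lib.MP_e9d743_lc.U5_ClS
import Pool.Agent.Lib.MP_e9d743_lc.U6_SC

/-!
# (Sc): scaling in general

Task B12. If the distance of `x` to `F` is attained (`∃ c ∈ F, ∀ c' ∈ F, |x - c| ≤ |x - c'|`) this is
`att` (`μ > 0` because `f x ∉ F`). Otherwise for all `c ∈ F` there is `c' ∈ F` with
`|x - c'| < |x - c|`. Suppose that no `c₀`, `μ` exist. For `j : Finset K` choose `c₁ c₂ c₃ ∈ F` with
`|x - c₃| < |x - c₂| < |x - c₁| < |x - c|` for all `c ∈ j ∩ F`, and `ν ∈ ℕ`, `ν ≥ 1`, such that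
`q j := x + ν (x - c₂)` satisfies `¬ RVEq O 1 (q j - x) e` for all `e ∈ j ∩ cl (insert x F)`
(for distinct `ν` the classes of `ν (x - c₂)` are distinct: `|ν - ν'| = 1`, `hK.equichar`); let
`p j = x - c₃`, `r j = x - c₁`. In the ultrapower (`hypS H`) with `x* = inS x`, `q = mkS q` ...:
`|p| < |x* - q| < |r| < |x* - c|` for all `c ∈ inS '' F`, `¬ RVEq (OS O) 1 (q - x*) e` for all
`e ∈ cl (insert x* (inS '' F)) = inS '' cl (insert x F)` (`cl_star_insert`, `ev_of_mem`, `rvEq_mk`).
`ext` over `inS '' F` (closed, `cld_star`): all `d ∈ F₁ := cl (insert q (inS '' F))` have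
`|x* - q| ≤ |x* - d|`; so `x* ∉ F₁`. `f* = starF1 f` (`df1_star`), `f* x* = inS (f x) ∉ F₁`: else
`x* ∈ F₁` since `x ∈ cl (insert (f x) F)` (`exch`). `att` over `F₁` with centre `q`: `SC f* x* μ |x* - q|`
with `μ > 0` as `f* x* ∉ F₁`; so `SC f* x* μ |p|` (smaller radius). `sc_star` with `μ = |m|`: for
some `j` we have `m j ≠ 0` and `SC O f x |m j| |x - c₃|`, contradiction.
-/

set_option autoImplicit false

open FirstOrder FirstOrder.Language

namespace Pool.Agent.MP_e9d743_lc

universe u v w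

section
variable {L : FirstOrder.Language.{u, v}} {K : Type w} [Field K] [L.Structure K]
  {O : ValuationSubring K} {S : ValSymb L} {T : L.Theory} {F : Set K}

omit [L.Structure K] in
private theorem Sc_small {x : K} (hne : F.Nonempty)
    (hno : ∀ c ∈ F, ∃ c' ∈ F, O.valuation (x - c') < O.valuation (x - c)) (j : Finset K) :
    ∃ c₁ ∈ F, ∀ c ∈ j, c ∈ F → O.valuation (x - c₁) < O.valuation (x - c) := by
  classical
  induction j using Finset.induction_on with
  | empty =>
    obtain ⟨c, hc⟩ := hne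
    exact ⟨c, hc, fun e he => absurd he (Finset.notMem_empty e)⟩
  | insert a s _ ih =>
    obtain ⟨c₁, hc₁, h1⟩ := ih
    by_cases ha : a ∈ F
    · rcases lt_or_ge (O.valuation (x - c₁)) (O.valuation (x - a)) with h2 | h2
      · refine ⟨c₁, hc₁, fun c hc hcF => ?_⟩
        rcases Finset.mem_insert.1 hc with rfl | hc
        · exact h2
        · exact h1 c hc hcF
      · obtain ⟨a', ha', h3⟩ := hno a ha
        refine ⟨a', ha', fun c hc hcF => ?_⟩
        rcases Finset.mem_insert.1 hc with rfl | hc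
        · exact h3
        · exact h3.trans (h2.trans_lt (h1 c hc hcF))
    · refine ⟨c₁, hc₁, fun c hc hcF => ?_⟩
      rcases Finset.mem_insert.1 hc with rfl | hc
      · exact absurd hcF ha
      · exact h1 c hc hcF

private theorem Sc_nat (hK : IsValModel S K O) {n m : ℕ} (h : n ≠ m) :
    O.valuation ((n : K) - m) = 1 := by
  rcases lt_or_gt_of_ne h with h1 | h1
  · rw [Valuation.map_sub_swap, ← Nat.cast_sub h1.le]
    exact hK.equichar _ (by omega)
  · rw [← Nat.cast_sub h1.le]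
    exact hK.equichar _ (by omega)

private theorem Sc_rv (hK : IsValModel S K O) {y : K} (hy : y ≠ 0) (j : Finset K) :
    ∃ n : ℕ, n ≠ 0 ∧ ∀ e ∈ j, ¬ RVEq O 1 ((n : K) * y) e := by
  by_contra hcon
  push Not at hcon
  choose g hgj hg using fun n : ℕ => hcon (n + 1) (Nat.succ_ne_zero n)
  obtain ⟨a, b, hab, hgab⟩ := Finite.exists_ne_map_eq_of_infinite
    (fun n : ℕ => (⟨g n, hgj n⟩ : {e // e ∈ j}))
  have hgab' : g a = g b := congrArg Subtype.val hgab
  have hv : ∀ n : ℕ, O.valuation (((n + 1 : ℕ) : K) * y) = O.valuation y := fun n => by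
    rw [map_mul, hK.equichar _ (Nat.succ_ne_zero n), one_mul]
  have hyv : O.valuation y ≠ 0 := (Valuation.ne_zero_iff _).2 hy
  have hlt : ∀ n : ℕ, O.valuation (((n + 1 : ℕ) : K) * y - g n) < O.valuation y := fun n => by
    have h1 := rvEq_val (hg n)
    rcases hg n with ⟨h2, -⟩ | h2
    · rw [h2, map_zero] at h1
      have h3 := hv n
      rw [h2, map_zero] at h3
      exact absurd h3.symm hyv
    · rw [one_mul, ← h1, hv n] at h2
      exact h2
  have h1 := hlt a
  have h2 := hlt b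
  rw [← hgab'] at h2
  have h3 : O.valuation ((((a + 1 : ℕ) : K) * y - g a) - (((b + 1 : ℕ) : K) * y - g a)) <
      O.valuation y := Valuation.map_sub_lt _ h1 h2
  have h4 : (((a + 1 : ℕ) : K) * y - g a) - (((b + 1 : ℕ) : K) * y - g a) =
      (((a + 1 : ℕ) : K) - ((b + 1 : ℕ) : K)) * y := by ring
  rw [h4, map_mul, Sc_nat hK (by omega), one_mul] at h3
  exact lt_irrefl _ h3

omit [L.Structure K] in
private theorem Sc_radius {f : K → K} {x : K} {μ γ γ' : O.ValueGroup} (h : SC O f x μ γ)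
    (hγ : γ' ≤ γ) : SC O f x μ γ' := by
  refine ⟨fun z z' hz hz' => h.1 z z' (hz.trans_le hγ) (hz'.trans_le hγ), fun w hw => ?_⟩
  obtain ⟨z, hz, hzw⟩ := h.2 w (hw.trans_le (mul_le_mul_right hγ μ))
  have h0 : 0 < γ := zero_lt_iff.2 fun h0 => by
    rw [h0] at hz
    exact absurd hz (not_lt.2 zero_le')
  refine ⟨z, ?_, hzw⟩
  have h1 := h.1 z x hz (by rw [sub_self, map_zero]; exact h0)
  rw [hzw] at h1
  rw [h1] at hw
  exact lt_of_mul_lt_mul_left' hw

theorem scale (H : Hyp S T K O) (hF : Cld L O F) {f : K → K} (hf : DF1 L O F f) {x : K}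
    (hx : x ∉ F) (hfx : f x ∉ F) : ∃ c₀ ∈ F, ∃ μ : O.ValueGroup, 0 < μ ∧
      SC O f x μ (O.valuation (x - c₀)) := by
  have hK := H.val
  by_cases hatt : ∃ c ∈ F, ∀ c' ∈ F, O.valuation (x - c) ≤ O.valuation (x - c')
  · obtain ⟨c, hc, hmin⟩ := hatt
    obtain ⟨d, hd, -, hsc⟩ := att H hF hf hx hfx hc hmin
    refine ⟨c, hc, _, ?_, hsc⟩
    refine div_pos (zero_lt_iff.2 ((Valuation.ne_zero_iff _).2 (sub_ne_zero.2 ?_)))
      (zero_lt_iff.2 ((Valuation.ne_zero_iff _).2 (sub_ne_zero.2 ?_)))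
    · exact fun e => hfx (e ▸ hd)
    · exact fun e => hx (e ▸ hc)
  · push Not at hatt
    by_contra hcon
    push Not at hcon
    have h0F : (0 : K) ∈ F := zero_mem hK hF
    have hxc : ∀ c ∈ F, x - c ≠ 0 := fun c hc => sub_ne_zero.2 fun e => hx (e ▸ hc)
    choose c₁ hc₁ hc₁' using fun j : Finset K => Sc_small ⟨0, h0F⟩ hatt j
    choose c₂ hc₂ hc₂' using fun j : Finset K => hatt (c₁ j) (hc₁ j)
    choose c₃ hc₃ hc₃' using fun j : Finset K => hatt (c₂ j) (hc₂ j)
    choose n hn hn' using fun j : Finset K => Sc_rv hK (hxc (c₂ j) (hc₂ j)) j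
    obtain ⟨q, hq⟩ : ∃ q : Finset K → K, ∀ j, q j = x + n j * (x - c₂ j) := ⟨_, fun _ => rfl⟩
    have hqx : ∀ j, q j - x = n j * (x - c₂ j) := fun j => by rw [hq j]; ring
    have hxq : ∀ j, O.valuation (x - q j) = O.valuation (x - c₂ j) := fun j => by
      rw [Valuation.map_sub_swap, hqx j, map_mul, hK.equichar _ (hn j), one_mul]
    have HS : Hyp S T (KS K) (OS O) := hypS H
    have hFS : Cld L (OS O) (inS '' F) := cld_star H hF
    -- the inequalities
    have i1 : (OS O).valuation (mkS fun j => x - c₃ j) < (OS O).valuation (inS x - mkS q) := by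
      refine val_lt.2 (Filter.Eventually.of_forall fun j => ?_)
      show O.valuation (x - c₃ j) < O.valuation (x - q j)
      rw [hxq j]
      exact hc₃' j
    have i2 : (OS O).valuation (inS x - mkS q) < (OS O).valuation (mkS fun j => x - c₁ j) := by
      refine val_lt.2 (Filter.Eventually.of_forall fun j => ?_)
      show O.valuation (x - q j) < O.valuation (x - c₁ j)
      rw [hxq j]
      exact hc₂' j
    have i3 : ∀ c ∈ inS '' F, (OS O).valuation (mkS fun j => x - c₁ j) <
        (OS O).valuation (inS x - c) := by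
      rintro _ ⟨c, hc, rfl⟩
      refine val_lt.2 (ev_of_mem c fun j hj => ?_)
      exact hc₁' j c hj hc
    have i4 : ∀ e ∈ cl L (OS O) (insert (inS x) (inS '' F)), ¬ RVEq (OS O) 1 (mkS q - inS x) e := by
      intro e he
      rw [cl_star_insert H F x] at he
      obtain ⟨e, -, rfl⟩ := he
      intro h
      have h1 : ∀ᶠ j in (ufil K : Filter (Finset K)), RVEq O 1 (q j - x) e :=
        rvEq_mk (l := fun _ => 1) (x := fun j => q j - x) (y := fun _ => e) |>.1 h
      have h2 := ev_of_mem (p := fun j => ¬ RVEq O 1 (q j - x) e) e fun j hj => by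
        rw [hqx j]
        exact hn' j e hj
      obtain ⟨j, hj1, hj2⟩ := (h1.and h2).exists
      exact hj2 hj1
    have hext := ext HS hFS i2 i3 i4
    -- the closed set `F₁`
    have hF₁ : Cld L (OS O) (cl L (OS O) (insert (mkS q) (inS '' F))) := cld_cl HS.val
    have hsub : inS '' F ⊆ cl L (OS O) (insert (mkS q) (inS '' F)) :=
      (Set.subset_insert _ _).trans (subset_cl HS.val)
    have hqm : mkS q ∈ cl L (OS O) (insert (mkS q) (inS '' F)) :=
      subset_cl HS.val (Set.mem_insert _ _)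
    have hxF₁ : inS x ∉ cl L (OS O) (insert (mkS q) (inS '' F)) := by
      intro h
      have h1 := hext _ h
      rw [sub_self, map_zero] at h1
      exact absurd (i1.trans_le h1) (not_lt.2 zero_le')
    have hfS : DF1 L (OS O) (cl L (OS O) (insert (mkS q) (inS '' F))) (starF1 f) :=
      (df1_star hK hf).mono hsub
    have hfxF₁ : starF1 f (inS x) ∉ cl L (OS O) (insert (mkS q) (inS '' F)) := by
      intro h
      rw [starF1_in] at h
      apply hxF₁
      have h1 : inS x ∈ cl L (OS O) (insert (inS (f x)) (inS '' F)) := by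
        rw [cl_star_insert H F (f x)]
        exact ⟨x, exch H hF hf hx hfx, rfl⟩
      exact (cl_sub_iff HS.val hF₁).2 (Set.insert_subset h hsub) h1
    obtain ⟨d, hd, -, hsc⟩ := att HS hF₁ hfS hxF₁ hfxF₁ hqm hext
    have hsc' := Sc_radius hsc i1.le
    have hμ : 0 < (OS O).valuation (starF1 f (inS x) - d) / (OS O).valuation (inS x - mkS q) := by
      refine div_pos (zero_lt_iff.2 ((Valuation.ne_zero_iff _).2 (sub_ne_zero.2 ?_)))
        (zero_lt_iff.2 ((Valuation.ne_zero_iff _).2 (sub_ne_zero.2 ?_)))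
      · exact fun e => hfxF₁ (e ▸ hd)
      · exact fun e => hxF₁ (e ▸ hqm)
    obtain ⟨m', hm'⟩ := (OS O).valuation_surjective
      ((OS O).valuation (starF1 f (inS x) - d) / (OS O).valuation (inS x - mkS q))
    obtain ⟨m, rfl⟩ := mkS_surj m'
    rw [← hm'] at hsc' hμ
    have e1 : ∀ᶠ j in (ufil K : Filter (Finset K)),
        SC O f x (O.valuation (m j)) (O.valuation (x - c₃ j)) :=
      sc_star (x := fun _ => x) (p := fun j => x - c₃ j) |>.1 hsc'
    have e2 : ∀ᶠ j in (ufil K : Filter (Finset K)), O.valuation 0 < O.valuation (m j) := by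
      refine val_lt (x := fun _ => 0) |>.1 ?_
      have : (mkS fun _ => (0 : K)) = (0 : KS K) := inS_zero
      rw [this, map_zero]
      exact hμ
    obtain ⟨j, hj1, hj2⟩ := (e1.and e2).exists
    rw [map_zero] at hj2
    exact hcon (c₃ j) (hc₃ j) _ hj2 hj1

end

end Pool.Agent.MP_e9d743_lc
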