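import Mathlib
import Pool.Agent.Lib.MP_e9d743_lc.B7_P0

/-!
# `N_F(x)` and nearness

Task B13a. Elementary facts (ultrametric inequality). `Near O F x y`: `|x - y| < |x - c|` for all
`c ∈ F`.
-/

set_option autoImplicit false

open FirstOrder FirstOrder.Language

namespace Pool.Agent.MP_e9d743_lc

universe u v w

section
variable {L : FirstOrder.Language.{u, v}} {K : Type w} [Field K] [L.Structure K]
  {O : ValuationSubring K} {S : ValSymb L} {T : L.Theory} {F : Set K}

/-- `|x - y| < |x - c|` for all `c ∈ F` -/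
def Near (O : ValuationSubring K) (F : Set K) (x y : K) : Prop := O.valuation (x - y) ∉ NN O F x

theorem not_mem_NN {x : K} {γ : O.ValueGroup} :
    γ ∉ NN O F x ↔ ∀ c ∈ F, γ < O.valuation (x - c) := by
  simp only [NN, Set.mem_setOf_eq, not_exists, not_and, not_le]

theorem near_iff {x y : K} :
    Near O F x y ↔ ∀ c ∈ F, O.valuation (x - y) < O.valuation (x - c) := by
  exact not_mem_NN

theorem NN_up {x : K} {γ γ' : O.ValueGroup} (h : γ ∈ NN O F x) (hle : γ ≤ γ') :
    γ' ∈ NN O F x := by
  obtain ⟨c, hc, h1⟩ := h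
  exact ⟨c, hc, h1.trans hle⟩

theorem NN_mono {G : Set K} (h : F ⊆ G) (x : K) : NN O F x ⊆ NN O G x := by
  rintro γ ⟨c, hc, h1⟩
  exact ⟨c, h hc, h1⟩

theorem near_refl {x : K} (hx : x ∉ F) : Near O F x x := by
  rw [near_iff]
  intro c hc
  rw [sub_self, map_zero]
  refine zero_lt_iff.2 ((Valuation.ne_zero_iff _).2 (sub_ne_zero.2 ?_))
  rintro rfl
  exact hx hc

theorem near_not_mem {x y : K} (h : Near O F x y) : x ∉ F ∧ y ∉ F := by
  rw [near_iff] at h
  refine ⟨fun hx => ?_, fun hy => lt_irrefl _ (h y hy)⟩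
  have h1 := h x hx
  rw [sub_self, map_zero] at h1
  exact not_lt_zero' h1

theorem near_NN {x y : K} (h : Near O F x y) : NN O F y = NN O F x := by
  rw [near_iff] at h
  have h1 : ∀ c ∈ F, O.valuation (y - c) = O.valuation (x - c) := by
    intro c hc
    rw [show y - c = (x - c) - (x - y) by ring]
    exact Valuation.map_sub_eq_of_lt_left _ (h c hc)
  ext γ
  constructor
  · rintro ⟨c, hc, h2⟩
    exact ⟨c, hc, (h1 c hc) ▸ h2⟩
  · rintro ⟨c, hc, h2⟩
    exact ⟨c, hc, (h1 c hc).symm ▸ h2⟩

theorem near_symm {x y : K} (h : Near O F x y) : Near O F y x := by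
  unfold Near
  rw [near_NN h, Valuation.map_sub_swap]
  exact h

theorem near_trans {x y z : K} (h : Near O F x y) (h' : Near O F y z) : Near O F x z := by
  have h1 : O.valuation (y - z) ∉ NN O F x := by
    rw [← near_NN h]
    exact h'
  intro h2
  have h3 : O.valuation (x - z) ≤ max (O.valuation (x - y)) (O.valuation (y - z)) := by
    rw [show x - z = (x - y) + (y - z) by ring]
    exact Valuation.map_add _ _ _
  rcases le_max_iff.1 h3 with h4 | h4
  · exact h (NN_up h2 h4)
  · exact h1 (NN_up h2 h4)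

theorem near_of_le {x y : K} {γ : O.ValueGroup} (hγ : γ ∉ NN O F x)
    (h : O.valuation (x - y) ≤ γ) : Near O F x y := by
  exact fun h1 => hγ (NN_up h1 h)

end

end Pool.Agent.MP_e9d743_lc
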