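import Mathlib
import Pool.Agent.Lib.MP_e9d743_lc.B7_P0

/-!
# Local scaling

Task B13b. Elementary facts on `LS O f x μ` (`B0_Defs`). `LS_unique` uses a point `z ≠ x` close to
`x` (`exists_small`). For `LS_comp`: choose the radius `ρ'` for `f` with `μ ρ' ≤ ρ` if `μ ≠ 0`.
`LS_sub`: `|f z - f z'| = μ |z - z'| > ν |z - z'| = |g z - g z'|` for `z ≠ z'`.
-/

set_option autoImplicit false

open FirstOrder FirstOrder.Language

namespace Pool.Agent.MP_e9d743_lc

universe u v w

section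
variable {L : FirstOrder.Language.{u, v}} {K : Type w} [Field K] [L.Structure K]
  {O : ValuationSubring K} {S : ValSymb L} {T : L.Theory} {F : Set K}

theorem LS_unique (hK : IsValModel S K O) {f : K → K} {x : K} {μ ν : O.ValueGroup}
    (h : LS O f x μ) (h' : LS O f x ν) : μ = ν := by
  obtain ⟨ρ, hρ, hf⟩ := h
  obtain ⟨ρ', hρ', hf'⟩ := h'
  obtain ⟨t, ht, ht1, -⟩ := exists_small hK (lt_min hρ hρ')
  have hx : O.valuation (x - x) = 0 := by rw [sub_self, map_zero]
  have h1 := hf (x + t) x (by rw [add_sub_cancel_left]; exact lt_of_lt_of_le ht1 (min_le_left _ _))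
    (by rw [hx]; exact hρ)
  have h2 := hf' (x + t) x
    (by rw [add_sub_cancel_left]; exact lt_of_lt_of_le ht1 (min_le_right _ _))
    (by rw [hx]; exact hρ')
  rw [h1, add_sub_cancel_left] at h2
  exact mul_right_cancel₀ ((Valuation.ne_zero_iff _).2 ht) h2

theorem LS_congr {f g : K → K} {x : K} {μ ρ : O.ValueGroup} (h : LS O f x μ) (hρ : 0 < ρ)
    (hfg : ∀ z, O.valuation (z - x) < ρ → f z = g z) : LS O g x μ := by
  obtain ⟨ρ', hρ', hf⟩ := h
  refine ⟨min ρ ρ', lt_min hρ hρ', fun z z' hz hz' => ?_⟩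
  rw [← hfg z (lt_of_lt_of_le hz (min_le_left _ _)),
    ← hfg z' (lt_of_lt_of_le hz' (min_le_left _ _))]
  exact hf z z' (lt_of_lt_of_le hz (min_le_right _ _)) (lt_of_lt_of_le hz' (min_le_right _ _))

theorem LS_comp {f g : K → K} {x : K} {μ ν : O.ValueGroup} (h : LS O f x μ)
    (h' : LS O g (f x) ν) : LS O (fun z => g (f z)) x (ν * μ) := by
  obtain ⟨ρ, hρ, hf⟩ := h
  obtain ⟨ρ', hρ', hg⟩ := h'
  have hx : O.valuation (x - x) = 0 := by rw [sub_self, map_zero]
  by_cases hμ : μ = 0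
  · refine ⟨ρ, hρ, fun z z' hz hz' => ?_⟩
    have hc : ∀ z, O.valuation (z - x) < ρ → O.valuation (f z - f x) < ρ' := by
      intro z hz
      rw [hf z x hz (by rw [hx]; exact hρ), hμ, zero_mul]
      exact hρ'
    show O.valuation (g (f z) - g (f z')) = _
    rw [hg _ _ (hc z hz) (hc z' hz'), hf z z' hz hz', mul_assoc]
  · have hμ0 : 0 < μ := zero_lt_iff.2 hμ
    refine ⟨min ρ (ρ' / μ), lt_min hρ (div_pos hρ' hμ0), fun z z' hz hz' => ?_⟩
    have hc : ∀ z, O.valuation (z - x) < min ρ (ρ' / μ) → O.valuation (f z - f x) < ρ' := by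
      intro z hz
      rw [hf z x (lt_of_lt_of_le hz (min_le_left _ _)) (by rw [hx]; exact hρ)]
      have h1 := lt_of_lt_of_le hz (min_le_right _ _)
      rw [lt_div_iff₀ hμ0] at h1
      rwa [mul_comm]
    show O.valuation (g (f z) - g (f z')) = _
    rw [hg _ _ (hc z hz) (hc z' hz'),
      hf z z' (lt_of_lt_of_le hz (min_le_left _ _)) (lt_of_lt_of_le hz' (min_le_left _ _)),
      mul_assoc]

theorem LS_id (x : K) : LS O (fun z => z) x 1 := by
  exact ⟨1, zero_lt_one, fun z z' _ _ => by rw [one_mul]⟩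

theorem LS_const (c x : K) : LS O (fun _ => c) x 0 := by
  exact ⟨1, zero_lt_one, fun z z' _ _ => by rw [zero_mul, sub_self, map_zero]⟩

theorem LS_sub {f g : K → K} {x : K} {μ ν : O.ValueGroup} (h : LS O f x μ)
    (h' : LS O g x ν) (hlt : ν < μ) : LS O (fun z => f z - g z) x μ := by
  obtain ⟨ρ, hρ, hf⟩ := h
  obtain ⟨ρ', hρ', hg⟩ := h'
  refine ⟨min ρ ρ', lt_min hρ hρ', fun z z' hz hz' => ?_⟩
  show O.valuation ((f z - g z) - (f z' - g z')) = _
  have e1 := hf z z' (lt_of_lt_of_le hz (min_le_left _ _)) (lt_of_lt_of_le hz' (min_le_left _ _))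
  have e2 := hg z z' (lt_of_lt_of_le hz (min_le_right _ _)) (lt_of_lt_of_le hz' (min_le_right _ _))
  by_cases hzz : z = z'
  · subst hzz
    rw [sub_self, sub_self, map_zero, mul_zero]
  · have hne : 0 < O.valuation (z - z') :=
      zero_lt_iff.2 ((Valuation.ne_zero_iff _).2 (sub_ne_zero.2 hzz))
    have h3 : (f z - g z) - (f z' - g z') = (f z - f z') - (g z - g z') := by ring
    rw [h3, Valuation.map_sub_eq_of_lt_left, e1]
    rw [e1, e2]
    exact mul_lt_mul_of_pos_right hlt hne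

theorem LS_sub_const {f : K → K} {x : K} {μ : O.ValueGroup} (h : LS O f x μ) (c : K) :
    LS O (fun z => f z - c) x μ := by
  obtain ⟨ρ, hρ, hf⟩ := h
  refine ⟨ρ, hρ, fun z z' hz hz' => ?_⟩
  show O.valuation ((f z - c) - (f z' - c)) = _
  rw [sub_sub_sub_cancel_right]
  exact hf z z' hz hz'

theorem SC.ls {f : K → K} {x : K} {μ γ : O.ValueGroup} (h : SC O f x μ γ) (hγ : 0 < γ) :
    LS O f x μ := by
  exact ⟨γ, hγ, h.1⟩

end

end Pool.Agent.MP_e9d743_lc
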