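import Mathlib
import Pool.Agent.Lib.MP_e9d743_lc.B12_Sc
import Pool.Agent.Lib.MP_e9d743_lc.B13a_NN
import Pool.Agent.Lib.MP_e9d743_lc.B13b_LS

/-!
# (N1), (N2), (N3)

Task B13.
* `N1`: `P0` and `near_iff`.
* `LS_exists`: if `f x ∉ F` by `scale` (`SC.ls`; `|x - c₀| > 0` as `x ∉ F`); if `f x ∈ F` then
  `f` is constant near `x` (`P0` for `{z | f z = f x}`), `μ = 0`.
* `LS_zero`: by the same case distinction and `LS_unique`.
* `N2`: if `f x ∈ F` then `f z = f x = f z'` by `N1` and `μ = 0`. Otherwise `scale`, `LS_unique` and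
  `near_iff` for `c₀`.
* `N2'`: (→) let `d ∈ F` with `|f x - d| ≤ μ γ` and `c₀` from `scale`. If `γ ≥ |x - c₀|` done. Else
  `d = f z` with `|z - x| < |x - c₀|`, `|z - x| = |f x - d| / μ ≤ γ`, and `z` is the only element with
  `RVEq O 1 (z - c₀) (x - c₀)` and `f z = d` (a set definable over `F`, `Dfn.rvConst`), so `z ∈ F`.
  (←) apply (→) to the local inverse `g` at `f x` (`inv`), whose scale is `μ⁻¹` (`LS_comp`,
  `LS_congr`, `LS_id`, `LS_unique`).
* `LS_near`: the points close to `y` are near `x`; `N2`.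
* `N3`: `inv` gives `g`; `x' = g b`. `{w | f (g w) = w}` contains `f x`, so contains `b` by `N1`;
  `|x - x'| = μ⁻¹ |f x - b|` by `N2` for `g`; `Near O F x x'` by `N2'`.
-/

set_option autoImplicit false

open FirstOrder FirstOrder.Language

namespace Pool.Agent.MP_e9d743_lc

universe u v w

section
variable {L : FirstOrder.Language.{u, v}} {K : Type w} [Field K] [L.Structure K]
  {O : ValuationSubring K} {S : ValSymb L} {T : L.Theory} {F : Set K}

theorem N1 (H : Hyp S T K O) (hF : Cld L O F) {X : Set K} (hX : D1 L O F X) {x y : K} (hx : x ∈ X)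
    (h : Near O F x y) : y ∈ X := by
  obtain ⟨c, hc, hP⟩ := P0 H hF hX hx (near_not_mem h).1
  refine hP y ?_
  rw [Valuation.map_sub_swap]
  exact near_iff.1 h c hc

private theorem B13_pos {x c : K} (hx : x ∉ F) (hc : c ∈ F) : 0 < O.valuation (x - c) := by
  refine zero_lt_iff.2 ((Valuation.ne_zero_iff _).2 ?_)
  intro h
  apply hx
  rw [sub_eq_zero.1 h]
  exact hc

private theorem B13_ls0 (H : Hyp S T K O) (hF : Cld L O F) {f : K → K} (hf : DF1 L O F f) {x : K}
    (hx : x ∉ F) (hfx : f x ∈ F) : LS O f x 0 := by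
  have hX : D1 L O F {z | f z = f x} := by
    refine Dfn.congr (p := fun v : Unit → K => f (v ()) = f x) ?_ fun v => Iff.rfl
    exact Dfn.eq hf (DfnF.const hfx)
  obtain ⟨c, hc, hP⟩ := P0 H hF hX (x := x) rfl hx
  refine ⟨O.valuation (x - c), B13_pos hx hc, fun z z' hz hz' => ?_⟩
  have h1 : f z = f x := hP z hz
  have h2 : f z' = f x := hP z' hz'
  rw [h1, h2, sub_self, map_zero, zero_mul]

theorem LS_exists (H : Hyp S T K O) (hF : Cld L O F) {f : K → K} (hf : DF1 L O F f) {x : K}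
    (hx : x ∉ F) : ∃ μ, LS O f x μ := by
  by_cases hfx : f x ∈ F
  · exact ⟨0, B13_ls0 H hF hf hx hfx⟩
  · obtain ⟨c, hc, μ, -, hs⟩ := scale H hF hf hx hfx
    exact ⟨μ, hs.ls (B13_pos hx hc)⟩

theorem LS_zero (H : Hyp S T K O) (hF : Cld L O F) {f : K → K} (hf : DF1 L O F f) {x : K}
    (hx : x ∉ F) {μ : O.ValueGroup} (hμ : LS O f x μ) : μ = 0 ↔ f x ∈ F := by
  constructor
  · intro h
    by_contra hfx
    obtain ⟨c, hc, ν, hν, hs⟩ := scale H hF hf hx hfx
    have := LS_unique H.val hμ (hs.ls (B13_pos hx hc))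
    rw [← this, h] at hν
    exact lt_irrefl _ hν
  · intro hfx
    exact LS_unique H.val hμ (B13_ls0 H hF hf hx hfx)

theorem N2 (H : Hyp S T K O) (hF : Cld L O F) {f : K → K} (hf : DF1 L O F f) {x : K}
    {μ : O.ValueGroup} (hμ : LS O f x μ) {z z' : K} (hz : Near O F x z) (hz' : Near O F x z') :
    O.valuation (f z - f z') = μ * O.valuation (z - z') := by
  have hx : x ∉ F := (near_not_mem hz).1
  by_cases hfx : f x ∈ F
  · have hX : D1 L O F {z | f z = f x} := by
      refine Dfn.congr (p := fun v : Unit → K => f (v ()) = f x) ?_ fun v => Iff.rfl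
      exact Dfn.eq hf (DfnF.const hfx)
    have h1 : f z = f x := N1 H hF hX (x := x) rfl hz
    have h2 : f z' = f x := N1 H hF hX (x := x) rfl hz'
    rw [(LS_zero H hF hf hx hμ).2 hfx, h1, h2, sub_self, map_zero, zero_mul]
  · obtain ⟨c, hc, ν, hν, hs⟩ := scale H hF hf hx hfx
    have := LS_unique H.val hμ (hs.ls (B13_pos hx hc))
    rw [this]
    refine hs.1 z z' ?_ ?_
    · rw [Valuation.map_sub_swap]
      exact near_iff.1 hz c hc
    · rw [Valuation.map_sub_swap]
      exact near_iff.1 hz' c hc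

private theorem B13_N2a (H : Hyp S T K O) (hF : Cld L O F) {f : K → K} (hf : DF1 L O F f) {x : K}
    (hx : x ∉ F) (hfx : f x ∉ F) {μ : O.ValueGroup} (hμ : LS O f x μ) {γ : O.ValueGroup}
    (h : μ * γ ∈ NN O F (f x)) : γ ∈ NN O F x := by
  obtain ⟨d, hd, hdle⟩ := h
  obtain ⟨c, hc, ν, hν, hs⟩ := scale H hF hf hx hfx
  have hμν := LS_unique H.val hμ (hs.ls (B13_pos hx hc))
  subst hμν
  by_cases hcγ : O.valuation (x - c) ≤ γ
  · exact ⟨c, hc, hcγ⟩
  · have hcγ' : γ < O.valuation (x - c) := not_le.1 hcγ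
    have h1 : O.valuation (d - f x) < μ * O.valuation (x - c) := by
      rw [Valuation.map_sub_swap]
      exact lt_of_le_of_lt hdle (mul_lt_mul_of_pos_left hcγ' hν)
    obtain ⟨z, hz, hfz⟩ := hs.2 d h1
    have hxx : O.valuation (x - x) < O.valuation (x - c) := by
      rw [sub_self, map_zero]
      exact B13_pos hx hc
    have h2 := hs.1 z x hz hxx
    rw [hfz, Valuation.map_sub_swap] at h2
    have h3 : O.valuation (z - x) ≤ γ := by
      rw [h2] at hdle
      exact le_of_mul_le_mul_left hdle hν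
    have hzF : z ∈ F := by
      apply hF
      refine Dfn.congr (p := fun v : Unit → K => RVEq O 1 (v () - c) (x - c) ∧ f (v ()) = d)
        ?_ fun v => ?_
      · exact (Dfn.rvConst (DfnF.sub H.val (DfnF.var ()) (DfnF.const hc)) (x - c)).and
          (Dfn.eq hf (DfnF.const hd))
      · have hne : x - c ≠ 0 := (Valuation.ne_zero_iff O.valuation).1 (B13_pos hx hc).ne'
        have hkey : ∀ u : K, RVEq O 1 (u - c) (x - c) ↔ O.valuation (u - x) < O.valuation (x - c) := by
          intro u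
          unfold RVEq
          rw [one_mul, sub_sub_sub_cancel_right]
          constructor
          · rintro (h | h)
            · exact absurd h.2 hne
            · exact h
          · exact Or.inr
        rw [hkey]
        constructor
        · intro hv
          have hv' : v () = z := hv
          rw [hv']
          exact ⟨hz, hfz⟩
        · rintro ⟨h4, h5⟩
          have h6 := hs.1 (v ()) z h4 hz
          rw [h5, hfz, sub_self, map_zero] at h6
          have h7 : O.valuation (v () - z) = 0 := by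
            rcases mul_eq_zero.1 h6.symm with h | h
            · exact absurd h hν.ne'
            · exact h
          exact sub_eq_zero.1 ((Valuation.zero_iff _).1 h7)
    exact ⟨z, hzF, by rw [Valuation.map_sub_swap]; exact h3⟩

/-- the scale of the local inverse -/
private theorem B13_inv (H : Hyp S T K O) (hF : Cld L O F) {f : K → K} (hf : DF1 L O F f) {x : K}
    (hx : x ∉ F) (hfx : f x ∉ F) {μ : O.ValueGroup} (hμ : LS O f x μ) :
    ∃ g : K → K, DF1 L O F g ∧ g (f x) = x ∧ ∃ ν, LS O g (f x) ν ∧ ν * μ = 1 := by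
  obtain ⟨g, hg, hgx, ⟨c, hc, h1⟩, -⟩ := inv H hF hf hx hfx
  obtain ⟨ν, hν⟩ := LS_exists H hF hg hfx
  refine ⟨g, hg, hgx, ν, hν, ?_⟩
  have h2 := LS_congr (LS_comp hμ hν) (B13_pos hx hc) (g := fun z => z) h1
  exact LS_unique H.val h2 (LS_id x)

theorem N2' (H : Hyp S T K O) (hF : Cld L O F) {f : K → K} (hf : DF1 L O F f) {x : K}
    (hx : x ∉ F) (hfx : f x ∉ F) {μ : O.ValueGroup} (hμ : LS O f x μ) {γ : O.ValueGroup} :
    μ * γ ∈ NN O F (f x) ↔ γ ∈ NN O F x := by
  refine ⟨B13_N2a H hF hf hx hfx hμ, fun h => ?_⟩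
  obtain ⟨g, hg, hgx, ν, hν, h1⟩ := B13_inv H hF hf hx hfx hμ
  refine B13_N2a H hF hg hfx (by rwa [hgx]) hν ?_
  rw [← mul_assoc, h1, one_mul, hgx]
  exact h

theorem LS_near (H : Hyp S T K O) (hF : Cld L O F) {f : K → K} (hf : DF1 L O F f) {x y : K}
    {μ : O.ValueGroup} (hμ : LS O f x μ) (h : Near O F x y) : LS O f y μ := by
  by_cases hxy : x = y
  · rw [← hxy]
    exact hμ
  · have hρ : 0 < O.valuation (x - y) :=
      zero_lt_iff.2 ((Valuation.ne_zero_iff _).2 (sub_ne_zero.2 hxy))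
    have hn : ∀ z, O.valuation (z - y) < O.valuation (x - y) → Near O F x z := by
      intro z hz
      refine near_of_le (γ := O.valuation (x - y)) h ?_
      have : x - z = (x - y) - (z - y) := by ring
      rw [this]
      exact (Valuation.map_sub _ _ _).trans (max_le le_rfl hz.le)
    exact ⟨O.valuation (x - y), hρ, fun z z' hz hz' => N2 H hF hf hμ (hn z hz) (hn z' hz')⟩

theorem N2_near (H : Hyp S T K O) (hF : Cld L O F) {f : K → K} (hf : DF1 L O F f) {x y : K}
    (h : Near O F x y) (hfx : f x ∉ F) : Near O F (f x) (f y) := by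
  have hx : x ∉ F := (near_not_mem h).1
  obtain ⟨μ, hμ⟩ := LS_exists H hF hf hx
  have h1 := N2 H hF hf hμ (near_refl hx) h
  unfold Near
  rw [h1, N2' H hF hf hx hfx hμ]
  exact h

theorem N3 (H : Hyp S T K O) (hF : Cld L O F) {f : K → K} (hf : DF1 L O F f) {x : K}
    (hx : x ∉ F) {μ : O.ValueGroup} (hμ : LS O f x μ) {b : K} (h : Near O F (f x) b) :
    ∃ x' ∈ cl L O (insert b F), f x' = b ∧ μ * O.valuation (x - x') = O.valuation (f x - b) ∧
      Near O F x x' := by
  have hfx : f x ∉ F := (near_not_mem h).1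
  obtain ⟨g, hg, hgx, ⟨c, hc, h1⟩, ⟨d, hd, h2⟩⟩ := inv H hF hf hx hfx
  obtain ⟨ν, hν⟩ := LS_exists H hF hg hfx
  have hνμ : ν * μ = 1 := by
    have h3 := LS_congr (LS_comp hμ hν) (B13_pos hx hc) (g := fun z => z) h1
    exact LS_unique H.val h3 (LS_id x)
  have hX : D1 L O F {w | f (g w) = w} := by
    refine Dfn.congr (p := fun v : Unit → K => f (g (v ())) = v ()) ?_ fun v => Iff.rfl
    exact Dfn.eq (DF1.app hf hg) (DfnF.var ())
  have hfg : f (g b) = b := by
    refine N1 H hF hX (x := f x) ?_ h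
    show f (g (f x)) = f x
    rw [hgx]
  have h4 := N2 H hF hg hν (near_refl hfx) h
  rw [hgx] at h4
  have h5 : μ * O.valuation (x - g b) = O.valuation (f x - b) := by
    rw [h4, ← mul_assoc, mul_comm μ ν, hνμ, one_mul]
  refine ⟨g b, fun1_mem_cl H.val hg b, hfg, h5, ?_⟩
  unfold Near
  rw [← N2' H hF hf hx hfx hμ, h5]
  exact h

end

end Pool.Agent.MP_e9d743_lc
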