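import Mathlib
import Pool.Agent.Lib.MP_e9d743_lc.B13_N

/-!
# The local scale `sc`

Task B14. `sc L O F z y` is the scale at `z` of a function `f`, definable over `F`, with `f z = y`.
Two such functions agree near `z` (`P0` for `{u | f u = f' u}`), so have the same scale
(`LS_congr`, `LS_unique`).
-/

set_option autoImplicit false

open FirstOrder FirstOrder.Language

namespace Pool.Agent.MP_e9d743_lc

universe u v w

section
variable {L : FirstOrder.Language.{u, v}} {K : Type w} [Field K] [L.Structure K]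
  {O : ValuationSubring K} {S : ValSymb L} {T : L.Theory} {F : Set K}

open Classical in
/-- the scale at `z` of a function `f` definable over `F` with `f z = y` -/
noncomputable def sc (L : FirstOrder.Language.{u, v}) {K : Type w} [Field K] [L.Structure K]
    (O : ValuationSubring K) (F : Set K) (z y : K) : O.ValueGroup :=
  if h : ∃ μ : O.ValueGroup, ∃ f : K → K, DF1 L O F f ∧ f z = y ∧ LS O f z μ then h.choose else 0

theorem sc_eq (H : Hyp S T K O) (hF : Cld L O F) {f : K → K} (hf : DF1 L O F f) {z : K}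
    (hz : z ∉ F) {μ : O.ValueGroup} (hμ : LS O f z μ) : sc L O F z (f z) = μ := by
  have hex : ∃ μ' : O.ValueGroup, ∃ f' : K → K, DF1 L O F f' ∧ f' z = f z ∧ LS O f' z μ' :=
    ⟨μ, f, hf, rfl, hμ⟩
  have e : sc L O F z (f z) = hex.choose := dif_pos hex
  rw [e]
  obtain ⟨f', hf', hfz, hls⟩ := hex.choose_spec
  have hX : D1 L O F {u | f u = f' u} := by
    refine Dfn.congr (p := fun v : Unit → K => f (v ()) = f' (v ())) ?_ fun v => Iff.rfl
    exact Dfn.eq hf hf'
  obtain ⟨c, hc, h⟩ := P0 H hF hX (x := z) hfz.symm hz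
  have hpos : 0 < O.valuation (z - c) := by
    refine zero_lt_iff.2 ((Valuation.ne_zero_iff _).2 (sub_ne_zero.2 ?_))
    rintro rfl
    exact hz hc
  exact LS_unique H.val hls (LS_congr hμ hpos h)

theorem sc_spec (H : Hyp S T K O) (hF : Cld L O F) {f : K → K} (hf : DF1 L O F f) {z : K}
    (hz : z ∉ F) : LS O f z (sc L O F z (f z)) := by
  obtain ⟨μ, hμ⟩ := LS_exists H hF hf hz
  rw [sc_eq H hF hf hz hμ]
  exact hμ

theorem sc_zero (H : Hyp S T K O) (hF : Cld L O F) {z y : K} (hz : z ∉ F)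
    (hy : y ∈ cl L O (insert z F)) : sc L O F z y = 0 ↔ y ∈ F := by
  obtain ⟨h, hh, rfl⟩ := exists_fun1 H.val hy
  exact LS_zero H hF hh hz (sc_spec H hF hh hz)

theorem sc_self (H : Hyp S T K O) (hF : Cld L O F) {z : K} (hz : z ∉ F) : sc L O F z z = 1 := by
  have hid : DF1 L O F (fun u : K => u) := DfnF.var ()
  exact sc_eq H hF hid hz (LS_id z)

theorem sc_mul (H : Hyp S T K O) (hF : Cld L O F) {z y t : K} (hz : z ∉ F)
    (hy : y ∈ cl L O (insert z F)) (hyF : y ∉ F) (ht : t ∈ cl L O (insert y F)) :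
    sc L O F z t = sc L O F y t * sc L O F z y := by
  obtain ⟨h, hh, rfl⟩ := exists_fun1 H.val hy
  obtain ⟨g, hg, rfl⟩ := exists_fun1 H.val ht
  have h1 := sc_spec H hF hh hz
  have h2 := sc_spec H hF hg hyF
  have hgh : DF1 L O F (fun u => g (h u)) := DF1.app hg hh
  exact sc_eq H hF hgh hz (LS_comp h1 h2)

theorem NN_sc (H : Hyp S T K O) (hF : Cld L O F) {z y : K} (hz : z ∉ F)
    (hy : y ∈ cl L O (insert z F)) (hyF : y ∉ F) {γ : O.ValueGroup} :
    sc L O F z y * γ ∈ NN O F y ↔ γ ∈ NN O F z := by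
  obtain ⟨h, hh, rfl⟩ := exists_fun1 H.val hy
  exact N2' H hF hh hz hyF (sc_spec H hF hh hz)

theorem sc_near (H : Hyp S T K O) (hF : Cld L O F) {f : K → K} (hf : DF1 L O F f) {z z' : K}
    (h : Near O F z z') :
    O.valuation (f z' - f z) = sc L O F z (f z) * O.valuation (z' - z) := by
  have hz : z ∉ F := (near_not_mem h).1
  exact N2 H hF hf (sc_spec H hF hf hz) h (near_refl hz)

end

end Pool.Agent.MP_e9d743_lc
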