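import Mathlib
import Pool.Agent.Lib.MP_e9d743_lc.B14_sc

/-!
# (Uniq)

Task T0. By symmetry suppose `μ₂ < μ₁`. `g z = f₁ z - f₂ z` is definable over `F` and
`LS O g y μ₁` (`LS_sub`), `μ₁ ≠ 0` so `e = g y ∉ F` (`LS_zero`), and `f₁ y ∉ F`. By `N2'` for `g`:
`μ₁ γ ∈ NN O F e ↔ γ ∈ NN O F y`, by `N2'` for `f₁` `μ₁ γ ∈ NN O F (f₁ y) ↔ γ ∈ NN O F y`, and
`NN O F (f₁ y) = NN O F x` (`near_NN`). So `NN O F e = NN O F x` (`μ₁ ≠ 0`). But `|e| ∈ NN O F e`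
(`0 ∈ F`) and `|e| ≤ max |x - f₁ y| |x - f₂ y|` is not in `NN O F x`.
-/

set_option autoImplicit false

open FirstOrder FirstOrder.Language

namespace Pool.Agent.MP_e9d743_lc

universe u v w

section
variable {L : FirstOrder.Language.{u, v}} {K : Type w} [Field K] [L.Structure K]
  {O : ValuationSubring K} {S : ValSymb L} {T : L.Theory} {F : Set K}

private theorem uniq_aux (H : Hyp S T K O) (hF : Cld L O F) {f₁ f₂ : K → K} (h₁ : DF1 L O F f₁)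
    (h₂ : DF1 L O F f₂) {x y : K} (hy : y ∉ F) (hn₁ : Near O F x (f₁ y))
    (hn₂ : Near O F x (f₂ y)) {μ₁ μ₂ : O.ValueGroup} (hμ₁ : LS O f₁ y μ₁)
    (hμ₂ : LS O f₂ y μ₂) (hlt : μ₂ < μ₁) : False := by
  have hμ0 : μ₁ ≠ 0 := (lt_of_le_of_lt zero_le hlt).ne'
  have hg : DF1 L O F (fun z => f₁ z - f₂ z) := DfnF.sub H.val h₁ h₂
  have hls : LS O (fun z => f₁ z - f₂ z) y μ₁ := LS_sub hμ₁ hμ₂ hlt
  have he : f₁ y - f₂ y ∉ F := fun h => hμ0 ((LS_zero H hF hg hy hls).2 h)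
  have hf : f₁ y ∉ F := (near_not_mem hn₁).2
  have hNN : NN O F (f₁ y - f₂ y) = NN O F x := by
    rw [← near_NN hn₁]
    ext γ
    have e : μ₁ * (μ₁⁻¹ * γ) = γ := mul_inv_cancel_left₀ hμ0 γ
    have a := N2' H hF hg hy he hls (γ := μ₁⁻¹ * γ)
    have b := N2' H hF h₁ hy hf hμ₁ (γ := μ₁⁻¹ * γ)
    rw [e] at a b
    exact a.trans b.symm
  have h0 : O.valuation (f₁ y - f₂ y) ∈ NN O F x := by
    rw [← hNN]
    exact ⟨0, zero_mem H.val hF, by rw [sub_zero]⟩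
  have hle : O.valuation (f₁ y - f₂ y) ≤ max (O.valuation (x - f₂ y)) (O.valuation (x - f₁ y)) := by
    rw [show f₁ y - f₂ y = (x - f₂ y) - (x - f₁ y) by ring]
    exact Valuation.map_sub _ _ _
  rcases le_max_iff.1 hle with h | h
  · exact hn₂ (NN_up h0 h)
  · exact hn₁ (NN_up h0 h)

theorem uniq (H : Hyp S T K O) (hF : Cld L O F) {f₁ f₂ : K → K} (h₁ : DF1 L O F f₁)
    (h₂ : DF1 L O F f₂) {x y : K} (hy : y ∉ F) (hn₁ : Near O F x (f₁ y))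
    (hn₂ : Near O F x (f₂ y)) {μ₁ μ₂ : O.ValueGroup} (hμ₁ : LS O f₁ y μ₁)
    (hμ₂ : LS O f₂ y μ₂) : μ₁ = μ₂ := by
  rcases lt_trichotomy μ₁ μ₂ with h | h | h
  · exact (uniq_aux H hF h₂ h₁ hy hn₂ hn₁ hμ₂ hμ₁ h).elim
  · exact h
  · exact (uniq_aux H hF h₁ h₂ hy hn₁ hn₂ hμ₁ hμ₂ h).elim

end

end Pool.Agent.MP_e9d743_lc
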