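import Mathlib
import Pool.Agent.Lib.MP_e9d743_lc.T0_Uniq

/-!
# Tight sets

Task T2. `zorn`: apply Zorn's lemma to the closed sets `F` with `A ⊆ F` and `κ ∉ NN O F b`
(`cl L O A` is one: `cld_cl`, `subset_cl`; the union of a non-empty chain is closed by `cl_fin`).
Let `F` be maximal. For `x ∉ F` the set `cl (insert x F)` is closed and strictly larger, so there is
`c ∈ cl (insert x F)` with `|b - c| ≤ κ`, so `Near O F b c` (`near_of_le`), `c = h x` with `h` definable
over `F` (`exists_fun1`). For `x, y ∉ F`: `Near O F (h x) (h' y)` (`near_symm`, `near_trans`). `N3` for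
`h` at `x` and the point `h' y`: there is `x' ∈ cl (insert (h' y) F) ⊆ cl (insert y F)` with
`Near O F x x'`, and `x' = f y` by `exists_fun1`.
`noMin`: suppose `c ∈ M` has `|x - c| ≤ |x - d|` for all `d ∈ M`. `u = x - c ∉ M` (`add_mem`), so `u ∉ F`.
Take `y ∈ M`, `y ∉ F`, `f` with `Near O F u (f y)`; `f y ∈ M` (`fun1_mem`, `DfnF.mono`), and
`|u - f y| < |u - 0| = |x - c|` (`near_iff`, `0 ∈ F`), so `d = c + f y ∈ M` is closer to `x`.
-/

set_option autoImplicit false

open FirstOrder FirstOrder.Language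

namespace Pool.Agent.MP_e9d743_lc

universe u v w

section
variable {L : FirstOrder.Language.{u, v}} {K : Type w} [Field K] [L.Structure K]
  {O : ValuationSubring K} {S : ValSymb L} {T : L.Theory} {F : Set K}

/-- `F` is closed, and every `x ∉ F` is near a value `f y` for every `y ∉ F` -/
def Tight (L : FirstOrder.Language.{u, v}) {K : Type w} [Field K] [L.Structure K]
    (O : ValuationSubring K) (F : Set K) : Prop :=
  Cld L O F ∧ ∀ x ∉ F, ∀ y ∉ F, ∃ f : K → K, DF1 L O F f ∧ Near O F x (f y)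

theorem zorn (H : Hyp S T K O) {A : Set K} {b : K} {κ : O.ValueGroup}
    (hκ : κ ∉ NN O (cl L O A) b) : ∃ F, A ⊆ F ∧ Tight L O F ∧ κ ∉ NN O F b := by
  obtain ⟨F, hAF, hmax⟩ := zorn_subset_nonempty {F : Set K | Cld L O F ∧ κ ∉ NN O F b} (by
    intro c hc hchain hne
    refine ⟨⋃₀ c, ⟨?_, ?_⟩, fun s hs => Set.subset_sUnion_of_mem hs⟩
    · intro x hx
      obtain ⟨F₀, hfin, hsub, hx0⟩ := cl_fin hx
      obtain ⟨G, hG, hF₀G⟩ :=
        hchain.directedOn.exists_mem_subset_of_finite_of_subset_sUnion hne hfin hsub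
      exact ⟨G, hG, (hc hG).1 (cl_mono hF₀G hx0)⟩
    · rintro ⟨d, ⟨G, hG, hdG⟩, hd⟩
      exact (hc hG).2 ⟨d, hdG, hd⟩) (cl L O A) ⟨cld_cl H.val, hκ⟩
  have hF : Cld L O F := hmax.prop.1
  have hb : κ ∉ NN O F b := hmax.prop.2
  -- a function with value near `b`
  have key : ∀ x ∉ F, ∃ h : K → K, DF1 L O F h ∧ Near O F b (h x) := by
    intro x hx
    by_contra hcon
    have hG : cl L O (insert x F) ∈ {F : Set K | Cld L O F ∧ κ ∉ NN O F b} := by
      refine ⟨cld_cl H.val, ?_⟩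
      rintro ⟨d, hd, hbd⟩
      obtain ⟨h, hh, rfl⟩ := exists_fun1 H.val hd
      exact hcon ⟨h, hh, near_of_le hb hbd⟩
    have hsub : F ⊆ cl L O (insert x F) := (Set.subset_insert _ _).trans (subset_cl H.val)
    exact hx (hmax.le_of_ge hG hsub (subset_cl H.val (Set.mem_insert _ _)))
  refine ⟨F, (subset_cl H.val).trans hAF, ⟨hF, ?_⟩, hb⟩
  intro x hx y hy
  obtain ⟨h, hh, hn⟩ := key x hx
  obtain ⟨h', hh', hn'⟩ := key y hy
  have hnn : Near O F (h x) (h' y) := near_trans (near_symm hn) hn'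
  obtain ⟨μ, hμ⟩ := LS_exists H hF hh hx
  obtain ⟨x', hx', -, -, hnear⟩ := N3 H hF hh hx hμ hnn
  have hsub : cl L O (insert (h' y) F) ⊆ cl L O (insert y F) := by
    refine (cl_sub_iff H.val (cld_cl H.val)).2 (Set.insert_subset (fun1_mem_cl H.val hh' y) ?_)
    exact (Set.subset_insert _ _).trans (subset_cl H.val)
  obtain ⟨f, hf, rfl⟩ := exists_fun1 H.val (hsub hx')
  exact ⟨f, hf, hnear⟩

theorem noMin (H : Hyp S T K O) (hF : Tight L O F) {M : Set K} (hM : Cld L O M) (hFM : F ⊆ M)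
    {y : K} (hyM : y ∈ M) (hyF : y ∉ F) {x : K} (hx : x ∉ M) {c : K} (hc : c ∈ M) :
    ∃ d ∈ M, O.valuation (x - d) < O.valuation (x - c) := by
  have hu : x - c ∉ F := by
    intro h
    have h1 := add_mem H.val hM (hFM h) hc
    rw [sub_add_cancel] at h1
    exact hx h1
  obtain ⟨f, hf, hn⟩ := hF.2 (x - c) hu y hyF
  have hfy : f y ∈ M := fun1_mem H.val hM (DfnF.mono hf hFM) hyM
  refine ⟨c + f y, add_mem H.val hM hc hfy, ?_⟩
  have h1 := near_iff.1 hn 0 (zero_mem H.val hF.1)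
  rw [sub_zero] at h1
  rwa [← sub_sub]

end

end Pool.Agent.MP_e9d743_lc
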