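import Mathlib
import Pool.Agent.Lib.MP_e9d743_lc.T2_Zorn

/-!
# The norm

Task T4. `μ x` is the scale at `b₀` of any `f` definable over `F` with `Near O F x (f b₀)`
(well defined by `uniq` with `y = b₀`), and `0` for `x ∈ F`.
* `zero`: `f b₀ ∉ F` (`near_not_mem`) and `LS_zero`.
* `nn`: `NN O F x = NN O F (f b₀)` (`near_NN`) and `N2'`.
* `near`: `near_trans`, `near_symm`; if `Near O F x y` then `x, y ∉ F`.
* `comp`: `y = h x`, `h` definable over `F`, `LS O h x κ` with `κ = sc L O F x y` (`sc_spec`). If `y ∈ F`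
  then `κ = 0` (`sc_zero`). Otherwise `Near O F (h x) (h (f b₀))` (`N2_near`), so `μ y` is the scale of
  `h ∘ f` at `b₀` which is `κ * μ x` (`LS_comp`, `LS_near`).
* `μ b₀ = 1`: `f = id`.
-/

set_option autoImplicit false

open FirstOrder FirstOrder.Language

namespace Pool.Agent.MP_e9d743_lc

universe u v w

section
variable {L : FirstOrder.Language.{u, v}} {K : Type w} [Field K] [L.Structure K]
  {O : ValuationSubring K} {S : ValSymb L} {T : L.Theory} {F : Set K}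

/-- a norm: `μ x` is the scale of `x` -/
structure IsNorm (L : FirstOrder.Language.{u, v}) {K : Type w} [Field K] [L.Structure K]
    (O : ValuationSubring K) (F : Set K) (N₀ : Set O.ValueGroup) (μ : K → O.ValueGroup) :
    Prop where
  zero : ∀ x, μ x = 0 ↔ x ∈ F
  nn : ∀ x ∉ F, ∀ γ, μ x * γ ∈ NN O F x ↔ γ ∈ N₀
  comp : ∀ x ∉ F, ∀ y ∈ cl L O (insert x F), μ y = sc L O F x y * μ x
  near : ∀ x y, Near O F x y → μ y = μ x

theorem exists_norm (H : Hyp S T K O) (hF : Tight L O F) {b₀ : K} (hb : b₀ ∉ F) :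
    ∃ μ : K → O.ValueGroup, IsNorm L O F (NN O F b₀) μ ∧ μ b₀ = 1 := by
  classical
  have hF1 := hF.1
  have hex : ∀ x : K, ∃ m : O.ValueGroup, (x ∈ F → m = 0) ∧
      (x ∉ F → ∃ f : K → K, DF1 L O F f ∧ Near O F x (f b₀) ∧ LS O f b₀ m) := by
    intro x
    by_cases hx : x ∈ F
    · exact ⟨0, fun _ => rfl, fun h => absurd hx h⟩
    · obtain ⟨f, hf, hn⟩ := hF.2 x hx b₀ hb
      obtain ⟨m, hm⟩ := LS_exists H hF1 hf hb
      exact ⟨m, fun h => absurd h hx, fun _ => ⟨f, hf, hn, hm⟩⟩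
  choose μ h0 h1 using hex
  have huniq : ∀ x ∉ F, ∀ f : K → K, DF1 L O F f → Near O F x (f b₀) → ∀ ν : O.ValueGroup,
      LS O f b₀ ν → μ x = ν := by
    intro x hx f hf hn ν hν
    obtain ⟨g, hg, hgn, hgs⟩ := h1 x hx
    exact uniq H hF1 hg hf hb hgn hn hgs hν
  refine ⟨μ, ⟨?_, ?_, ?_, ?_⟩, ?_⟩
  · intro x
    constructor
    · intro hx
      by_contra hxF
      obtain ⟨g, hg, hgn, hgs⟩ := h1 x hxF
      exact (near_not_mem hgn).2 ((LS_zero H hF1 hg hb hgs).1 hx)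
    · exact h0 x
  · intro x hx γ
    obtain ⟨g, hg, hgn, hgs⟩ := h1 x hx
    rw [← near_NN hgn]
    exact N2' H hF1 hg hb (near_not_mem hgn).2 hgs
  · intro x hx y hy
    obtain ⟨h, hh, rfl⟩ := exists_fun1 H.val hy
    have hsp := sc_spec H hF1 hh hx
    by_cases hyF : h x ∈ F
    · rw [h0 _ hyF, (sc_zero H hF1 hx hy).2 hyF, zero_mul]
    · obtain ⟨g, hg, hgn, hgs⟩ := h1 x hx
      refine huniq _ hyF (fun z => h (g z)) ?_ ?_ _ ?_
      · exact DF1.app hh hg
      · exact N2_near H hF1 hh hgn hyF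
      · exact LS_comp hgs (LS_near H hF1 hh hsp hgn)
  · intro x y hxy
    obtain ⟨hx, hy⟩ := near_not_mem hxy
    obtain ⟨g, hg, hgn, hgs⟩ := h1 x hx
    exact huniq y hy g hg (near_trans (near_symm hxy) hgn) _ hgs
  · exact huniq b₀ hb (fun z => z) (DfnF.var ()) (near_refl hb) 1 (LS_id b₀)

end

end Pool.Agent.MP_e9d743_lc
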