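import Mathlib
import Pool.Agent.Lib.MP_e9d743_lc.B14_sc

/-!
# Independent families

Task T5. `cl` is a pregeometry by `exch'` (for closed `F`; in general use `cl_union_cl`,
`cl_insert_cl`, `cl_mono`).
* `exch_set`: `exch'` over `cl F`.
* `indep_mem`: let `J` be a minimal (finite) set of indices with `e ∈ cl (F ∪ x '' J)`; it is not
  empty as `e ∉ F`; for `i ∈ J` `exch_set` gives `x i ∈ cl (insert e (F ∪ x '' (J \ {i})))`.
* `indep_option`: `y k ∉ cl (F ∪ {b} ∪ y '' {k}ᶜ)` is the hypothesis; if `b ∈ cl (F ∪ range y)` then by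
  `indep_mem`-like exchange some `y k ∈ cl (insert b (F ∪ y '' {k}ᶜ))` (as `b ∉ F`), contradiction.
* `rank_le`: by induction on the number of elements of `Z` not of the form `x i`, or any proof of the
  exchange lemma of Steinitz.
* `indep_sub`: subfamilies.
-/

set_option autoImplicit false

open FirstOrder FirstOrder.Language

namespace Pool.Agent.MP_e9d743_lc

universe u v w

section
variable {L : FirstOrder.Language.{u, v}} {K : Type w} [Field K] [L.Structure K]
  {O : ValuationSubring K} {S : ValSymb L} {T : L.Theory} {F : Set K}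

/-- the family `x` is independent over `F` -/
def Indep (L : FirstOrder.Language.{u, v}) {K : Type w} [Field K] [L.Structure K]
    (O : ValuationSubring K) (F : Set K) {ι : Type} (x : ι → K) : Prop :=
  ∀ i, x i ∉ cl L O (F ∪ x '' {i}ᶜ)

/-- the scale in the direction `i` of the element `y` of `cl (F ∪ range x)` -/
noncomputable def dsc (L : FirstOrder.Language.{u, v}) {K : Type w} [Field K] [L.Structure K]
    (O : ValuationSubring K) (F : Set K) {ι : Type} (x : ι → K) (i : ι) (y : K) :
    O.ValueGroup :=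
  sc L O (cl L O (F ∪ x '' {i}ᶜ)) (x i) y

theorem exch_set (H : Hyp S T K O) {x y : K} (hy : y ∈ cl L O (insert x F))
    (hyF : y ∉ cl L O F) : x ∈ cl L O (insert y F) := by
  rw [← cl_insert_cl H.val] at hy ⊢
  exact exch' H (cld_cl H.val) hy hyF

theorem indep_mem (H : Hyp S T K O) (hF : Cld L O F) {ι : Type} [Finite ι] {x : ι → K} {e : K}
    (he : e ∈ cl L O (F ∪ Set.range x)) (heF : e ∉ F) :
    ∃ i, x i ∈ cl L O (insert e (F ∪ x '' {i}ᶜ)) := by
  obtain ⟨J, hJ, hmin⟩ := WellFounded.has_min (wellFounded_lt (α := Set ι))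
    {J : Set ι | e ∈ cl L O (F ∪ x '' J)} ⟨Set.univ, by
      show e ∈ cl L O (F ∪ x '' Set.univ)
      rwa [Set.image_univ]⟩
  have hJ' : e ∈ cl L O (F ∪ x '' J) := hJ
  have hne : J.Nonempty := by
    rw [Set.nonempty_iff_ne_empty]
    rintro rfl
    rw [Set.image_empty, Set.union_empty] at hJ'
    exact heF (hF hJ')
  obtain ⟨i, hi⟩ := hne
  have hlt : J \ {i} < J := by
    refine ⟨Set.diff_subset, fun h => ?_⟩
    exact (h hi).2 rfl
  have hnot : e ∉ cl L O (F ∪ x '' (J \ {i})) := fun h => hmin _ h hlt
  have hins : F ∪ x '' J = insert (x i) (F ∪ x '' (J \ {i})) := by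
    have h1 : J = insert i (J \ {i}) := by
      rw [Set.insert_diff_singleton, Set.insert_eq_of_mem hi]
    conv_lhs => rw [h1]
    rw [Set.image_insert_eq, Set.union_insert]
  rw [hins] at hJ'
  refine ⟨i, cl_mono ?_ (exch_set H hJ' hnot)⟩
  refine Set.insert_subset_insert (Set.union_subset_union_right _ (Set.image_mono ?_))
  intro j hj
  exact hj.2

theorem indep_option (H : Hyp S T K O) (hF : Cld L O F) {κ : Type} [Finite κ] {y : κ → K}
    {b : K} (hb : b ∉ F) (hy : Indep L O (cl L O (insert b F)) y) :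
    Indep L O F (fun o : Option κ => o.elim b y) := by
  have hy' : ∀ k, y k ∉ cl L O (insert b (F ∪ y '' {k}ᶜ)) := by
    intro k
    have h1 := hy k
    rw [cl_union_cl H.val, Set.insert_union] at h1
    exact h1
  rintro (_ | k) hmem
  · have h1 : F ∪ (fun o : Option κ => o.elim b y) '' {none}ᶜ ⊆ F ∪ Set.range y := by
      refine Set.union_subset_union_right _ ?_
      rintro _ ⟨(_ | k), hk, rfl⟩
      · exact absurd rfl hk
      · exact ⟨k, rfl⟩
    obtain ⟨k, hk⟩ := indep_mem H hF (cl_mono h1 hmem) hb
    exact hy' k hk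
  · refine hy' k (cl_mono ?_ hmem)
    refine Set.union_subset (Set.subset_union_left.trans (Set.subset_insert _ _)) ?_
    rintro _ ⟨(_ | j), hj, rfl⟩
    · exact Or.inl rfl
    · refine Or.inr (Or.inr ⟨j, ?_, rfl⟩)
      intro h
      exact hj (congrArg some h)

theorem rank_le (H : Hyp S T K O) {ι : Type} [Finite ι] {x : ι → K} (hx : Indep L O F x)
    {Z : Finset K} (h : ∀ i, x i ∈ cl L O (F ∪ Z)) : Nat.card ι ≤ Z.card := by
  classical
  induction Z using Finset.induction_on generalizing F ι with
  | empty =>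
    have : IsEmpty ι := by
      refine ⟨fun i => hx i ?_⟩
      have h1 := h i
      rw [Finset.coe_empty, Set.union_empty] at h1
      exact cl_mono Set.subset_union_left h1
    simp
  | insert z Z hz ih =>
    rw [Finset.card_insert_of_notMem hz]
    by_cases hall : ∀ i, x i ∈ cl L O (F ∪ Z)
    · exact (ih hx hall).trans (Nat.le_succ _)
    · push Not at hall
      obtain ⟨i₀, hi₀⟩ := hall
      have h1 : ∀ i, x i ∈ cl L O (insert z (F ∪ Z)) := by
        intro i
        have h2 := h i
        rwa [Finset.coe_insert, Set.union_insert] at h2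
      have hz' : z ∈ cl L O (insert (x i₀) (F ∪ Z)) := exch_set H (h1 i₀) hi₀
      have h3 : ∀ i, x i ∈ cl L O (insert (x i₀) F ∪ Z) := by
        intro i
        rw [Set.insert_union]
        refine (cl_sub_iff H.val (cld_cl H.val)).2 ?_ (h1 i)
        exact Set.insert_subset hz' ((Set.subset_insert _ _).trans (subset_cl H.val))
      have h4 : Indep L O (insert (x i₀) F) (fun i : {i : ι // i ≠ i₀} => x i) := by
        intro i hi
        refine hx i (cl_mono ?_ hi)
        refine Set.union_subset (Set.insert_subset (Or.inr ⟨i₀, fun h => i.2 h.symm, rfl⟩)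
          Set.subset_union_left) ?_
        rintro _ ⟨j, hj, rfl⟩
        refine Or.inr ⟨j, ?_, rfl⟩
        intro h
        exact hj (Subtype.ext h)
      have h5 := ih h4 (fun i => h3 i)
      have h6 : Nat.card ι = Nat.card {i : ι // i ≠ i₀} + 1 := by
        rw [← Nat.card_congr (Equiv.optionSubtypeNe i₀), Finite.card_option]
      omega

theorem indep_sub {ι κ : Type} {x : ι → K} (hx : Indep L O F x) {g : κ → ι}
    (hg : Function.Injective g) : Indep L O F (fun k => x (g k)) := by
  intro k hk
  refine hx (g k) (cl_mono (Set.union_subset_union_right _ ?_) hk)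
  rintro _ ⟨j, hj, rfl⟩
  exact ⟨g j, fun h => hj (hg h), rfl⟩

end

end Pool.Agent.MP_e9d743_lc
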