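import Mathlib
import Pool.Agent.Lib.MP_e9d743_lc.T5_Indep

/-!
# Definable sets contain polydiscs around independent points

Task T5b. Induction on the finite type `ι` (`Finite.induction_empty_option`), for all `F`.
`Option ι`: let `F' = cl (insert (x none) F)` (closed); `fun i => x (some i)` is independent over `F'`.
`F'' = cl (F ∪ range (x ∘ some))` is closed and `x none ∉ F''`, the set `{t | X (t, x ∘ some)}` is
definable over `F''`, so by `P0` there is `c ∈ F''`, with `ρ₀ = |x none - c| > 0` and `X (t, x ∘ some)` if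
`|t - x none| < ρ₀`. `Y u := ∀ t, |t - x none| < ρ₀ → X (t, u)` is definable over `F'` (`ρ₀` is a
constant of the value group: `DV.constV`) and holds at `x ∘ some`; induction for `Y` over `F'`.
-/

set_option autoImplicit false

open FirstOrder FirstOrder.Language

namespace Pool.Agent.MP_e9d743_lc

universe u v w

section
variable {L : FirstOrder.Language.{u, v}} {K : Type w} [Field K] [L.Structure K]
  {O : ValuationSubring K} {S : ValSymb L} {T : L.Theory} {F : Set K}

private theorem T5b_step (H : Hyp S T K O) {α : Type} [Finite α]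
    (ih : ∀ F : Set K, Cld L O F → ∀ x : α → K, Indep L O F x → ∀ X : (α → K) → Prop,
      Dfn L O F X → X x → ∃ ρ : O.ValueGroup, 0 < ρ ∧
        ∀ z : α → K, (∀ i, O.valuation (z i - x i) < ρ) → X z)
    {x : Option α → K} (hx : Indep L O F x) {X : (Option α → K) → Prop}
    (hX : Dfn L O F X) (h : X x) : ∃ ρ : O.ValueGroup, 0 < ρ ∧
      ∀ z : Option α → K, (∀ i, O.valuation (z i - x i) < ρ) → X z := by
  have hK := H.val
  have hset : ∀ u : Option α → K, (fun o : Option α => o.elim (u none) (fun k => u (some k))) = u := by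
    intro u
    funext o
    cases o <;> rfl
  -- the first coordinate
  have hF2 : Cld L O (cl L O (F ∪ Set.range fun k => x (some k))) := cld_cl hK
  have hx0 : x none ∉ cl L O (F ∪ Set.range fun k => x (some k)) := by
    intro hmem
    refine hx none (cl_mono (Set.union_subset_union_right F ?_) hmem)
    rintro _ ⟨k, rfl⟩
    exact ⟨some k, by simp, rfl⟩
  have hD : D1 L O (cl L O (F ∪ Set.range fun k => x (some k)))
      {t | X (fun o => o.elim t (fun k => x (some k)))} := by
    refine Dfn.subst (hX.mono (Set.subset_union_left.trans (subset_cl hK)))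
      (t := fun v : Unit → K => fun o : Option α => o.elim (v ()) (fun k => x (some k))) ?_
    rintro (_ | k)
    · exact DfnF.var ()
    · exact DfnF.const (subset_cl hK (Or.inr ⟨k, rfl⟩))
  obtain ⟨c, hc, hc2⟩ := P0 H hF2 hD (x := x none)
    (by show X _; rw [hset]; exact h) hx0
  have hρ0 : 0 < O.valuation (x none - c) := by
    refine zero_lt_iff.2 ((Valuation.ne_zero_iff _).2 ?_)
    intro h0
    exact hx0 (by rw [sub_eq_zero.1 h0]; exact hc)
  -- the other coordinates
  have hF1 : Cld L O (cl L O (insert (x none) F)) := cld_cl hK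
  have hy : Indep L O (cl L O (insert (x none) F)) (fun k => x (some k)) := by
    intro k hk
    rw [cl_union_cl hK] at hk
    refine hx (some k) (cl_mono ?_ hk)
    refine Set.union_subset (Set.insert_subset (Or.inr ⟨none, by simp, rfl⟩)
      Set.subset_union_left) ?_
    rintro _ ⟨j, hj, rfl⟩
    refine Or.inr ⟨some j, ?_, rfl⟩
    intro hjk
    exact hj (Option.some_injective _ hjk)
  have hY : Dfn L O (cl L O (insert (x none) F)) (fun u : α → K => ∀ t : K,
      O.valuation (t - x none) < O.valuation (x none - c) →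
        X (fun o => o.elim t (fun k => u k))) := by
    refine Dfn.all (Dfn.imp ?_ ?_)
    · exact Dfn.vlt hK (DV.val hK (DfnF.sub hK (DfnF.var none)
        (DfnF.const (subset_cl hK (Set.mem_insert _ _))))) (DV.constV hK _)
    · refine Dfn.congr (hX.mono ((Set.subset_insert _ _).trans (subset_cl hK))) fun v => ?_
      rw [← hset v]
      rfl
  obtain ⟨ρ1, hρ1, h1⟩ := ih _ hF1 _ hy _ hY (fun t ht => hc2 t ht)
  refine ⟨min (O.valuation (x none - c)) ρ1, lt_min hρ0 hρ1, fun z hz => ?_⟩
  have h2 := h1 (fun k => z (some k)) (fun k => (hz (some k)).trans_le (min_le_right _ _))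
    (z none) ((hz none).trans_le (min_le_left _ _))
  rw [hset] at h2
  exact h2

theorem indep_open (H : Hyp S T K O) (hF : Cld L O F) {ι : Type} [Finite ι] {x : ι → K}
    (hx : Indep L O F x) {X : (ι → K) → Prop} (hX : Dfn L O F X) (h : X x) :
    ∃ ρ : O.ValueGroup, 0 < ρ ∧ ∀ z : ι → K, (∀ i, O.valuation (z i - x i) < ρ) → X z := by
  have main : ∀ F : Set K, Cld L O F → ∀ x : ι → K, Indep L O F x → ∀ X : (ι → K) → Prop,
      Dfn L O F X → X x → ∃ ρ : O.ValueGroup, 0 < ρ ∧
        ∀ z : ι → K, (∀ i, O.valuation (z i - x i) < ρ) → X z := by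
    refine Finite.induction_empty_option (P := fun ι : Type => ∀ F : Set K, Cld L O F →
      ∀ x : ι → K, Indep L O F x → ∀ X : (ι → K) → Prop,
      Dfn L O F X → X x → ∃ ρ : O.ValueGroup, 0 < ρ ∧
        ∀ z : ι → K, (∀ i, O.valuation (z i - x i) < ρ) → X z) ?_ ?_ ?_ ι
    · intro α β e hα F hF x hx X hX h
      obtain ⟨ρ, hρ, h1⟩ := hα F hF (fun a => x (e a)) (indep_sub hx e.injective)
        (fun u => X (fun b => u (e.symm b))) (hX.ren e.symm) (by simpa using h)
      refine ⟨ρ, hρ, fun z hz => ?_⟩
      have h2 := h1 (fun a => z (e a)) (fun a => hz (e a))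
      simpa using h2
    · intro F hF x hx X hX h
      refine ⟨1, zero_lt_one, fun z _ => ?_⟩
      have : z = x := Subsingleton.elim _ _
      rw [this]
      exact h
    · intro α _ ih F _ x hx X hX h
      exact T5b_step H ih hx hX h
  exact main F hF x hx X hX h

end

end Pool.Agent.MP_e9d743_lc
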