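import Mathlib
import Pool.Agent.Lib.MP_e9d743_lc.B7_P0

/-!
# Functions that scale in each variable

Task T6a. `Loc O G x μ`: on a polydisc around `x` the function `G` scales by `μ i` in the direction
`i`. `loc_le`, `loc_eq`, `loc_rev`: change one variable at a time (induction over a finite set of
indices, `Function.update`) and use the ultrametric inequality.
`loc_eq` and `loc_rev` follow from `loc_le` and one step in the direction `i₀`:
`ξ' → ξ₁ = update ξ i₀ (ξ' i₀)`, `|G ξ₁ - G ξ| = μ i₀ |ξ' i₀ - ξ i₀|`, `|G ξ' - G ξ₁| ≤ B` by `loc_le`.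
-/

set_option autoImplicit false

open FirstOrder FirstOrder.Language

namespace Pool.Agent.MP_e9d743_lc

universe u v w

section
variable {L : FirstOrder.Language.{u, v}} {K : Type w} [Field K] [L.Structure K]
  {O : ValuationSubring K} {S : ValSymb L} {T : L.Theory} {F : Set K}

/-- on a polydisc around `x` the function `G` scales by `μ i` in the direction `i` -/
def Loc (O : ValuationSubring K) {ι : Type} [DecidableEq ι] (G : (ι → K) → K) (x : ι → K)
    (μ : ι → O.ValueGroup) : Prop :=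
  ∃ ρ : O.ValueGroup, 0 < ρ ∧ ∀ (i : ι) (ξ : ι → K) (t : K),
    (∀ j, O.valuation (ξ j - x j) < ρ) → O.valuation (t - x i) < ρ →
      O.valuation (G (Function.update ξ i t) - G ξ) = μ i * O.valuation (t - ξ i)

private theorem loc_aux {ι : Type} [Finite ι] [DecidableEq ι] {G : (ι → K) → K} {x : ι → K}
    {μ : ι → O.ValueGroup} {ρ : O.ValueGroup} (h : ∀ (i : ι) (ξ : ι → K) (t : K),
      (∀ j, O.valuation (ξ j - x j) < ρ) → O.valuation (t - x i) < ρ →
      O.valuation (G (Function.update ξ i t) - G ξ) = μ i * O.valuation (t - ξ i))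
    {ξ ξ' : ι → K} (hξ : ∀ j, O.valuation (ξ j - x j) < ρ)
    (hξ' : ∀ j, O.valuation (ξ' j - x j) < ρ) (P : O.ValueGroup → Prop) (h0 : P 0)
    (hmax : ∀ a b c, P a → P b → c ≤ max a b → P c)
    (hP : ∀ i, P (μ i * O.valuation (ξ' i - ξ i))) : P (O.valuation (G ξ' - G ξ)) := by
  classical
  have := Fintype.ofFinite ι
  have key : ∀ s : Finset ι, P (O.valuation (G (fun j => if j ∈ s then ξ' j else ξ j) - G ξ)) := by
    intro s
    induction s using Finset.induction_on with
    | empty => simpa using h0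
    | insert i s hi ih =>
      have e : (fun j => if j ∈ insert i s then ξ' j else ξ j) =
          Function.update (fun j => if j ∈ s then ξ' j else ξ j) i (ξ' i) := by
        funext j
        by_cases hj : j = i
        · subst hj
          simp
        · simp [Finset.mem_insert, hj]
      have hmem : ∀ j, O.valuation ((if j ∈ s then ξ' j else ξ j) - x j) < ρ := by
        intro j
        split_ifs
        · exact hξ' j
        · exact hξ j
      have h1 := h i (fun j => if j ∈ s then ξ' j else ξ j) (ξ' i) hmem (hξ' i)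
      rw [← e] at h1
      simp only [hi, if_false] at h1
      refine hmax _ _ _ (hP i) ih ?_
      rw [← h1]
      have e2 : G (fun j => if j ∈ insert i s then ξ' j else ξ j) - G ξ =
          (G (fun j => if j ∈ insert i s then ξ' j else ξ j) -
            G (fun j => if j ∈ s then ξ' j else ξ j)) +
          (G (fun j => if j ∈ s then ξ' j else ξ j) - G ξ) := by ring
      rw [e2]
      exact Valuation.map_add _ _ _
  simpa using key Finset.univ

theorem loc_le {ι : Type} [Finite ι] [DecidableEq ι] {G : (ι → K) → K} {x : ι → K}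
    {μ : ι → O.ValueGroup} (h : Loc O G x μ) : ∃ ρ : O.ValueGroup, 0 < ρ ∧ ∀ ξ ξ' : ι → K,
      (∀ j, O.valuation (ξ j - x j) < ρ) → (∀ j, O.valuation (ξ' j - x j) < ρ) →
      ∀ B : O.ValueGroup, (∀ i, μ i * O.valuation (ξ' i - ξ i) ≤ B) →
        O.valuation (G ξ' - G ξ) ≤ B := by
  obtain ⟨ρ, hρ, h⟩ := h
  exact ⟨ρ, hρ, fun ξ ξ' hξ hξ' B hB => loc_aux h hξ hξ' (fun a => a ≤ B) zero_le
    (fun a b c ha hb hc => hc.trans (max_le ha hb)) hB⟩

private theorem loc_step {ι : Type} [DecidableEq ι] {x ξ ξ' : ι → K} {ρ : O.ValueGroup}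
    (hξ : ∀ j, O.valuation (ξ j - x j) < ρ) (hξ' : ∀ j, O.valuation (ξ' j - x j) < ρ) (i₀ : ι) :
    ∀ j, O.valuation (Function.update ξ i₀ (ξ' i₀) j - x j) < ρ := by
  intro j
  by_cases hj : j = i₀
  · subst hj
    simpa using hξ' j
  · simpa [Function.update_of_ne hj] using hξ j

theorem loc_eq {ι : Type} [Finite ι] [DecidableEq ι] {G : (ι → K) → K} {x : ι → K}
    {μ : ι → O.ValueGroup} (h : Loc O G x μ) : ∃ ρ : O.ValueGroup, 0 < ρ ∧ ∀ ξ ξ' : ι → K,
      (∀ j, O.valuation (ξ j - x j) < ρ) → (∀ j, O.valuation (ξ' j - x j) < ρ) →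
      ∀ i₀ : ι, (∀ i, i ≠ i₀ → μ i * O.valuation (ξ' i - ξ i) <
        μ i₀ * O.valuation (ξ' i₀ - ξ i₀)) →
        O.valuation (G ξ' - G ξ) = μ i₀ * O.valuation (ξ' i₀ - ξ i₀) := by
  obtain ⟨ρ, hρ, h⟩ := h
  refine ⟨ρ, hρ, fun ξ ξ' hξ hξ' i₀ hi => ?_⟩
  rcases eq_or_ne (μ i₀ * O.valuation (ξ' i₀ - ξ i₀)) 0 with hM | hM
  · rw [hM]
    refine le_antisymm ?_ zero_le
    refine loc_aux h hξ hξ' (fun a => a ≤ 0) le_rfl
      (fun a b c ha hb hc => hc.trans (max_le ha hb)) fun i => ?_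
    by_cases hii : i = i₀
    · subst hii
      exact hM.le
    · exact (hM ▸ (hi i hii)).le
  · have hM' : 0 < μ i₀ * O.valuation (ξ' i₀ - ξ i₀) := zero_lt_iff.2 hM
    have h1 := h i₀ ξ (ξ' i₀) hξ (hξ' i₀)
    have h2 : O.valuation (G ξ' - G (Function.update ξ i₀ (ξ' i₀))) <
        μ i₀ * O.valuation (ξ' i₀ - ξ i₀) := by
      refine loc_aux h (loc_step hξ hξ' i₀) hξ'
        (fun a => a < μ i₀ * O.valuation (ξ' i₀ - ξ i₀)) hM'
        (fun a b c ha hb hc => hc.trans_lt (max_lt ha hb)) fun i => ?_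
      by_cases hii : i = i₀
      · subst hii
        simpa using hM'
      · simpa [Function.update_of_ne hii] using hi i hii
    rw [← h1] at h2 ⊢
    rw [show G ξ' - G ξ = (G ξ' - G (Function.update ξ i₀ (ξ' i₀))) +
      (G (Function.update ξ i₀ (ξ' i₀)) - G ξ) by ring]
    rw [add_comm]
    exact Valuation.map_add_eq_of_lt_left _ h2

theorem loc_rev {ι : Type} [Finite ι] [DecidableEq ι] {G : (ι → K) → K} {x : ι → K}
    {μ : ι → O.ValueGroup} (h : Loc O G x μ) : ∃ ρ : O.ValueGroup, 0 < ρ ∧ ∀ ξ ξ' : ι → K,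
      (∀ j, O.valuation (ξ j - x j) < ρ) → (∀ j, O.valuation (ξ' j - x j) < ρ) →
      ∀ (i₀ : ι) (B : O.ValueGroup), O.valuation (G ξ' - G ξ) ≤ B →
        (∀ i, i ≠ i₀ → μ i * O.valuation (ξ' i - ξ i) ≤ B) →
        μ i₀ * O.valuation (ξ' i₀ - ξ i₀) ≤ B := by
  obtain ⟨ρ, hρ, h⟩ := h
  refine ⟨ρ, hρ, fun ξ ξ' hξ hξ' i₀ B hB hi => ?_⟩
  have h1 := h i₀ ξ (ξ' i₀) hξ (hξ' i₀)
  have h2 : O.valuation (G ξ' - G (Function.update ξ i₀ (ξ' i₀))) ≤ B := by
    refine loc_aux h (loc_step hξ hξ' i₀) hξ' (fun a => a ≤ B) zero_le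
      (fun a b c ha hb hc => hc.trans (max_le ha hb)) fun i => ?_
    by_cases hii : i = i₀
    · subst hii
      simp
    · simpa [Function.update_of_ne hii] using hi i hii
  rw [← h1]
  rw [show G (Function.update ξ i₀ (ξ' i₀)) - G ξ = (G ξ' - G ξ) -
    (G ξ' - G (Function.update ξ i₀ (ξ' i₀))) by ring]
  exact (Valuation.map_sub _ _ _).trans (max_le hB h2)

end

end Pool.Agent.MP_e9d743_lc
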