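import Mathlib
import Pool.Agent.Lib.MP_e9d743_lc.T6a_Loc
import Pool.Agent.Lib.MP_e9d743_lc.T5_Open

/-!
# (Loc)

Task T6. `dfn_loc`: the quantifiers range over the value group (`Dfn.exV`), over finitely many indices
and over `K`; `μ i` are constants (`DV.constV`); `G (update ξ i t)` is `DfnF.comp`.
`loc`: `F_i = cl (F ∪ x '' {i}ᶜ)` is closed, `G_i t := G (update x i t)` is definable over `F_i`
(`DfnF.comp`, `DfnF.const`), `G_i (x i) = G x`, `x i ∉ F_i`, so `LS O G_i (x i) (dsc L O F x i (G x))`
(`sc_spec`) with a radius `ρ_i`. The property of `ξ`: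
`∀ t t', |t - ξ i| < ρ_i → |t' - ξ i| < ρ_i → |G (update ξ i t) - G (update ξ i t')| = μ_i |t - t'|`
is definable over `F` and holds at `x`, so on a polydisc (`indep_open`). Take the minimum of all radii.
`dsc_zero`: `sc_zero`; `dsc_fun` is `sc_eq` for `G_i`.
-/

set_option autoImplicit false

open FirstOrder FirstOrder.Language

namespace Pool.Agent.MP_e9d743_lc

universe u v w

section
variable {L : FirstOrder.Language.{u, v}} {K : Type w} [Field K] [L.Structure K]
  {O : ValuationSubring K} {S : ValSymb L} {T : L.Theory} {F : Set K}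

theorem dfn_loc (hK : IsValModel S K O) {ι α : Type} [Finite ι] [Finite α] [DecidableEq ι]
    {G : (ι → K) → K} (hG : DfnF L O F G) {g : (α → K) → ι → K}
    (hg : ∀ i, DfnF L O F (fun v => g v i)) (μ : ι → O.ValueGroup) :
    Dfn L O F (fun v => Loc O G (g v) μ) := by
  unfold Loc
  refine Dfn.exV (p := fun v ρ => 0 < ρ ∧ ∀ (i : ι) (ξ : ι → K) (t : K),
    (∀ j, O.valuation (ξ j - g v j) < ρ) → O.valuation (t - g v i) < ρ →
      O.valuation (G (Function.update ξ i t) - G ξ) = μ i * O.valuation (t - ξ i)) ?_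
  refine Dfn.and (Dfn.vlt hK (DV.constV hK 0) (DV.val hK (DfnF.var none))) ?_
  refine Dfn.finAll fun i => ?_
  refine Dfn.allF (p := fun (w : Option α → K) (ξ : ι → K) => ∀ t : K,
    (∀ j, O.valuation (ξ j - g (fun a => w (some a)) j) < O.valuation (w none)) →
      O.valuation (t - g (fun a => w (some a)) i) < O.valuation (w none) →
      O.valuation (G (Function.update ξ i t) - G ξ) = μ i * O.valuation (t - ξ i)) ?_
  refine Dfn.all (p := fun (w : Option α ⊕ ι → K) (t : K) =>
    (∀ j, O.valuation (w (Sum.inr j) - g (fun a => w (Sum.inl (some a))) j) <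
      O.valuation (w (Sum.inl none))) →
      O.valuation (t - g (fun a => w (Sum.inl (some a))) i) < O.valuation (w (Sum.inl none)) →
      O.valuation (G (Function.update (fun j => w (Sum.inr j)) i t) - G (fun j => w (Sum.inr j))) =
        μ i * O.valuation (t - w (Sum.inr i))) ?_
  have hρ : DV L O F (fun w : Option (Option α ⊕ ι) → K =>
      O.valuation (w (some (Sum.inl none)))) := DV.val hK (DfnF.var _)
  have hgr : ∀ j, DfnF L O F (fun w : Option (Option α ⊕ ι) → K =>
      g (fun a => w (some (Sum.inl (some a)))) j) := fun j =>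
    (hg j).ren (fun a => some (Sum.inl (some a)))
  refine Dfn.imp (Dfn.finAll fun j => ?_) (Dfn.imp ?_ ?_)
  · exact Dfn.vlt hK (DV.val hK (DfnF.sub hK (DfnF.var _) (hgr j))) hρ
  · exact Dfn.vlt hK (DV.val hK (DfnF.sub hK (DfnF.var _) (hgr i))) hρ
  · refine Dfn.veq hK (DV.val hK (DfnF.sub hK ?_ ?_))
      (DV.mul hK (DV.constV hK (μ i)) (DV.val hK (DfnF.sub hK (DfnF.var _) (DfnF.var _))))
    · refine DfnF.comp hG (t := fun (w : Option (Option α ⊕ ι) → K) =>
        Function.update (fun j => w (some (Sum.inr j))) i (w none)) fun j => ?_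
      by_cases hj : j = i
      · subst hj
        simp only [Function.update_self]
        exact DfnF.var _
      · simp only [Function.update_of_ne hj]
        exact DfnF.var _
    · exact DfnF.comp hG (t := fun (w : Option (Option α ⊕ ι) → K) j => w (some (Sum.inr j)))
        fun j => DfnF.var _

private theorem T6_upd (H : Hyp S T K O) {ι : Type} [Finite ι] [DecidableEq ι]
    {x : ι → K} {G : (ι → K) → K} (hG : DfnF L O F G) (i : ι) :
    DF1 L O (cl L O (F ∪ x '' {i}ᶜ)) (fun t => G (Function.update x i t)) := by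
  have hK := H.val
  refine DfnF.comp (hG.mono (Set.subset_union_left.trans (subset_cl hK)))
    (t := fun (v : Unit → K) => Function.update x i (v ())) fun j => ?_
  by_cases hj : j = i
  · subst hj
    simp only [Function.update_self]
    exact DfnF.var _
  · simp only [Function.update_of_ne hj]
    exact DfnF.const (subset_cl hK (Or.inr ⟨j, hj, rfl⟩))

private theorem T6_min {Γ : Type*} [LinearOrderedCommGroupWithZero Γ] {ι : Type} [Finite ι]
    (f : ι → Γ) (hf : ∀ i, 0 < f i) : ∃ ρ : Γ, 0 < ρ ∧ ∀ i, ρ ≤ f i := by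
  rcases isEmpty_or_nonempty ι with h | h
  · exact ⟨1, zero_lt_one, fun i => (h.false i).elim⟩
  · obtain ⟨i₀, h0⟩ := Finite.exists_min f
    exact ⟨f i₀, hf i₀, h0⟩

theorem dsc_spec (H : Hyp S T K O) {ι : Type} [Finite ι] [DecidableEq ι]
    {x : ι → K} (hx : Indep L O F x) {G : (ι → K) → K} (hG : DfnF L O F G) (i : ι) :
    LS O (fun t => G (Function.update x i t)) (x i) (dsc L O F x i (G x)) := by
  have h := sc_spec H (cld_cl H.val) (T6_upd H (x := x) hG i) (hx i)
  simp only [Function.update_eq_self] at h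
  exact h

theorem loc (H : Hyp S T K O) (hF : Cld L O F) {ι : Type} [Finite ι] [DecidableEq ι]
    {x : ι → K} (hx : Indep L O F x) {G : (ι → K) → K} (hG : DfnF L O F G) :
    Loc O G x (fun i => dsc L O F x i (G x)) := by
  have hK := H.val
  have h1 : ∀ i, ∃ ρ : O.ValueGroup, 0 < ρ ∧ ∃ r : O.ValueGroup, 0 < r ∧ ∀ z : ι → K,
      (∀ j, O.valuation (z j - x j) < r) → ∀ t t' : K, O.valuation (t - z i) < ρ →
        O.valuation (t' - z i) < ρ →
        O.valuation (G (Function.update z i t) - G (Function.update z i t')) =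
          dsc L O F x i (G x) * O.valuation (t - t') := by
    intro i
    obtain ⟨ρ, hρ, h2⟩ := dsc_spec H hx hG i
    refine ⟨ρ, hρ, ?_⟩
    refine indep_open H hF hx (X := fun z => ∀ t t' : K, O.valuation (t - z i) < ρ →
        O.valuation (t' - z i) < ρ →
        O.valuation (G (Function.update z i t) - G (Function.update z i t')) =
          dsc L O F x i (G x) * O.valuation (t - t')) ?_ h2
    refine Dfn.all (p := fun (z : ι → K) (t : K) => ∀ t' : K, O.valuation (t - z i) < ρ →
        O.valuation (t' - z i) < ρ →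
        O.valuation (G (Function.update z i t) - G (Function.update z i t')) =
          dsc L O F x i (G x) * O.valuation (t - t')) ?_
    refine Dfn.all (p := fun (w : Option ι → K) (t' : K) =>
        O.valuation (w none - w (some i)) < ρ → O.valuation (t' - w (some i)) < ρ →
        O.valuation (G (Function.update (fun a => w (some a)) i (w none)) -
          G (Function.update (fun a => w (some a)) i t')) =
          dsc L O F x i (G x) * O.valuation (w none - t')) ?_
    have hu : ∀ b : Option (Option ι), DfnF L O F (fun w : Option (Option ι) → K =>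
        G (Function.update (fun a => w (some (some a))) i (w b))) := by
      intro b
      refine DfnF.comp hG (t := fun (w : Option (Option ι) → K) =>
        Function.update (fun a => w (some (some a))) i (w b)) fun j => ?_
      by_cases hj : j = i
      · subst hj
        simp only [Function.update_self]
        exact DfnF.var _
      · simp only [Function.update_of_ne hj]
        exact DfnF.var _
    refine Dfn.imp (Dfn.vlt hK (DV.val hK (DfnF.sub hK (DfnF.var _) (DfnF.var _)))
      (DV.constV hK ρ)) (Dfn.imp (Dfn.vlt hK (DV.val hK (DfnF.sub hK (DfnF.var _) (DfnF.var _)))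
      (DV.constV hK ρ)) ?_)
    exact Dfn.veq hK (DV.val hK (DfnF.sub hK (hu _) (hu _)))
      (DV.mul hK (DV.constV hK _) (DV.val hK (DfnF.sub hK (DfnF.var _) (DfnF.var _))))
  choose ρ hρ r hr h3 using h1
  obtain ⟨ρ₀, hρ₀, hρ₁⟩ := T6_min ρ hρ
  obtain ⟨r₀, hr₀, hr₁⟩ := T6_min r hr
  refine ⟨min ρ₀ r₀, lt_min hρ₀ hr₀, ?_⟩
  intro i ξ t hξ ht
  have h4 := h3 i ξ (fun j => (hξ j).trans_le ((min_le_right _ _).trans (hr₁ i))) t (ξ i) ?_ ?_
  · simp only [Function.update_eq_self] at h4
    exact h4
  · have h5 : t - ξ i = (t - x i) - (ξ i - x i) := by ring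
    rw [h5]
    exact (Valuation.map_sub_lt _ ht (hξ i)).trans_le ((min_le_left _ _).trans (hρ₁ i))
  · rw [sub_self, map_zero]
    exact hρ i

theorem dsc_zero (H : Hyp S T K O) {ι : Type} [Finite ι] {x : ι → K} (hx : Indep L O F x) {e : K}
    (he : e ∈ cl L O (F ∪ Set.range x)) (i : ι) :
    dsc L O F x i e = 0 ↔ e ∈ cl L O (F ∪ x '' {i}ᶜ) := by
  have hK := H.val
  refine sc_zero H (cld_cl hK) (hx i) ?_
  rw [cl_insert_cl hK]
  refine cl_mono ?_ he
  rintro y (hy | ⟨j, rfl⟩)
  · exact Or.inr (Or.inl hy)
  · by_cases hj : j = i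
    · subst hj
      exact Or.inl rfl
    · exact Or.inr (Or.inr ⟨j, hj, rfl⟩)

end

end Pool.Agent.MP_e9d743_lc
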