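import Mathlib
import Pool.Agent.Lib.MP_e9d743_lc.T4_Norm
import Pool.Agent.Lib.MP_e9d743_lc.T6_Loc

/-!
# The main induction: definitions

Task M0. `Ctx`: the context of the induction. `Goal m`: the statement proved by induction on `m`.
`Goal.mono`: obvious. `Ctx.tau`: every positive `ρ` has a positive `τ ≤ ρ` with `τ ∉ N₀` (`C.pos`,
`C.up`, minimum). `exists_val`: surjectivity of the valuation. `near_norm`: if `|x - y| ≤ τ * μ x`,
`τ ∉ N₀`, `x ∉ F` then `Near O F x y` (`IsNorm.nn`, `near_of_le`).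
-/

set_option autoImplicit false

open FirstOrder FirstOrder.Language

namespace Pool.Agent.MP_e9d743_lc

universe u v w

section
variable {L : FirstOrder.Language.{u, v}} {K : Type w} [Field K] [L.Structure K]
  {O : ValuationSubring K} {S : ValSymb L} {T : L.Theory} {F : Set K}

/-- the context of the main induction -/
structure Ctx {L : FirstOrder.Language.{u, v}} {K : Type w} [Field K] [L.Structure K]
    (S : ValSymb L) (T : L.Theory) (O : ValuationSubring K) (F : Set K)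
    (N₀ : Set O.ValueGroup) (μ : K → O.ValueGroup) : Prop where
  hyp : Hyp S T K O
  tight : Tight L O F
  norm : IsNorm L O F N₀ μ
  up : ∀ γ ∈ N₀, ∀ γ', γ ≤ γ' → γ' ∈ N₀
  pos : ∃ τ : O.ValueGroup, 0 < τ ∧ τ ∉ N₀

/-- the statement proved by induction on `m` -/
def Goal (L : FirstOrder.Language.{u, v}) {K : Type w} [Field K] [L.Structure K]
    (O : ValuationSubring K) (F : Set K) (N₀ : Set O.ValueGroup) (μ : K → O.ValueGroup)
    (m : ℕ) : Prop :=
  ∀ (ι : Type) [Finite ι] (y : ι → K) (b b' : K) (τ : O.ValueGroup) (Z : Finset K)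
    (X : (Option ι → K) → Prop), Z.card ≤ m → b ∉ F →
    (∀ i, y i ∈ cl L O (insert b (F ∪ Z))) → τ ∉ N₀ → O.valuation (b' - b) ≤ τ * μ b →
    Dfn L O F X → X (fun o => o.elim b y) →
    ∃ y' : ι → K, X (fun o => o.elim b' y') ∧ ∀ i, O.valuation (y' i - y i) ≤ τ * μ (y i)

variable {N₀ : Set O.ValueGroup} {μ : K → O.ValueGroup}

theorem Goal.mono {m n : ℕ} (h : Goal L O F N₀ μ n) (hmn : m ≤ n) : Goal L O F N₀ μ m := by
  intro ι _ y b b' τ Z X hZ
  exact h ι y b b' τ Z X (hZ.trans hmn)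

theorem Ctx.cld (C : Ctx S T O F N₀ μ) : Cld L O F := C.tight.1

theorem Ctx.tau (C : Ctx S T O F N₀ μ) {ρ : O.ValueGroup} (hρ : 0 < ρ) :
    ∃ τ : O.ValueGroup, 0 < τ ∧ τ ≤ ρ ∧ τ ∉ N₀ := by
  obtain ⟨τ, h1, h2⟩ := C.pos
  exact ⟨min ρ τ, lt_min hρ h1, min_le_left _ _, fun h => h2 (C.up _ h _ (min_le_right _ _))⟩

private theorem m0_fin {ι : Type} [Finite ι] (b : ι → O.ValueGroup) (hb : ∀ i, 0 < b i) :
    ∃ β : O.ValueGroup, 0 < β ∧ ∀ i, β ≤ b i := by
  classical
  have := Fintype.ofFinite ι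
  have key : ∀ s : Finset ι, ∃ β : O.ValueGroup, 0 < β ∧ ∀ i ∈ s, β ≤ b i := by
    intro s
    induction s using Finset.induction_on with
    | empty => exact ⟨1, zero_lt_one, by simp⟩
    | insert a s _ ih =>
      obtain ⟨β, h1, h2⟩ := ih
      refine ⟨min (b a) β, lt_min (hb a) h1, ?_⟩
      intro i hi
      rcases Finset.mem_insert.1 hi with rfl | hi
      · exact min_le_left _ _
      · exact (min_le_right _ _).trans (h2 i hi)
  obtain ⟨β, h1, h2⟩ := key Finset.univ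
  exact ⟨β, h1, fun i => h2 i (Finset.mem_univ i)⟩

private theorem m0_small (hK : IsValModel S K O) : ∃ t : O.ValueGroup, 0 < t ∧ t < 1 := by
  have h1 : ∃ x : K, x ∉ O := by
    by_contra hcon
    push Not at hcon
    apply hK.nontriv
    ext x
    exact ⟨fun _ => ValuationSubring.mem_top x, fun _ => hcon x⟩
  obtain ⟨x, hx⟩ := h1
  have h2 : 1 < O.valuation x := by
    rw [← not_le, ValuationSubring.valuation_le_one_iff]; exact hx
  have h3 : O.valuation x ≠ 0 := (zero_lt_one.trans h2).ne'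
  exact ⟨(O.valuation x)⁻¹, zero_lt_iff.2 (inv_ne_zero h3), inv_lt_one_of_one_lt₀ h2⟩

/-- a small `τ` for finitely many elements -/
theorem Ctx.tau_fin (C : Ctx S T O F N₀ μ) {ρ : O.ValueGroup} (hρ : 0 < ρ) {ι : Type} [Finite ι]
    (x : ι → K) : ∃ τ : O.ValueGroup, 0 < τ ∧ τ ∉ N₀ ∧ ∀ i, τ * μ (x i) < ρ := by
  classical
  obtain ⟨t, ht0, ht1⟩ := m0_small C.hyp.val
  have hb : ∀ i, 0 < (if μ (x i) = 0 then (1 : O.ValueGroup) else t * ρ * (μ (x i))⁻¹) := by
    intro i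
    split_ifs with h
    · exact zero_lt_one
    · exact mul_pos (mul_pos ht0 hρ) (zero_lt_iff.2 (inv_ne_zero h))
  obtain ⟨β, hβ0, hβ⟩ := m0_fin _ hb
  obtain ⟨τ, h1, h2, h3⟩ := C.tau hβ0
  refine ⟨τ, h1, h3, fun i => ?_⟩
  by_cases h : μ (x i) = 0
  · rw [h, mul_zero]; exact hρ
  · have h4 := h2.trans (hβ i)
    rw [if_neg h] at h4
    have h5 : τ * μ (x i) ≤ t * ρ := by
      calc τ * μ (x i) ≤ (t * ρ * (μ (x i))⁻¹) * μ (x i) := mul_le_mul_left h4 _
        _ = t * ρ := by rw [mul_assoc, inv_mul_cancel₀ h, mul_one]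
    refine lt_of_le_of_lt h5 ?_
    calc t * ρ < 1 * ρ := mul_lt_mul_of_pos_right ht1 hρ
      _ = ρ := one_mul ρ

theorem exists_val (γ : O.ValueGroup) : ∃ t : K, O.valuation t = γ := by
  exact O.valuation_surjective γ

theorem Ctx.near_norm (C : Ctx S T O F N₀ μ) {x y : K} (hx : x ∉ F) {τ : O.ValueGroup}
    (hτ : τ ∉ N₀) (h : O.valuation (x - y) ≤ τ * μ x) : Near O F x y := by
  apply near_of_le (γ := τ * μ x) _ h
  rw [mul_comm, C.norm.nn x hx]
  exact hτ

theorem Ctx.norm_pos (C : Ctx S T O F N₀ μ) {x : K} (hx : x ∉ F) : 0 < μ x := by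
  exact zero_lt_iff.2 fun h => hx ((C.norm.zero x).1 h)

end

end Pool.Agent.MP_e9d743_lc
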