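import Mathlib
import Pool.Agent.Lib.MP_e9d743_lc.M0_Goal

/-!
# (N), step 1

Task M2a. `κ := dsc L O F x i₀ e > 0`, `μ (x i₀) > 0` (from `hlt`), so `x i₀ ∉ F`.
If `e ∉ F` tightness gives `h` definable over `F` with `Near O F e (h (x i₀))`; if `e ∈ F` let `h = e`
constant. Let `e' = e - h (x i₀)`.
`e = G x` (`exists_fun`), `e' = G x - h (x i₀)`. For `i ≠ i₀`, with `F_i = cl (F ∪ x '' {i}ᶜ)`, which
contains `x i₀` and `h (x i₀)`: the scales of `G (update x i t)` and
`G (update x i t) - h (x i₀)` are equal (`LS_sub_const`, `dsc_spec`, `sc_eq`). For `i = i₀`: the scale of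
`G (update x i₀ t)` at `x i₀` is `κ`, the scale `ν` of `h` at `x i₀` satisfies
`ν * μ (x i₀) = μ (h (x i₀)) = μ e` if `e ∉ F` (`IsNorm.comp`, `IsNorm.near`, `sc_spec`), `ν = 0` if `e ∈ F`;
so `ν < κ` and `LS_sub` gives the scale `κ`.
Last claim: if `e ∈ F` then `e' = 0`, `κ |x i₀ - c| > 0`. If `e ∉ F` suppose `|e'| ≥ κ |x i₀ - c|`,
`c ∈ F`. `|x i₀ - c| = μ (x i₀) * γ`, `γ ∈ N₀` (`IsNorm.nn`), so `|e'| ≥ κ μ (x i₀) γ ≥ μ e * γ ∈ NN O F e`,
so `|e - h (x i₀)| ∈ NN O F e`, contradiction.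
-/

set_option autoImplicit false

open FirstOrder FirstOrder.Language

namespace Pool.Agent.MP_e9d743_lc

universe u v w

section
variable {L : FirstOrder.Language.{u, v}} {K : Type w} [Field K] [L.Structure K]
  {O : ValuationSubring K} {S : ValSymb L} {T : L.Theory} {F : Set K}

variable {N₀ : Set O.ValueGroup} {μ : K → O.ValueGroup}

theorem step1 (C : Ctx S T O F N₀ μ) {ι : Type} [Finite ι] {x : ι → K}
    (hx : Indep L O F x) {e : K} (he : e ∈ cl L O (F ∪ Set.range x)) {i₀ : ι}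
    (hlt : μ e < dsc L O F x i₀ e * μ (x i₀)) :
    ∃ e' ∈ cl L O (F ∪ Set.range x), (∀ i, dsc L O F x i e' = dsc L O F x i e) ∧
      ∀ c ∈ F, O.valuation e' < dsc L O F x i₀ e * O.valuation (x i₀ - c) := by
  classical
  have H := C.hyp
  have hF : Cld L O F := C.cld
  have hpos : 0 < dsc L O F x i₀ e * μ (x i₀) := lt_of_le_of_lt zero_le hlt
  have hκ0 : dsc L O F x i₀ e ≠ 0 := fun h0 => by
    rw [h0, zero_mul] at hpos
    exact lt_irrefl _ hpos
  have hμ0 : μ (x i₀) ≠ 0 := fun h0 => by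
    rw [h0, mul_zero] at hpos
    exact lt_irrefl _ hpos
  have hκ : 0 < dsc L O F x i₀ e := zero_lt_iff.2 hκ0
  have hμ : 0 < μ (x i₀) := zero_lt_iff.2 hμ0
  have hxF : x i₀ ∉ F := fun h0 => hμ0 ((C.norm.zero _).2 h0)
  -- the function `h`
  have key : ∃ (h : K → K) (ν : O.ValueGroup), DF1 L O F h ∧ LS O h (x i₀) ν ∧
      ν < dsc L O F x i₀ e ∧
      ∀ c ∈ F, O.valuation (e - h (x i₀)) < dsc L O F x i₀ e * O.valuation (x i₀ - c) := by
    by_cases heF : e ∈ F
    · refine ⟨fun _ => e, 0, DfnF.const heF, LS_const e _, hκ, fun c hc => ?_⟩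
      rw [sub_self, map_zero]
      refine zero_lt_iff.2 (mul_ne_zero hκ0 ?_)
      rw [Valuation.ne_zero_iff]
      intro h0
      exact hxF (by rw [sub_eq_zero.1 h0]; exact hc)
    · obtain ⟨h, hh, hn⟩ := C.tight.2 e heF (x i₀) hxF
      obtain ⟨ν, hν⟩ := LS_exists H hF hh hxF
      have h1 : sc L O F (x i₀) (h (x i₀)) = ν := sc_eq H hF hh hxF hν
      have h2 : μ (h (x i₀)) = sc L O F (x i₀) (h (x i₀)) * μ (x i₀) :=
        C.norm.comp _ hxF _ (fun1_mem_cl H.val hh _)
      have h3 : μ (h (x i₀)) = μ e := C.norm.near _ _ hn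
      have h4 : ν * μ (x i₀) = μ e := by rw [← h1, ← h2, h3]
      refine ⟨h, ν, hh, hν, ?_, fun c hc => ?_⟩
      · rw [← h4] at hlt
        exact lt_of_mul_lt_mul_right hlt hμ.le
      · by_contra hcon
        rw [not_lt] at hcon
        have h5 : O.valuation (x i₀ - c) ∈ NN O F (x i₀) := ⟨c, hc, le_rfl⟩
        have h6 : μ (x i₀) * ((μ (x i₀))⁻¹ * O.valuation (x i₀ - c)) =
            O.valuation (x i₀ - c) := mul_inv_cancel_left₀ hμ0 _
        rw [← h6] at h5
        have h7 := (C.norm.nn _ hxF _).1 h5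
        have h8 := (C.norm.nn e heF _).2 h7
        refine hn (NN_up h8 (le_trans ?_ hcon))
        calc μ e * ((μ (x i₀))⁻¹ * O.valuation (x i₀ - c))
            ≤ dsc L O F x i₀ e * μ (x i₀) * ((μ (x i₀))⁻¹ * O.valuation (x i₀ - c)) :=
              mul_le_mul_left hlt.le _
          _ = dsc L O F x i₀ e * O.valuation (x i₀ - c) := by
              rw [mul_assoc, h6]
  obtain ⟨h, ν, hh, hν, hνκ, hlast⟩ := key
  obtain ⟨G, hG, hGx⟩ := exists_fun H.val he
  have hG' : DfnF L O F (fun v : ι → K => G v - h (v i₀)) :=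
    DfnF.sub H.val hG (hh.app (DfnF.var i₀))
  refine ⟨e - h (x i₀), ?_, fun i => ?_, hlast⟩
  · have := fun_mem_cl H.val hG' x
    rw [hGx] at this
    exact this
  · have h1 := dsc_spec H hx hG i
    have h2 := dsc_spec H hx hG' i
    rw [hGx] at h1
    simp only [hGx] at h2
    by_cases hi : i = i₀
    · subst hi
      have h3 : LS O (fun t => G (Function.update x i t) - h t) (x i) (dsc L O F x i e) :=
        LS_sub h1 hν hνκ
      refine LS_unique H.val h2 ?_
      simpa using h3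
    · have h3 : LS O (fun t => G (Function.update x i t) - h (x i₀)) (x i)
          (dsc L O F x i e) := LS_sub_const h1 _
      refine LS_unique H.val h2 ?_
      have h4 : ∀ t, Function.update x i t i₀ = x i₀ := fun t =>
        Function.update_of_ne (Ne.symm hi) _ _
      simpa only [h4] using h3

end

end Pool.Agent.MP_e9d743_lc
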