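import Mathlib
import Pool.Agent.Lib.MP_e9d743_lc.M0_Goal

/-!
# (N), steps 2 and 3

Task M2b. Let `F' = cl (F ∪ x '' {i₀}ᶜ)` (closed, `F ⊆ F'`), `κ = dsc L O F x i₀ (G x)`, `e = G x`.
`x i₀ ∉ F'` (`hx`), `κ ≠ 0` (by `h` for `c = 0 ∈ F`), so `e ∉ F'` (`dsc_zero`).
Step 2. `|e| ∈ NN O F' e` (`0 ∈ F'`), so `κ⁻¹ |e| ∈ NN O F' (x i₀)` by `NN_sc` over `F'` with `z = x i₀`,
`y = e` (`e ∈ cl (insert (x i₀) F')`): there is `d₀ ∈ F'` with `κ |x i₀ - d₀| ≤ |e|`.
Step 3. `Φ β := Loc O G (update x i₀ β) (fun i => dsc L O F x i e)` is definable over `F'` (`dfn_loc`) and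
`Φ (x i₀)` holds (`loc`, `Function.update_eq_self`). `P0` over `F'` gives `c₁ ∈ F'` such that `Φ β` if
`|β - x i₀| < |x i₀ - c₁|`. `g t = G (update x i₀ t)` is definable over `F'`; by `scale` over `F'` there
are `c₂ ∈ F'` and `SC O g (x i₀) κ' |x i₀ - c₂|`, and `κ' = κ` (`SC.ls`, `dsc_spec`, `LS_unique`). By `noMin`
(`M = F'`, `x j ∈ F'`, `x j ∉ F` for `j ≠ i₀`), used for the `c` among `d₀, c₁, c₂` with the smallest
`|x i₀ - c|`, there is `d ∈ F'` with `|x i₀ - d| < |x i₀ - d₀|, |x i₀ - c₁|, |x i₀ - c₂|`. Then `Φ d`,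
`|g d - g (x i₀)| = κ |d - x i₀| < κ |x i₀ - d₀| ≤ |e|`, so `|g d| = |e|`. `Near O F (x i₀) d`: for `c ∈ F`
`κ |x i₀ - d| < |e| < κ |x i₀ - c|`.
-/

set_option autoImplicit false

open FirstOrder FirstOrder.Language

namespace Pool.Agent.MP_e9d743_lc

universe u v w

section
variable {L : FirstOrder.Language.{u, v}} {K : Type w} [Field K] [L.Structure K]
  {O : ValuationSubring K} {S : ValSymb L} {T : L.Theory} {F : Set K}

variable {N₀ : Set O.ValueGroup} {μ : K → O.ValueGroup}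

theorem step3 (C : Ctx S T O F N₀ μ) {ι : Type} [Finite ι] [DecidableEq ι] {x : ι → K}
    (hx : Indep L O F x) {G : (ι → K) → K} (hG : DfnF L O F G) {i₀ : ι} (hne : ∃ j, j ≠ i₀)
    (h : ∀ c ∈ F, O.valuation (G x) < dsc L O F x i₀ (G x) * O.valuation (x i₀ - c)) :
    ∃ d ∈ cl L O (F ∪ x '' {i₀}ᶜ), Near O F (x i₀) d ∧
      O.valuation (G (Function.update x i₀ d)) = O.valuation (G x) ∧
      Loc O G (Function.update x i₀ d) (fun i => dsc L O F x i (G x)) := by
  have H := C.hyp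
  have hK := H.val
  have hF := C.cld
  obtain ⟨F', hF'⟩ : ∃ F' : Set K, F' = cl L O (F ∪ x '' {i₀}ᶜ) := ⟨_, rfl⟩
  have hFc : Cld L O F' := by
    rw [hF']
    exact cld_cl hK
  have hFF : F ⊆ F' := by
    rw [hF']
    exact Set.subset_union_left.trans (subset_cl hK)
  have hz : x i₀ ∉ F' := by
    rw [hF']
    exact hx i₀
  have hxF' : ∀ j, j ≠ i₀ → x j ∈ F' := by
    intro j hj
    rw [hF']
    exact subset_cl hK (Or.inr ⟨j, hj, rfl⟩)
  have heR : G x ∈ cl L O (F ∪ Set.range x) := fun_mem_cl hK hG x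
  have he' : G x ∈ cl L O (insert (x i₀) F') := by
    refine cl_mono ?_ heR
    rintro y (hy | ⟨j, rfl⟩)
    · exact Or.inr (hFF hy)
    · by_cases hj : j = i₀
      · rw [hj]
        exact Or.inl rfl
      · exact Or.inr (hxF' j hj)
  obtain ⟨κ, hκ⟩ : ∃ κ : O.ValueGroup, κ = dsc L O F x i₀ (G x) := ⟨_, rfl⟩
  rw [← hκ] at h
  have hκsc : sc L O F' (x i₀) (G x) = κ := by
    rw [hκ, hF']
    rfl
  have hκ0 : 0 < κ := by
    refine zero_lt_iff.2 ?_
    intro h0
    have h1 := h 0 (zero_mem hK hF)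
    rw [h0, zero_mul] at h1
    exact not_lt_zero h1
  have heF' : G x ∉ F' := by
    intro h1
    rw [hF'] at h1
    have h2 := (dsc_zero H hx heR i₀).2 h1
    rw [← hκ] at h2
    exact hκ0.ne' h2
  -- step 2
  have h1 : κ * (κ⁻¹ * O.valuation (G x)) ∈ NN O F' (G x) := by
    rw [← mul_assoc, mul_inv_cancel₀ hκ0.ne', one_mul]
    exact ⟨0, hFF (zero_mem hK hF), by rw [sub_zero]⟩
  have h2 : κ⁻¹ * O.valuation (G x) ∈ NN O F' (x i₀) := by
    rw [← hκsc] at h1 ⊢
    exact (NN_sc H hFc hz he' heF').1 h1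
  obtain ⟨d₀, hd₀, hd₀'⟩ := h2
  have hd₀'' : κ * O.valuation (x i₀ - d₀) ≤ O.valuation (G x) := by
    have h3 := mul_le_mul_right hd₀' κ
    rwa [← mul_assoc, mul_inv_cancel₀ hκ0.ne', one_mul] at h3
  -- step 3
  have hupd : ∀ i, DfnF L O F' (fun v : Unit → K => Function.update x i₀ (v ()) i) := by
    intro i
    by_cases hi : i = i₀
    · subst hi
      simp only [Function.update_self]
      exact DfnF.var ()
    · simp only [Function.update_of_ne hi]
      exact DfnF.const (hxF' i hi)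
  have hX : D1 L O F' {β | Loc O G (Function.update x i₀ β) (fun i => dsc L O F x i (G x))} :=
    dfn_loc hK (hG.mono hFF) (g := fun v : Unit → K => Function.update x i₀ (v ())) hupd _
  have hΦ : x i₀ ∈ {β | Loc O G (Function.update x i₀ β) (fun i => dsc L O F x i (G x))} := by
    change Loc O G (Function.update x i₀ (x i₀)) (fun i => dsc L O F x i (G x))
    rw [Function.update_eq_self]
    exact loc H hF hx hG
  obtain ⟨c₁, hc₁, hc₁'⟩ := P0 H hFc hX hΦ hz
  have hg : DF1 L O F' (fun t => G (Function.update x i₀ t)) :=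
    DfnF.comp (hG.mono hFF) (t := fun v : Unit → K => Function.update x i₀ (v ())) hupd
  have hgz : (fun t => G (Function.update x i₀ t)) (x i₀) = G x := by
    simp only [Function.update_eq_self]
  obtain ⟨c₂, hc₂, κ', hκ', hSC⟩ := scale H hFc hg hz (by
    change G (Function.update x i₀ (x i₀)) ∉ F'
    rw [Function.update_eq_self]; exact heF')
  have hne2 : ∀ c ∈ F', 0 < O.valuation (x i₀ - c) := by
    intro c hc
    refine zero_lt_iff.2 ((Valuation.ne_zero_iff _).2 (sub_ne_zero.2 ?_))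
    rintro h3
    exact hz (h3 ▸ hc)
  have hκκ : κ' = κ := by
    rw [hκ]
    exact LS_unique hK (hSC.ls (hne2 c₂ hc₂)) (dsc_spec H hx hG i₀)
  rw [hκκ] at hSC
  obtain ⟨c, hc, hc0, hc1, hc2⟩ : ∃ c ∈ F', O.valuation (x i₀ - c) ≤ O.valuation (x i₀ - d₀) ∧
      O.valuation (x i₀ - c) ≤ O.valuation (x i₀ - c₁) ∧
      O.valuation (x i₀ - c) ≤ O.valuation (x i₀ - c₂) := by
    rcases le_total (O.valuation (x i₀ - d₀)) (O.valuation (x i₀ - c₁)) with h3 | h3
    · rcases le_total (O.valuation (x i₀ - d₀)) (O.valuation (x i₀ - c₂)) with h4 | h4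
      · exact ⟨d₀, hd₀, le_rfl, h3, h4⟩
      · exact ⟨c₂, hc₂, h4, h4.trans h3, le_rfl⟩
    · rcases le_total (O.valuation (x i₀ - c₁)) (O.valuation (x i₀ - c₂)) with h4 | h4
      · exact ⟨c₁, hc₁, h3, le_rfl, h4⟩
      · exact ⟨c₂, hc₂, h4.trans h3, h4, le_rfl⟩
  obtain ⟨j, hj⟩ := hne
  have hxjF : x j ∉ F := fun h3 => hx j (subset_cl hK (Or.inl h3))
  obtain ⟨d, hd, hdc⟩ := noMin H C.tight hFc hFF (hxF' j hj) hxjF hz hc
  have hds : O.valuation (d - x i₀) = O.valuation (x i₀ - d) := Valuation.map_sub_swap _ _ _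
  have hdΦ := hc₁' d (by rw [hds]; exact hdc.trans_le hc1)
  have hdiff := hSC.1 d (x i₀) (by rw [hds]; exact hdc.trans_le hc2)
    (by rw [sub_self, map_zero]; exact hne2 c₂ hc₂)
  have hlt : κ * O.valuation (x i₀ - d) < O.valuation (G x) :=
    lt_of_lt_of_le (mul_lt_mul_of_pos_left (hdc.trans_le hc0) hκ0) hd₀''
  have hval : O.valuation (G (Function.update x i₀ d) - G x) < O.valuation (G x) := by
    have h3 : O.valuation (G (Function.update x i₀ d) - G x) = κ * O.valuation (d - x i₀) := by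
      have h4 := hdiff
      simp only [Function.update_eq_self] at h4
      exact h4
    rw [h3, hds]
    exact hlt
  refine ⟨d, ?_, ?_, Valuation.map_eq_of_sub_lt _ hval, hdΦ⟩
  · rw [← hF']
    exact hd
  · rw [near_iff]
    intro c' hc'
    exact lt_of_mul_lt_mul_left' (hlt.trans (h c' hc'))

end

end Pool.Agent.MP_e9d743_lc
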