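import Mathlib
import Pool.Agent.Lib.MP_e9d743_lc.M0_Goal

/-!
# (N), step 4

Task M2c. `κ i = dsc L O F x i (G x)`, `φ = G (update x i₀ d)`, `y = update x i₀ φ`. `d ∉ F`
(`near_not_mem`), `μ d = μ (x i₀)` (`IsNorm.near`). By `indep_mem` for the family `x j`, `j ≠ i₀`
(subtype) and `e := d` there is `i₁ ≠ i₀` with `x i₁ ∈ cl (insert d (F ∪ Z))`, `Z` the finset of the
`x j`, `j ≠ i₀, i₁`, of at most `m` elements; all `y i ∈ cl (insert d (F ∪ Z))` (for `φ`: `fun_mem_cl`).
Suppose `B < κ i₀ * μ (x i₀)`. Let `ρ` be from `loc_eq` for `hΦ`; `τ > 0`, `τ ∉ N₀`, `τ * μ (y i) < ρ` and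
`τ * μ (x i) < ρ` for all `i` (`Ctx.tau_fin`, twice or for a sum type); `d' = d + t`, `|t| = τ * μ d`.
`Goal m` for `b := d`, `y`, `X w := w (some i₀) = G (update (fun i => w (some i)) i₀ (w none))` (definable)
gives `y'` with `y' i₀ = G (update y' i₀ d')`, `|y' i - y i| ≤ τ * μ (y i)`. For `i ≠ i₀`:
`κ i * |y' i - x i| ≤ τ * B < κ i₀ * |d' - d|`, so by `loc_eq` (points `update x i₀ d`,
`update y' i₀ d'`) `|y' i₀ - φ| = κ i₀ * τ * μ (x i₀)`, and this is `≤ τ * μ φ`. So `κ i₀ μ (x i₀) ≤ μ φ`,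
`φ ∉ F` (`IsNorm.zero`), `|φ| ∈ NN O F φ` (`0 ∈ F`), `|φ| = μ φ * γ` with `γ ∈ N₀`, and
`μ (x i₀) * γ ∈ NN O F (x i₀)` (`IsNorm.nn`): `c ∈ F` with `|x i₀ - c| ≤ μ (x i₀) * γ`; then
`κ i₀ |x i₀ - c| ≤ μ φ * γ = |φ|`, contradiction with `hc`.
-/

set_option autoImplicit false

open FirstOrder FirstOrder.Language

namespace Pool.Agent.MP_e9d743_lc

universe u v w

section
variable {L : FirstOrder.Language.{u, v}} {K : Type w} [Field K] [L.Structure K]
  {O : ValuationSubring K} {S : ValSymb L} {T : L.Theory} {F : Set K}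

variable {N₀ : Set O.ValueGroup} {μ : K → O.ValueGroup}

omit [Field K] in
/-- `x '' {i₀}ᶜ` as a range -/
private theorem step4_range {ι : Type} (x : ι → K) (i₀ : ι) :
    x '' {i₀}ᶜ = Set.range (fun j : {j : ι // j ≠ i₀} => x j) := by
  ext a
  constructor
  · rintro ⟨j, hj, rfl⟩
    exact ⟨⟨j, hj⟩, rfl⟩
  · rintro ⟨j, rfl⟩
    exact ⟨j, j.2, rfl⟩

theorem step4 (C : Ctx S T O F N₀ μ) {m : ℕ} (hGoal : Goal L O F N₀ μ m) {ι : Type} [Finite ι]
    [DecidableEq ι] (hι : Nat.card ι = m + 2) {x : ι → K} (hx : Indep L O F x)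
    {G : (ι → K) → K} (hG : DfnF L O F G) {i₀ : ι} {d : K}
    (hd : d ∈ cl L O (F ∪ x '' {i₀}ᶜ)) (hn : Near O F (x i₀) d)
    (hc : ∀ c ∈ F, O.valuation (G (Function.update x i₀ d)) <
      dsc L O F x i₀ (G x) * O.valuation (x i₀ - c))
    (hΦ : Loc O G (Function.update x i₀ d) (fun i => dsc L O F x i (G x)))
    {B : O.ValueGroup} (hB : ∀ i, i ≠ i₀ → dsc L O F x i (G x) * μ (x i) ≤ B) :
    dsc L O F x i₀ (G x) * μ (x i₀) ≤ B := by
  classical
  have hK : IsValModel S K O := C.hyp.val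
  have hF : Cld L O F := C.cld
  obtain ⟨κ, hκ⟩ : ∃ κ : ι → O.ValueGroup, ∀ i, dsc L O F x i (G x) = κ i := ⟨_, fun i => rfl⟩
  simp only [hκ] at hc hΦ hB ⊢
  obtain ⟨hx0, hdF⟩ := near_not_mem hn
  have hμd : μ d = μ (x i₀) := C.norm.near _ _ hn
  obtain ⟨φ, hφ⟩ : ∃ φ : K, G (Function.update x i₀ d) = φ := ⟨_, rfl⟩
  rw [hφ] at hc
  -- exchange
  have hd' : d ∈ cl L O (F ∪ Set.range (fun j : {j : ι // j ≠ i₀} => x j)) := by
    rw [← step4_range]
    exact hd
  obtain ⟨⟨i₁, hi₁⟩, h₁⟩ := indep_mem C.hyp hF hd' hdF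
  -- the finset `Z`
  have : Fintype ι := Fintype.ofFinite ι
  obtain ⟨Z, hZ⟩ : ∃ Z : Finset K, Z = (((Finset.univ : Finset ι).erase i₀).erase i₁).image x :=
    ⟨_, rfl⟩
  have hZc : Z.card ≤ m := by
    rw [hZ]
    refine Finset.card_image_le.trans ?_
    rw [Finset.card_erase_of_mem (Finset.mem_erase.2 ⟨hi₁, Finset.mem_univ _⟩),
      Finset.card_erase_of_mem (Finset.mem_univ _), Finset.card_univ]
    rw [Nat.card_eq_fintype_card] at hι
    omega
  have hmemZ : ∀ j, j ≠ i₀ → j ≠ i₁ → x j ∈ (Z : Set K) := by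
    intro j h0 h1
    rw [hZ, Finset.mem_coe, Finset.mem_image]
    exact ⟨j, Finset.mem_erase.2 ⟨h1, Finset.mem_erase.2 ⟨h0, Finset.mem_univ _⟩⟩, rfl⟩
  have hsub : insert d (F ∪ (Z : Set K)) ⊆ cl L O (insert d (F ∪ Z)) := subset_cl hK
  have hxmem : ∀ j, j ≠ i₀ → x j ∈ cl L O (insert d (F ∪ Z)) := by
    intro j hj
    by_cases hj1 : j = i₁
    · subst hj1
      refine cl_mono ?_ h₁
      refine Set.insert_subset_insert (Set.union_subset_union_right _ ?_)
      rintro a ⟨⟨k, hk⟩, hk1, rfl⟩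
      refine hmemZ k hk fun h => hk1 ?_
      subst h
      rfl
    · exact hsub (Or.inr (Or.inr (hmemZ j hj hj1)))
  have hcl : Cld L O (cl L O (insert d (F ∪ (Z : Set K)))) := cld_cl hK
  have hFsub : F ⊆ cl L O (insert d (F ∪ (Z : Set K))) :=
    fun a ha => hsub (Or.inr (Or.inl ha))
  have hφmem : φ ∈ cl L O (insert d (F ∪ Z)) := by
    rw [← hφ]
    refine fun_mem hK hcl (hG.mono hFsub) fun i => ?_
    by_cases hi : i = i₀
    · subst hi
      rw [Function.update_self]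
      exact hsub (Or.inl rfl)
    · rw [Function.update_of_ne hi]
      exact hxmem i hi
  -- suppose not
  by_contra hcon
  rw [not_le] at hcon
  have hμx : 0 < μ (x i₀) := C.norm_pos hx0
  obtain ⟨ρ, hρ, hloc⟩ := loc_eq hΦ
  obtain ⟨τ, hτ0, hτ, hτρ⟩ := C.tau_fin hρ x
  obtain ⟨t, ht⟩ := exists_val (O := O) (τ * μ d)
  obtain ⟨y, hy⟩ : ∃ y : ι → K, y = Function.update x i₀ φ := ⟨_, rfl⟩
  have hy0 : y i₀ = φ := by rw [hy, Function.update_self]
  have hyne : ∀ j, j ≠ i₀ → y j = x j := fun j hj => by rw [hy, Function.update_of_ne hj]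
  have hX : Dfn L O F (fun w : Option ι → K =>
      w (some i₀) = G (Function.update (fun i => w (some i)) i₀ (w none))) := by
    refine Dfn.eq (DfnF.var _) (DfnF.comp hG
      (t := fun (w : Option ι → K) => Function.update (fun i => w (some i)) i₀ (w none)) ?_)
    intro i
    by_cases hi : i = i₀
    · subst hi
      simp only [Function.update_self]
      exact DfnF.var _
    · simp only [Function.update_of_ne hi]
      exact DfnF.var _
  have hupd : Function.update y i₀ d = Function.update x i₀ d := by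
    rw [hy, Function.update_idem]
  obtain ⟨y', hy'X, hy'⟩ := hGoal ι y d (d + t) τ Z _ hZc hdF (by
      intro i
      by_cases hi : i = i₀
      · subst hi
        rw [hy0]
        exact hφmem
      · rw [hyne i hi]
        exact hxmem i hi) hτ (by rw [add_sub_cancel_left, ht]) hX (by
      show y i₀ = G (Function.update (fun i => y i) i₀ d)
      rw [show (fun i => y i) = y from rfl, hupd, hφ, hy0])
  have hy'X' : y' i₀ = G (Function.update y' i₀ (d + t)) := hy'X
  have hξ : ∀ j, O.valuation (Function.update y' i₀ (d + t) j - Function.update x i₀ d j) ≤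
      τ * μ (x j) := by
    intro j
    by_cases hj : j = i₀
    · subst hj
      rw [Function.update_self, Function.update_self, add_sub_cancel_left, ht, hμd]
    · rw [Function.update_of_ne hj, Function.update_of_ne hj]
      have := hy' j
      rwa [hyne j hj] at this
  have h2 := hloc (Function.update x i₀ d) (Function.update y' i₀ (d + t))
    (fun j => by rw [sub_self, map_zero]; exact hρ)
    (fun j => (hξ j).trans_lt (hτρ j)) i₀ (by
      intro i hi
      have e1 : O.valuation (Function.update y' i₀ (d + t) i₀ - Function.update x i₀ d i₀) =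
          τ * μ (x i₀) := by
        rw [Function.update_self, Function.update_self, add_sub_cancel_left, ht, hμd]
      rw [e1]
      calc κ i * O.valuation (Function.update y' i₀ (d + t) i - Function.update x i₀ d i)
          ≤ κ i * (τ * μ (x i)) := mul_le_mul_right (hξ i) _
        _ = τ * (κ i * μ (x i)) := by rw [mul_left_comm]
        _ ≤ τ * B := mul_le_mul_right (hB i hi) _
        _ < τ * (κ i₀ * μ (x i₀)) := mul_lt_mul_of_pos_left hcon hτ0
        _ = κ i₀ * (τ * μ (x i₀)) := by rw [mul_left_comm])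
  rw [← hy'X', hφ, Function.update_self, Function.update_self, add_sub_cancel_left, ht, hμd] at h2
  have h3 := hy' i₀
  rw [hy0, h2, mul_left_comm] at h3
  have h4 : κ i₀ * μ (x i₀) ≤ μ φ := le_of_mul_le_mul_left h3 hτ0
  have hμφ : 0 < μ φ := lt_of_le_of_lt zero_le (hcon.trans_le h4)
  have hφF : φ ∉ F := fun h => hμφ.ne' ((C.norm.zero φ).2 h)
  have h5 : μ φ * (O.valuation φ / μ φ) ∈ NN O F φ := by
    rw [mul_div_cancel₀ _ hμφ.ne']
    exact ⟨0, zero_mem hK hF, by rw [sub_zero]⟩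
  have h6 := (C.norm.nn (x i₀) hx0 _).2 ((C.norm.nn φ hφF _).1 h5)
  obtain ⟨c, hcF, hcc⟩ := h6
  refine lt_irrefl (O.valuation φ) ((hc c hcF).trans_le ?_)
  calc κ i₀ * O.valuation (x i₀ - c) ≤ κ i₀ * (μ (x i₀) * (O.valuation φ / μ φ)) :=
        mul_le_mul_right hcc _
    _ = (κ i₀ * μ (x i₀)) * (O.valuation φ / μ φ) := by rw [mul_assoc]
    _ ≤ μ φ * (O.valuation φ / μ φ) := mul_le_mul_left h4 _
    _ = O.valuation φ := mul_div_cancel₀ _ hμφ.ne'

end

end Pool.Agent.MP_e9d743_lc
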