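import Mathlib
import Pool.Agent.Lib.MP_e9d743_lc.M2a_Step1
import Pool.Agent.Lib.MP_e9d743_lc.M2b_Step3
import Pool.Agent.Lib.MP_e9d743_lc.M2c_Step4

/-!
# (N)

Task M2. By contradiction: `B < dsc L O F x i₀ e * μ (x i₀)`, so `μ e < dsc L O F x i₀ e * μ (x i₀)`.
`step1` gives `e'`; `e' = G x` (`exists_fun`); `step3`, `step4`. There is `j ≠ i₀` as `Nat.card ι ≥ 2`.
-/

set_option autoImplicit false

open FirstOrder FirstOrder.Language

namespace Pool.Agent.MP_e9d743_lc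

universe u v w

section
variable {L : FirstOrder.Language.{u, v}} {K : Type w} [Field K] [L.Structure K]
  {O : ValuationSubring K} {S : ValSymb L} {T : L.Theory} {F : Set K}

variable {N₀ : Set O.ValueGroup} {μ : K → O.ValueGroup}

theorem nMain (C : Ctx S T O F N₀ μ) {m : ℕ} (hGoal : Goal L O F N₀ μ m) {ι : Type} [Finite ι]
    (hι : Nat.card ι = m + 2) {x : ι → K} (hx : Indep L O F x) {e : K}
    (he : e ∈ cl L O (F ∪ Set.range x)) {i₀ : ι} {B : O.ValueGroup} (hμ : μ e ≤ B)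
    (hB : ∀ i, i ≠ i₀ → dsc L O F x i e * μ (x i) ≤ B) :
    dsc L O F x i₀ e * μ (x i₀) ≤ B := by
  classical
  by_contra hlt
  rw [not_le] at hlt
  obtain ⟨e', he', h1, h2⟩ := step1 C hx he (hμ.trans_lt hlt)
  obtain ⟨G, hG, hGx⟩ := exists_fun C.hyp.val he'
  subst hGx
  have hne : ∃ j, j ≠ i₀ := by
    have h3 : Nontrivial ι := Finite.one_lt_card_iff_nontrivial.1 (by omega)
    exact exists_ne i₀
  obtain ⟨d, hd, hn, h3, h4⟩ := step3 C hx hG hne (fun c hc => by rw [h1]; exact h2 c hc)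
  refine absurd (step4 C hGoal hι hx hG hd hn (fun c hc => ?_) h4 (B := B) fun i hi => ?_)
    (not_le.2 ?_)
  · rw [h3, h1]
    exact h2 c hc
  · rw [h1]
    exact hB i hi
  · rw [h1]
    exact hlt

end

end Pool.Agent.MP_e9d743_lc
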