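import Mathlib
import Pool.Agent.Lib.MP_e9d743_lc.T6_Loc

/-!
# (Sel), the bound

Task M3a. `x k = P k w₁`, `P k` definable over `M` (`exists_fun1`); `e = Q x`, `Q` definable over `E`
(`exists_fun`); let `P' t := Q (fun k => P k t)`, definable over `M`, `P' w₁ = e`. `loc` for `Q` and
`x` over `E`, and `loc_rev` give `ρ`. Take `w' ≠ w₁` so close to `w₁` that
`|P k w' - x k| = sc L O M w₁ (x k) * |w' - w₁| < ρ` for all `k` and
`|P' w' - e| = sc L O M w₁ e * |w' - w₁|` (`sc_spec`, `exists_small`). Let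
`θ = sc L O M w₁ (x z₁) * |w' - w₁| = |P z₁ w' - x z₁|`, `θ > 0` by `sc_zero` as `x z₁ ∉ M`. Let
`B = b * (a z₁)⁻¹ * θ`: `|P' w' - e| ≤ B` by `h2`, and for `k ≠ z₁`
`dsc L O E x k e * |P k w' - x k| ≤ dsc L O E x k e * a k * (a z₁)⁻¹ * θ ≤ B` by `h1`, `h3`. `loc_rev`:
`dsc L O E x z₁ e * θ ≤ B`, cancel `θ`.
-/

set_option autoImplicit false

open FirstOrder FirstOrder.Language

namespace Pool.Agent.MP_e9d743_lc

universe u v w

section
variable {L : FirstOrder.Language.{u, v}} {K : Type w} [Field K] [L.Structure K]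
  {O : ValuationSubring K} {S : ValSymb L} {T : L.Theory} {F : Set K}

theorem sel_bound (H : Hyp S T K O) {E M : Set K} (hE : Cld L O E) (hM : Cld L O M)
    (hEM : E ⊆ M) {w₁ : K} (hw : w₁ ∉ M) {κ : Type} [Finite κ] {x : κ → K}
    (hx : Indep L O E x) {z₁ : κ} {e : K} (he : e ∈ cl L O (E ∪ Set.range x))
    (hxM : ∀ k, x k ∈ cl L O (insert w₁ M)) {a : κ → O.ValueGroup} {b : O.ValueGroup}
    (ha : ∀ k, 0 < a k) (hz₁ : x z₁ ∉ M)
    (h1 : ∀ k, sc L O M w₁ (x k) * a z₁ ≤ a k * sc L O M w₁ (x z₁))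
    (h2 : sc L O M w₁ e * a z₁ ≤ b * sc L O M w₁ (x z₁))
    (h3 : ∀ k, k ≠ z₁ → dsc L O E x k e * a k ≤ b) : dsc L O E x z₁ e * a z₁ ≤ b := by
  classical
  have hK := H.val
  choose P hP hPx using fun k => exists_fun1 hK (hxM k)
  obtain ⟨Q, hQ, hQx⟩ := exists_fun hK he
  have hP' : DF1 L O M (fun t => Q (fun k => P k t)) :=
    DfnF.comp (g := Q) (hQ.mono hEM) (t := fun (v : Unit → K) k => P k (v ())) fun k => hP k
  obtain ⟨ρ, hρ, hrev⟩ := loc_rev (loc H hE hx hQ)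
  have hPw : (fun k => P k w₁) = x := funext hPx
  -- the scales at `w₁`
  have hLS : ∀ k, LS O (P k) w₁ (sc L O M w₁ (x k)) := by
    intro k
    have := sc_spec H hM (hP k) hw
    rwa [hPx k] at this
  have hLS' : LS O (fun t => Q (fun k => P k t)) w₁ (sc L O M w₁ e) := by
    have h4 := sc_spec H hM hP' hw
    have h5 : Q (fun k => P k w₁) = e := by
      rw [hPw, hQx]
    rwa [h5] at h4
  choose r hr hrs using hLS
  obtain ⟨r', hr', hrs'⟩ := hLS'
  -- a small radius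
  have hsmall : ∀ k, ∃ δ : O.ValueGroup, 0 < δ ∧ δ ≤ r k ∧ δ ≤ r' ∧
      ∀ t : K, O.valuation t < δ → sc L O M w₁ (x k) * O.valuation t < ρ := by
    intro k
    by_cases h0 : sc L O M w₁ (x k) = 0
    · refine ⟨min (r k) r', lt_min (hr k) hr', min_le_left _ _, min_le_right _ _, fun t _ => ?_⟩
      rw [h0, zero_mul]
      exact hρ
    · have hi : 0 < (sc L O M w₁ (x k))⁻¹ * ρ := by
        rw [zero_lt_iff]
        exact mul_ne_zero (inv_ne_zero h0) hρ.ne'
      refine ⟨min (min (r k) r') ((sc L O M w₁ (x k))⁻¹ * ρ),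
        lt_min (lt_min (hr k) hr') hi, (min_le_left _ _).trans (min_le_left _ _),
        (min_le_left _ _).trans (min_le_right _ _), fun t ht => ?_⟩
      have h4 : O.valuation t < (sc L O M w₁ (x k))⁻¹ * ρ := lt_of_lt_of_le ht (min_le_right _ _)
      have h5 : 0 < sc L O M w₁ (x k) := zero_lt_iff.2 h0
      have h6 := mul_lt_mul_of_pos_left h4 h5
      rwa [mul_inv_cancel_left₀ h0] at h6
  choose δ hδ hδr hδr' hδs using hsmall
  have : Nonempty κ := ⟨z₁⟩
  obtain ⟨k₀, hk₀⟩ := Finite.exists_min δ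
  obtain ⟨s, hs0, hs1, -⟩ := exists_small hK (hδ k₀)
  set w' : K := w₁ + s with hw'
  have hsw : w' - w₁ = s := by rw [hw']; ring
  have hvw : ∀ k, O.valuation (P k w' - x k) = sc L O M w₁ (x k) * O.valuation s := by
    intro k
    have h4 := hrs k w' w₁ (by rw [hsw]; exact hs1.trans_le ((hk₀ k).trans (hδr k)))
      (by rw [sub_self, map_zero]; exact hr k)
    rwa [hPx k, hsw] at h4
  have hve : O.valuation (Q (fun k => P k w') - Q x) = sc L O M w₁ e * O.valuation s := by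
    have h4 := hrs' w' w₁ (by rw [hsw]; exact hs1.trans_le (hδr' k₀))
      (by rw [sub_self, map_zero]; exact hr')
    simp only at h4
    rwa [hPw, hsw] at h4
  have hvs : O.valuation s ≠ 0 := (Valuation.ne_zero_iff _).2 hs0
  have hsz : sc L O M w₁ (x z₁) ≠ 0 := fun h => hz₁ ((sc_zero H hM hw (hxM z₁)).1 h)
  have haz : a z₁ ≠ 0 := (ha z₁).ne'
  set θ : O.ValueGroup := sc L O M w₁ (x z₁) * O.valuation s with hθ
  have hθ0 : θ ≠ 0 := mul_ne_zero hsz hvs
  have hcan : ∀ u c : O.ValueGroup, u * a z₁ ≤ c → u ≤ c * (a z₁)⁻¹ := by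
    intro u c h
    have h4 := mul_le_mul_left h (a z₁)⁻¹
    rwa [mul_inv_cancel_right₀ haz] at h4
  have hmain := hrev x (fun k => P k w') (by intro j; rw [sub_self, map_zero]; exact hρ)
    (by intro j; rw [hvw j]; exact hδs j s (hs1.trans_le (hk₀ j))) z₁ (b * (a z₁)⁻¹ * θ) ?_ ?_
  · simp only [hvw z₁, hQx] at hmain
    have h4 := mul_le_mul_left hmain θ⁻¹
    rw [mul_inv_cancel_right₀ hθ0, mul_inv_cancel_right₀ hθ0] at h4
    have h5 := mul_le_mul_left h4 (a z₁)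
    rwa [inv_mul_cancel_right₀ haz] at h5
  · rw [hve]
    have h4 := hcan _ _ h2
    have h5 := mul_le_mul_left h4 (O.valuation s)
    refine h5.trans (le_of_eq ?_)
    rw [hθ]
    ac_rfl
  · intro k hk
    simp only [hvw k, hQx]
    have h4 := hcan _ _ (h1 k)
    have h5 := h3 k hk
    calc dsc L O E x k e * (sc L O M w₁ (x k) * O.valuation s)
        ≤ dsc L O E x k e * (a k * sc L O M w₁ (x z₁) * (a z₁)⁻¹ * O.valuation s) :=
          mul_le_mul_right (mul_le_mul_left h4 _) _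
      _ = (dsc L O E x k e * a k) * ((a z₁)⁻¹ * θ) := by rw [hθ]; ac_rfl
      _ ≤ b * ((a z₁)⁻¹ * θ) := mul_le_mul_left h5 _
      _ = b * (a z₁)⁻¹ * θ := by ac_rfl

end

end Pool.Agent.MP_e9d743_lc
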