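import Mathlib
import Pool.Agent.Lib.MP_e9d743_lc.M3a_Bound

/-!
# (Sel): selection of a basis

Task M3. Induction on `r` for all `E`: assume that there is a finset `Z₀ ⊆ K` with at most `r` elements
and `y i ∈ cl (E ∪ Z₀)` for all `i` (start: `Z₀` the set of the `y i`). If all `y i ∈ E` take `Z = ∅`.
Otherwise take such a `Z₀` with the smallest number of elements, it is not empty; `w₁ ∈ Z₀`,
`M = cl (E ∪ (Z₀ \ {w₁}))`; `w₁ ∉ M` and not all `y i ∈ M` by minimality; `y i ∈ cl (insert w₁ M)`.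
Let `z₁` be an index with `y z₁ ∉ M` for which `sc L O M w₁ (y i) * (m i)⁻¹` is maximal (for `y i ∈ M` this
quotient is `0`, `sc_zero`), so `sc L O M w₁ (y i) * m z₁ ≤ m i * sc L O M w₁ (y z₁)` for all `i`. Let
`E₁ = cl (insert (y z₁) E)`; `w₁ ∈ cl (insert (y z₁) M)` (`exch'`), so `y i ∈ cl (E₁ ∪ (Z₀ \ {w₁}))` and the
induction hypothesis for `E₁` gives `Z₁`. `z₁ ∉ Z₁` since `y z₁ ∈ E₁`. `Z = insert z₁ Z₁`. Independence:
for `z ∈ Z₁` it is the independence over `E₁`; for `z₁`: `Indep` over `cl (insert (y z₁) E)` of `Z₁` and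
`y z₁ ∉ E` give it by `indep_option`. The bound for `z ∈ Z₁`: `cl (E₁ ∪ y '' (Z₁ \ z))` and
`cl (E ∪ y '' (Z \ z))` are the same set, so the `dsc` are equal. The bound for `z₁` is `sel_bound`
(`x k = y k`, `k ∈ Z`, `a k = m k`, `b = m i`, `e = y i`).
-/

set_option autoImplicit false

open FirstOrder FirstOrder.Language

namespace Pool.Agent.MP_e9d743_lc

universe u v w

section
variable {L : FirstOrder.Language.{u, v}} {K : Type w} [Field K] [L.Structure K]
  {O : ValuationSubring K} {S : ValSymb L} {T : L.Theory} {F : Set K}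

omit [Field K] in
private theorem sel_set1 {E : Set K} {ι : Type} (y : ι → K) (z₁ : ι) (Z₁ : Set ι) :
    insert (y z₁) E ∪ Set.range (fun z : Z₁ => y z) =
      E ∪ Set.range (fun z : (insert z₁ Z₁ : Set ι) => y z) := by
  ext a
  constructor
  · rintro ((rfl | h) | ⟨z, rfl⟩)
    · exact Or.inr ⟨⟨z₁, Set.mem_insert _ _⟩, rfl⟩
    · exact Or.inl h
    · exact Or.inr ⟨⟨z, Set.mem_insert_of_mem _ z.2⟩, rfl⟩
  · rintro (h | ⟨⟨z, rfl | hz⟩, rfl⟩)
    · exact Or.inl (Or.inr h)
    · exact Or.inl (Or.inl rfl)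
    · exact Or.inr ⟨⟨z, hz⟩, rfl⟩

omit [Field K] in
private theorem sel_set2 {E : Set K} {ι : Type} (y : ι → K) (z₁ : ι) (Z₁ : Set ι)
    (hz₁ : z₁ ∉ Z₁) (z : Z₁) :
    insert (y z₁) E ∪ (fun z : Z₁ => y z) '' {z}ᶜ =
      E ∪ (fun z : (insert z₁ Z₁ : Set ι) => y z) '' {⟨z, Set.mem_insert_of_mem _ z.2⟩}ᶜ := by
  obtain ⟨z, hz⟩ := z
  ext a
  constructor
  · rintro ((rfl | h) | ⟨t, ht, rfl⟩)
    · refine Or.inr ⟨⟨z₁, Set.mem_insert _ _⟩, ?_, rfl⟩
      intro h
      apply hz₁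
      have : z₁ = z := congrArg Subtype.val h
      rw [this]
      exact hz
    · exact Or.inl h
    · refine Or.inr ⟨⟨t, Set.mem_insert_of_mem _ t.2⟩, ?_, rfl⟩
      intro h
      apply ht
      have h1 := Set.mem_singleton_iff.1 h
      have h2 := congrArg Subtype.val h1
      exact Subtype.ext h2
  · rintro (h | ⟨⟨t, ht | ht⟩, ht', rfl⟩)
    · exact Or.inl (Or.inr h)
    · subst ht
      exact Or.inl (Or.inl rfl)
    · refine Or.inr ⟨⟨t, ht⟩, ?_, rfl⟩
      intro h
      apply ht'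
      have h1 := Set.mem_singleton_iff.1 h
      have h2 := congrArg Subtype.val h1
      exact Set.mem_singleton_iff.2 (Subtype.ext h2)

private theorem sel_empty (hK : IsValModel S K O) {E : Set K} {ι : Type} {y : ι → K}
    {m : ι → O.ValueGroup} (h : ∀ i, y i ∈ E) :
    ∃ Z : Set ι, Indep L O E (fun z : Z => y z) ∧
      (∀ i, y i ∈ cl L O (E ∪ Set.range (fun z : Z => y z))) ∧
      ∀ (z : Z) (i : ι), dsc L O E (fun z : Z => y z) z (y i) * m z ≤ m i := by
  refine ⟨∅, fun i => i.2.elim, fun i => subset_cl hK (Or.inl (h i)), fun z => z.2.elim⟩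

private theorem sel_aux (H : Hyp S T K O) {ι : Type} [Finite ι] (y : ι → K)
    (m : ι → O.ValueGroup) (hm : ∀ i, 0 < m i) : ∀ (r : ℕ) (E : Set K), Cld L O E →
    (∃ Z₀ : Finset K, Z₀.card ≤ r ∧ ∀ i, y i ∈ cl L O (E ∪ (Z₀ : Set K))) →
    ∃ Z : Set ι, Indep L O E (fun z : Z => y z) ∧
      (∀ i, y i ∈ cl L O (E ∪ Set.range (fun z : Z => y z))) ∧
      ∀ (z : Z) (i : ι), dsc L O E (fun z : Z => y z) z (y i) * m z ≤ m i := by
  classical
  have hK : IsValModel S K O := H.val
  intro r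
  induction r with
  | zero =>
    rintro E hE ⟨Z₀, hc, hZ⟩
    have hZ0 : Z₀ = ∅ := Finset.card_eq_zero.1 (Nat.le_zero.1 hc)
    subst hZ0
    refine sel_empty hK fun i => hE ?_
    have := hZ i
    rwa [Finset.coe_empty, Set.union_empty] at this
  | succ r ih =>
    rintro E hE ⟨Z', hc', hZ'⟩
    by_cases hall : ∀ i, y i ∈ E
    · exact sel_empty hK hall
    -- a minimal finset
    obtain ⟨Z₀, hZ₀, hmin⟩ : ∃ Z₀ : Finset K, (∀ i, y i ∈ cl L O (E ∪ (Z₀ : Set K))) ∧
        ∀ Z : Finset K, (∀ i, y i ∈ cl L O (E ∪ (Z : Set K))) → Z₀.card ≤ Z.card := by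
      have hex : ∃ n : ℕ, ∃ Z : Finset K, (∀ i, y i ∈ cl L O (E ∪ (Z : Set K))) ∧
        Z.card = n := ⟨_, Z', hZ', rfl⟩
      obtain ⟨Z₀, h1, h2⟩ := Nat.find_spec hex
      exact ⟨Z₀, h1, fun Z hZ => h2.le.trans (Nat.find_min' hex ⟨Z, hZ, rfl⟩)⟩
    have hcard : Z₀.card ≤ r + 1 := (hmin Z' hZ').trans hc'
    have hne : Z₀.Nonempty := by
      rw [Finset.nonempty_iff_ne_empty]
      rintro rfl
      apply hall
      intro i
      have := hZ₀ i
      rw [Finset.coe_empty, Set.union_empty] at this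
      exact hE this
    obtain ⟨w₁, hw₁⟩ := hne
    have hcl := Finset.card_erase_lt_of_mem hw₁
    obtain ⟨M, hM⟩ : ∃ M : Set K, M = cl L O (E ∪ ((Z₀.erase w₁ : Finset K) : Set K)) := ⟨_, rfl⟩
    have hMc : Cld L O M := by
      rw [hM]
      exact cld_cl hK
    have hEM : E ⊆ M := by
      rw [hM]
      exact fun a ha => subset_cl hK (Or.inl ha)
    have hZM : ((Z₀.erase w₁ : Finset K) : Set K) ⊆ M := by
      rw [hM]
      exact fun a ha => subset_cl hK (Or.inr ha)
    have hyM : ∀ i, y i ∈ cl L O (insert w₁ M) := by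
      intro i
      refine cl_mono ?_ (hZ₀ i)
      rintro a (ha | ha)
      · exact Or.inr (hEM ha)
      · by_cases haw : a = w₁
        · exact Or.inl haw
        · exact Or.inr (hZM (Finset.mem_coe.2 (Finset.mem_erase.2 ⟨haw, ha⟩)))
    have hw₁M : w₁ ∉ M := by
      intro h
      refine absurd (hmin (Z₀.erase w₁) fun i => ?_) (not_le.2 hcl)
      rw [← hM]
      have := hyM i
      rw [Set.insert_eq_of_mem h] at this
      exact hMc this
    obtain ⟨i₀, hi₀⟩ : ∃ i, y i ∉ M := by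
      by_contra hcon
      push Not at hcon
      refine absurd (hmin (Z₀.erase w₁) fun i => ?_) (not_le.2 hcl)
      rw [← hM]
      exact hcon i
    -- the maximal ratio
    have : Nonempty ι := ⟨i₀⟩
    obtain ⟨z₁, hz₁⟩ := Finite.exists_max (fun i => sc L O M w₁ (y i) * (m i)⁻¹)
    have hz₁' : ∀ i, sc L O M w₁ (y i) * m z₁ ≤ m i * sc L O M w₁ (y z₁) := by
      intro i
      have h1 := hz₁ i
      have h2 : sc L O M w₁ (y i) * (m i)⁻¹ * (m i * m z₁) ≤
          sc L O M w₁ (y z₁) * (m z₁)⁻¹ * (m i * m z₁) := mul_le_mul_left h1 _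
      have e1 : sc L O M w₁ (y i) * (m i)⁻¹ * (m i * m z₁) = sc L O M w₁ (y i) * m z₁ := by
        rw [mul_assoc, ← mul_assoc (m i)⁻¹, inv_mul_cancel₀ (hm i).ne', one_mul]
      have e2 : sc L O M w₁ (y z₁) * (m z₁)⁻¹ * (m i * m z₁) = m i * sc L O M w₁ (y z₁) := by
        rw [mul_comm (m i) (m z₁), mul_assoc, ← mul_assoc (m z₁)⁻¹,
          inv_mul_cancel₀ (hm z₁).ne', one_mul, mul_comm]
      rwa [e1, e2] at h2
    have hz₁M : y z₁ ∉ M := by
      intro h
      have h1 : sc L O M w₁ (y z₁) = 0 := (sc_zero H hMc hw₁M (hyM z₁)).2 h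
      have h2 := hz₁' i₀
      rw [h1, mul_zero] at h2
      have h3 : sc L O M w₁ (y i₀) * m z₁ = 0 := le_antisymm h2 zero_le
      rcases mul_eq_zero.1 h3 with h3 | h3
      · exact hi₀ ((sc_zero H hMc hw₁M (hyM i₀)).1 h3)
      · exact (hm z₁).ne' h3
    -- the induction hypothesis
    have hE₁ : Cld L O (cl L O (insert (y z₁) E)) := cld_cl hK
    have hyE₁ : y z₁ ∈ cl L O (insert (y z₁) E) := subset_cl hK (Set.mem_insert _ _)
    have hw₁' : w₁ ∈ cl L O (insert (y z₁) M) := exch' H hMc (hyM z₁) hz₁M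
    obtain ⟨Z₁, hI, hS, hB⟩ := ih (cl L O (insert (y z₁) E)) hE₁ ⟨Z₀.erase w₁, by omega, by
      intro i
      have hcl' : Cld L O (cl L O (cl L O (insert (y z₁) E) ∪
        ((Z₀.erase w₁ : Finset K) : Set K))) := cld_cl hK
      have hM' : M ⊆ cl L O (cl L O (insert (y z₁) E) ∪
          ((Z₀.erase w₁ : Finset K) : Set K)) := by
        rw [hM, cl_sub_iff hK hcl']
        rintro a (ha | ha)
        · exact subset_cl hK (Or.inl (subset_cl hK (Or.inr ha)))
        · exact subset_cl hK (Or.inr ha)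
      have hyz : y z₁ ∈ cl L O (cl L O (insert (y z₁) E) ∪
          ((Z₀.erase w₁ : Finset K) : Set K)) := subset_cl hK (Or.inl hyE₁)
      have hw' : w₁ ∈ cl L O (cl L O (insert (y z₁) E) ∪
          ((Z₀.erase w₁ : Finset K) : Set K)) :=
        (cl_sub_iff hK hcl').2 (Set.insert_subset hyz hM') hw₁'
      exact (cl_sub_iff hK hcl').2 (Set.insert_subset hw' hM') (hyM i)⟩
    have hz₁Z : z₁ ∉ Z₁ := fun h => hI ⟨z₁, h⟩ (subset_cl hK (Or.inl hyE₁))
    have hz₁E : y z₁ ∉ E := fun h => hz₁M (hEM h)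
    have hIo := indep_option H hE hz₁E hI
    have hInd : Indep L O E (fun z : (insert z₁ Z₁ : Set ι) => y z) := by
      have hg : Function.Injective (fun z : (insert z₁ Z₁ : Set ι) =>
          (if h : (z : ι) ∈ Z₁ then some ⟨z, h⟩ else none : Option Z₁)) := by
        rintro ⟨a, ha⟩ ⟨b, hb⟩ hab
        dsimp only at hab
        by_cases h1 : a ∈ Z₁
        · by_cases h2 : b ∈ Z₁
          · rw [dif_pos h1, dif_pos h2] at hab
            have := congrArg Subtype.val (Option.some_injective _ hab)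
            exact Subtype.ext this
          · rw [dif_pos h1, dif_neg h2] at hab
            exact absurd hab (by simp)
        · by_cases h2 : b ∈ Z₁
          · rw [dif_neg h1, dif_pos h2] at hab
            exact absurd hab (by simp)
          · have e1 : a = z₁ := ha.resolve_right h1
            have e2 : b = z₁ := hb.resolve_right h2
            subst e1
            subst e2
            rfl
      have h1 := indep_sub hIo hg
      have e : (fun z : (insert z₁ Z₁ : Set ι) => y z) = fun k : (insert z₁ Z₁ : Set ι) =>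
          (fun o : Option Z₁ => o.elim (y z₁) (fun z : Z₁ => y z))
            (if h : (k : ι) ∈ Z₁ then some ⟨k, h⟩ else none) := by
        funext z
        dsimp only
        by_cases h : (z : ι) ∈ Z₁
        · rw [dif_pos h]
          rfl
        · rw [dif_neg h]
          have : (z : ι) = z₁ := z.2.resolve_right h
          rw [this]
          rfl
      rw [e]
      exact h1
    have hSp : ∀ i, y i ∈ cl L O (E ∪ Set.range (fun z : (insert z₁ Z₁ : Set ι) => y z)) := by
      intro i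
      have := hS i
      rwa [cl_union_cl hK, sel_set1] at this
    have hB' : ∀ (z : Z₁) (i : ι), dsc L O E (fun z : (insert z₁ Z₁ : Set ι) => y z)
        ⟨z, Set.mem_insert_of_mem _ z.2⟩ (y i) * m z ≤ m i := by
      intro z i
      have := hB z i
      unfold dsc at this ⊢
      rwa [cl_union_cl hK, sel_set2 y z₁ Z₁ hz₁Z z] at this
    refine ⟨insert z₁ Z₁, hInd, hSp, ?_⟩
    rintro ⟨z, hz⟩ i
    by_cases hzz : z = z₁
    · subst hzz
      refine sel_bound H hE hMc hEM hw₁M hInd (z₁ := ⟨z, hz⟩) (hSp i) (fun k => hyM k)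
        (a := fun k => m k) (b := m i) (fun k => hm k) hz₁M (fun k => hz₁' k) (hz₁' i) ?_
      rintro ⟨k, hk⟩ hkz
      have hk' : k ∈ Z₁ := hk.resolve_left fun h => hkz (Subtype.ext h)
      exact hB' ⟨k, hk'⟩ i
    · have hz' : z ∈ Z₁ := hz.resolve_left hzz
      exact hB' ⟨z, hz'⟩ i

theorem sel (H : Hyp S T K O) {E : Set K} (hE : Cld L O E) {ι : Type} [Finite ι] (y : ι → K)
    (m : ι → O.ValueGroup) (hm : ∀ i, 0 < m i) :
    ∃ Z : Set ι, Indep L O E (fun z : Z => y z) ∧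
      (∀ i, y i ∈ cl L O (E ∪ Set.range (fun z : Z => y z))) ∧
      ∀ (z : Z) (i : ι), dsc L O E (fun z : Z => y z) z (y i) * m z ≤ m i := by
  classical
  have : Fintype ι := Fintype.ofFinite ι
  refine sel_aux H y m hm _ E hE ⟨Finset.univ.image y, le_rfl, fun i => ?_⟩
  refine subset_cl H.val (Or.inr ?_)
  rw [Finset.mem_coe, Finset.mem_image]
  exact ⟨i, Finset.mem_univ _, rfl⟩

end

end Pool.Agent.MP_e9d743_lc
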