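import Mathlib
import Pool.Agent.Lib.MP_e9d743_lc.M0_Goal

/-!
# The goal for `m = 0`, and case A

Task M4. `caseA`: `y i = P i b` with `P i` definable over `M` (`exists_fun1`), `y' i = P i b'`.
`|y' i - y i| = sc L O M b (y i) * |b' - b|` (`sc_near`) `≤ sc L O M b (y i) * (τ * μ b) ≤ τ * μ (y i)`. The
set `{β | X (β, fun i => P i β)}` is definable over `M` (`Dfn.mono`, `Dfn.subst`), contains `b`, so
contains `b'` by `N1` over `M`.
`goal_zero`: `caseA` for `M = F`: `y i ∈ cl (insert b F)`, `Near O F b b'` by `Ctx.near_norm`, and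
`sc L O F b (y i) * μ b = μ (y i)` by `IsNorm.comp`.
-/

set_option autoImplicit false

open FirstOrder FirstOrder.Language

namespace Pool.Agent.MP_e9d743_lc

universe u v w

section
variable {L : FirstOrder.Language.{u, v}} {K : Type w} [Field K] [L.Structure K]
  {O : ValuationSubring K} {S : ValSymb L} {T : L.Theory} {F : Set K}

variable {N₀ : Set O.ValueGroup} {μ : K → O.ValueGroup}

theorem caseA (H : Hyp S T K O) {M : Set K} (hM : Cld L O M) (hFM : F ⊆ M) {ι : Type} [Finite ι]
    {y : ι → K} {b b' : K} (hy : ∀ i, y i ∈ cl L O (insert b M)) (hn : Near O M b b')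
    {τ : O.ValueGroup} (hb : O.valuation (b' - b) ≤ τ * μ b)
    (hs : ∀ i, sc L O M b (y i) * μ b ≤ μ (y i)) {X : (Option ι → K) → Prop}
    (hX : Dfn L O F X) (h : X (fun o => o.elim b y)) :
    ∃ y' : ι → K, X (fun o => o.elim b' y') ∧
      ∀ i, O.valuation (y' i - y i) ≤ τ * μ (y i) := by
  choose P hP hPb using fun i => exists_fun1 H.val (hy i)
  have hyP : y = fun i => P i b := funext fun i => (hPb i).symm
  refine ⟨fun i => P i b', ?_, fun i => ?_⟩
  · have hD : D1 L O M {β : K | X (fun o => o.elim β (fun i => P i β))} := by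
      unfold D1
      refine Dfn.subst (p := X) (hX.mono hFM)
        (t := fun v : Unit → K => fun o => o.elim (v ()) (fun i => P i (v ()))) ?_
      rintro (_ | i)
      · exact DfnF.var ()
      · exact hP i
    have hb0 : b ∈ {β : K | X (fun o => o.elim β (fun i => P i β))} := by
      rw [hyP] at h
      exact h
    exact N1 H hM hD hb0 hn
  · have h1 := sc_near H hM (hP i) hn
    rw [hPb i] at h1
    show O.valuation (P i b' - y i) ≤ τ * μ (y i)
    rw [h1]
    calc sc L O M b (y i) * O.valuation (b' - b) ≤ sc L O M b (y i) * (τ * μ b) := by gcongr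
      _ = τ * (sc L O M b (y i) * μ b) := mul_left_comm _ _ _
      _ ≤ τ * μ (y i) := by
        have := hs i
        gcongr

theorem goal_zero (C : Ctx S T O F N₀ μ) : Goal L O F N₀ μ 0 := by
  intro ι _ y b b' τ Z X hZ hb hy hτ hbb hX h
  have hZ0 : Z = ∅ := Finset.card_eq_zero.1 (Nat.le_zero.1 hZ)
  subst hZ0
  simp only [Finset.coe_empty, Set.union_empty] at hy
  refine caseA C.hyp C.cld subset_rfl hy (C.near_norm hb hτ ?_) hbb (fun i => ?_) hX h
  · rwa [Valuation.map_sub_swap]
  · exact (C.norm.comp b hb (y i) (hy i)).ge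

end

end Pool.Agent.MP_e9d743_lc
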