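import Mathlib
import Pool.Agent.Lib.MP_e9d743_lc.M0_Goal

/-!
# (N')

Task M1. If `e ∈ F` then `μ e = 0`. Otherwise `indep_mem` gives `i₁` with
`x i₁ ∈ cl (insert e (F ∪ x '' {i₁}ᶜ))`; the finset `Z` of the `x i`, `i ≠ i₁`, has at most `m`
elements and all `x i` are in `cl (insert e (F ∪ Z))`. `e = G x` (`exists_fun`), `loc` and `loc_le` give
`ρ`. `τ > 0`, `τ ∉ N₀`, `τ * μ (x i) < ρ` for all `i` (`Ctx.tau_fin`); `e' = e + t`, `|t| = τ * μ e`.
`Goal m` for `b := e`, `b' := e'`, `y := x`, `X w := G (fun i => w (some i)) = w none`: there is `x'`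
with `G x' = e'`, `|x' i - x i| ≤ τ * μ (x i)`. By `loc_le` for the bound `τ * B`:
`τ * μ e = |G x' - G x| ≤ τ * B`.
-/

set_option autoImplicit false

open FirstOrder FirstOrder.Language

namespace Pool.Agent.MP_e9d743_lc

universe u v w

section
variable {L : FirstOrder.Language.{u, v}} {K : Type w} [Field K] [L.Structure K]
  {O : ValuationSubring K} {S : ValSymb L} {T : L.Theory} {F : Set K}

variable {N₀ : Set O.ValueGroup} {μ : K → O.ValueGroup}

theorem nPrime (C : Ctx S T O F N₀ μ) {m : ℕ} (hG : Goal L O F N₀ μ m) {ι : Type} [Finite ι]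
    (hι : Nat.card ι ≤ m + 1) {x : ι → K} (hx : Indep L O F x) {e : K}
    (he : e ∈ cl L O (F ∪ Set.range x)) {B : O.ValueGroup}
    (hB : ∀ i, dsc L O F x i e * μ (x i) ≤ B) : μ e ≤ B := by
  classical
  have hK := C.hyp.val
  by_cases heF : e ∈ F
  · rw [(C.norm.zero e).2 heF]
    exact zero_le'
  have := Fintype.ofFinite ι
  obtain ⟨i₁, hi₁⟩ := indep_mem C.hyp C.cld he heF
  obtain ⟨Z, hZ⟩ : ∃ Z : Finset K, Z = (Finset.univ.erase i₁).image x := ⟨_, rfl⟩
  have hZc : Z.card ≤ m := by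
    have h1 : Z.card ≤ (Finset.univ.erase i₁).card := by
      rw [hZ]
      exact Finset.card_image_le
    rw [Finset.card_erase_of_mem (Finset.mem_univ _), Finset.card_univ, ← Nat.card_eq_fintype_card]
      at h1
    omega
  have hZs : (Z : Set K) = x '' {i₁}ᶜ := by
    rw [hZ]
    ext y
    simp
  obtain ⟨G, hGG, hGx⟩ := exists_fun hK he
  obtain ⟨ρ, hρ, hle⟩ := loc_le (loc C.hyp C.cld hx hGG)
  obtain ⟨τ, hτ0, hτN, hτρ⟩ := C.tau_fin hρ x
  obtain ⟨t, ht⟩ := exists_val (O := O) (τ * μ e)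
  have hX : Dfn L O F (fun w : Option ι → K => G (fun i => w (some i)) = w none) :=
    Dfn.eq (hGG.ren some) (DfnF.var none)
  obtain ⟨y', hy1, hy2⟩ := hG ι x e (e + t) τ Z _ hZc heF (by
    intro i
    rw [hZs]
    by_cases hi : i = i₁
    · rw [hi]
      exact hi₁
    · exact subset_cl hK (Or.inr (Or.inr ⟨i, hi, rfl⟩))) hτN (by
    rw [add_sub_cancel_left, ht]) hX hGx
  have h1 : G y' = e + t := hy1
  have h2 := hle x y' (fun j => by rw [sub_self, map_zero]; exact hρ)
    (fun j => (hy2 j).trans_lt (hτρ j)) (τ * B) (fun i => by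
      rw [hGx]
      calc dsc L O F x i e * O.valuation (y' i - x i)
          ≤ dsc L O F x i e * (τ * μ (x i)) := mul_le_mul_right (hy2 i) _
        _ = τ * (dsc L O F x i e * μ (x i)) := mul_left_comm _ _ _
        _ ≤ τ * B := mul_le_mul_right (hB i) _)
  rw [h1, hGx, add_sub_cancel_left, ht] at h2
  exact (mul_le_mul_iff_right₀ hτ0).1 h2

end

end Pool.Agent.MP_e9d743_lc
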