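import Mathlib
import Pool.Agent.Lib.MP_e9d743_lc.M1_NPrime

/-!
# Case B, first part: moving one of the `x z`

Task M5a. `κ` is finite: choose `J ⊆ κ` minimal with `τ * μ b ∈ NN O (cl (F ∪ x '' J)) b`; `J` is not
empty as `τ * μ b ∉ NN O F b` (`IsNorm.nn`, `cl_eq`). Let `d ∈ cl (F ∪ x '' J)`, `|b - d| ≤ τ * μ b`, so
`Near O F b d` (`Ctx.near_norm`), `μ d = μ b > 0`. The family `x j`, `j ∈ J` is independent over `F`
(`indep_sub`; `hx'` gives the independence over `F` of the family `x`, by `indep_option` and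
`indep_sub`). `nPrime` (`card J ≤ m + 1`) for `e := d`: if
all `z ∈ J` had `dsc L O F xJ z d * μ (x z) < μ b` then `μ d < μ b` (take `B` the maximum), contradiction;
so there is `z ∈ J` with `κ_z * μ (x z) ≥ μ b`, `κ_z = dsc L O F xJ z d`, which is `sc L O M (x z) d` for
`M = cl (F ∪ x '' (J \ {z}))`. `κ_z > 0`. By minimality of `J` `τ * μ b ∉ NN O M b`, so `Near O M b d` and
`Near O M d b`. `d = f (x z)` with `f` definable over `M` (`exists_fun1`). `N3` over `M`: there is
`z' ∈ cl (insert b M)` with `κ_z * |x z - z'| = |d - b| ≤ τ * μ b ≤ τ * κ_z * μ (x z)`. And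
`cl (insert b M) ⊆ cl (insert b (F ∪ x '' {z}ᶜ))`.
-/

set_option autoImplicit false

open FirstOrder FirstOrder.Language

namespace Pool.Agent.MP_e9d743_lc

universe u v w

section
variable {L : FirstOrder.Language.{u, v}} {K : Type w} [Field K] [L.Structure K]
  {O : ValuationSubring K} {S : ValSymb L} {T : L.Theory} {F : Set K}

variable {N₀ : Set O.ValueGroup} {μ : K → O.ValueGroup}

theorem star_point (C : Ctx S T O F N₀ μ) {m : ℕ} (hGoal : Goal L O F N₀ μ m) {κ : Type}
    [Finite κ] (hκ : Nat.card κ ≤ m + 1) {b : K} (hb : b ∉ F) {x : κ → K}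
    (hx : Indep L O (cl L O (insert b F)) x) {τ : O.ValueGroup} (hτ : τ ∉ N₀)
    (hB : τ * μ b ∈ NN O (cl L O (F ∪ Set.range x)) b) :
    ∃ (z : κ) (z' : K), z' ∈ cl L O (insert b (F ∪ x '' {z}ᶜ)) ∧
      O.valuation (x z - z') ≤ τ * μ (x z) := by
  classical
  have H := C.hyp
  have hK := H.val
  have hF := C.cld
  have hfin : Fintype κ := Fintype.ofFinite κ
  -- a minimal set of indices
  obtain ⟨J, hJB, hJmin⟩ : ∃ J : Finset κ, τ * μ b ∈ NN O (cl L O (F ∪ x '' (J : Set κ))) b ∧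
      ∀ z ∈ J, τ * μ b ∉ NN O (cl L O (F ∪ x '' ((J.erase z : Finset κ) : Set κ))) b := by
    have hP : τ * μ b ∈ NN O (cl L O (F ∪ x '' ((Finset.univ : Finset κ) : Set κ))) b := by
      rw [Finset.coe_univ, Set.image_univ]
      exact hB
    obtain ⟨J, hJ, hmin⟩ := WellFounded.has_min
      (wellFounded_lt : WellFounded ((· < ·) : Finset κ → Finset κ → Prop))
      {J : Finset κ | τ * μ b ∈ NN O (cl L O (F ∪ x '' (J : Set κ))) b} ⟨Finset.univ, hP⟩
    exact ⟨J, hJ, fun z hz h => hmin _ h (Finset.erase_ssubset hz)⟩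
  obtain ⟨d, hd, hbd⟩ := hJB
  have hnear : Near O F b d := C.near_norm hb hτ hbd
  have hμd : μ d = μ b := C.norm.near b d hnear
  have hμb : 0 < μ b := C.norm_pos hb
  obtain ⟨xJ, hxJ⟩ : ∃ xJ : {z // z ∈ J} → K, xJ = fun j => x j.1 := ⟨_, rfl⟩
  have hind : Indep L O F xJ := by
    rw [hxJ]
    exact indep_sub (indep_option H hF hb hx) (g := fun j : {z // z ∈ J} => some j.1)
      (fun i j hij => Subtype.ext (Option.some.inj hij))
  have hrange : Set.range xJ = x '' (J : Set κ) := by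
    rw [hxJ]
    ext y
    constructor
    · rintro ⟨j, rfl⟩
      exact ⟨j.1, j.2, rfl⟩
    · rintro ⟨j, hj, rfl⟩
      exact ⟨⟨j, hj⟩, rfl⟩
  have himg : ∀ z : {z // z ∈ J}, xJ '' {z}ᶜ = x '' ((J.erase z.1 : Finset κ) : Set κ) := by
    intro z
    rw [hxJ]
    ext y
    constructor
    · rintro ⟨j, hj, rfl⟩
      refine ⟨j.1, ?_, rfl⟩
      rw [Finset.mem_coe, Finset.mem_erase]
      exact ⟨fun h => hj (Subtype.ext h), j.2⟩
    · rintro ⟨j, hj, rfl⟩
      rw [Finset.mem_coe, Finset.mem_erase] at hj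
      exact ⟨⟨j, hj.2⟩, fun h => hj.1 (congrArg Subtype.val h), rfl⟩
  have hcard : Nat.card {z // z ∈ J} ≤ m + 1 :=
    (Nat.card_le_card_of_injective (fun j : {z // z ∈ J} => j.1) Subtype.val_injective).trans hκ
  have hdJ : d ∈ cl L O (F ∪ Set.range xJ) := by
    rw [hrange]
    exact hd
  obtain ⟨z, hz⟩ : ∃ z : {z // z ∈ J}, μ b ≤ dsc L O F xJ z d * μ (xJ z) := by
    by_contra hcon
    push Not at hcon
    have hb0 : (⊥ : O.ValueGroup) < μ b := by
      rw [bot_eq_zero]
      exact hμb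
    have hlt : (Finset.univ.sup fun z : {z // z ∈ J} => dsc L O F xJ z d * μ (xJ z)) < μ b :=
      (Finset.sup_lt_iff hb0).2 fun z _ => hcon z
    have h1 : μ d ≤ Finset.univ.sup fun z : {z // z ∈ J} => dsc L O F xJ z d * μ (xJ z) :=
      nPrime C hGoal hcard hind hdJ fun i =>
        Finset.le_sup (f := fun z : {z // z ∈ J} => dsc L O F xJ z d * μ (xJ z))
          (Finset.mem_univ i)
    rw [hμd] at h1
    exact absurd h1 (not_le.2 hlt)
  have hxz : xJ z = x z.1 := by rw [hxJ]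
  have hM : Cld L O (cl L O (F ∪ x '' ((J.erase z.1 : Finset κ) : Set κ))) := cld_cl hK
  have hdsc : dsc L O F xJ z d =
      sc L O (cl L O (F ∪ x '' ((J.erase z.1 : Finset κ) : Set κ))) (x z.1) d := by
    unfold dsc
    rw [himg z, hxz]
  have hxM : x z.1 ∉ cl L O (F ∪ x '' ((J.erase z.1 : Finset κ) : Set κ)) := by
    have := hind z
    rwa [himg z, hxz] at this
  have hnM : Near O (cl L O (F ∪ x '' ((J.erase z.1 : Finset κ) : Set κ))) b d :=
    near_of_le (hJmin z.1 z.2) hbd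
  have hdM : d ∈ cl L O (insert (x z.1)
      (cl L O (F ∪ x '' ((J.erase z.1 : Finset κ) : Set κ)))) := by
    rw [cl_insert_cl hK]
    refine cl_mono ?_ hd
    rintro y (hy | ⟨j, hj, rfl⟩)
    · exact Or.inr (Or.inl hy)
    · by_cases hjz : j = z.1
      · rw [hjz]
        exact Or.inl rfl
      · refine Or.inr (Or.inr ⟨j, ?_, rfl⟩)
        rw [Finset.mem_coe, Finset.mem_erase]
        exact ⟨hjz, hj⟩
  obtain ⟨f, hf, hfz⟩ := exists_fun1 hK hdM
  have hLS := sc_spec H hM hf hxM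
  have hnf : Near O (cl L O (F ∪ x '' ((J.erase z.1 : Finset κ) : Set κ))) (f (x z.1)) b := by
    rw [hfz]
    exact near_symm hnM
  obtain ⟨z', hz', -, hval, -⟩ := N3 H hM hf hxM hLS hnf
  rw [hfz, ← hdsc] at hval
  rw [hxz] at hz
  refine ⟨z.1, z', ?_, ?_⟩
  · rw [cl_insert_cl hK] at hz'
    refine cl_mono (Set.insert_subset_insert (Set.union_subset_union_right _
      (Set.image_mono ?_))) hz'
    intro j hj
    rw [Finset.mem_coe, Finset.mem_erase] at hj
    exact hj.1
  · have hk0 : 0 < dsc L O F xJ z d := by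
      rw [zero_lt_iff]
      intro h
      rw [h, zero_mul] at hz
      exact absurd hz (not_le.2 hμb)
    have h2 : dsc L O F xJ z d * O.valuation (x z.1 - z') ≤
        dsc L O F xJ z d * (τ * μ (x z.1)) := by
      rw [hval, Valuation.map_sub_swap]
      calc O.valuation (b - d) ≤ τ * μ b := hbd
        _ ≤ τ * (dsc L O F xJ z d * μ (x z.1)) := mul_le_mul_right hz τ
        _ = dsc L O F xJ z d * (τ * μ (x z.1)) := by
          rw [← mul_assoc, ← mul_assoc, mul_comm τ]
    exact le_of_mul_le_mul_left h2 hk0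

end

end Pool.Agent.MP_e9d743_lc
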