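import Mathlib
import Pool.Agent.Lib.MP_e9d743_lc.M0_Goal

/-!
# Case B, second part

Task M5b. `E_z = cl (cl (insert b F) ∪ x '' {z}ᶜ)`, equal to `cl (insert b (F ∪ x '' {z}ᶜ))`. `x z ∉ E_z`.
`τ * μ (x z) ∈ NN O E_z (x z)` because of `z'`. For each `i` there is `u i ∈ E_z` with
`|y i - u i| ≤ τ * μ (y i)`: if `y i ∈ E_z` take `u i = y i`; otherwise `NN_sc` over `E_z` (`z := x z`,
`y := y i`; `y i ∈ cl (insert (x z) E_z)`) gives
`dsc L O (cl (insert b F)) x z (y i) * (τ * μ (x z)) ∈ NN O E_z (y i)`, which is `≤ τ * μ (y i)` by `hs`, so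
`τ * μ (y i) ∈ NN O E_z (y i)`. `μ (u i) = μ (y i)` (`Ctx.near_norm`, `IsNorm.near`, `hy` `y i ∉ F`).
`Goal m` for `b`, `b'`, `u`, `Z` = the finset of the `x k`, `k ≠ z` (at most `m` elements) and
`X' w := ∃ y'', X (w none, y'') ∧ ∀ i, |y'' i - w (some i)| ≤ |y i - u i|` (definable over `F`: `Dfn.exF`,
`Dfn.finAll`, `DV.constV`) gives `u'` with `|u' i - u i| ≤ τ * μ (u i) = τ * μ (y i)` and `y''` with
`X (b', y'')`, `|y'' i - u' i| ≤ |y i - u i| ≤ τ * μ (y i)`. Take `y' = y''`.
-/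

set_option autoImplicit false

open FirstOrder FirstOrder.Language

namespace Pool.Agent.MP_e9d743_lc

universe u v w

section
variable {L : FirstOrder.Language.{u, v}} {K : Type w} [Field K] [L.Structure K]
  {O : ValuationSubring K} {S : ValSymb L} {T : L.Theory} {F : Set K}

variable {N₀ : Set O.ValueGroup} {μ : K → O.ValueGroup}

theorem caseB (C : Ctx S T O F N₀ μ) {m : ℕ} (hGoal : Goal L O F N₀ μ m) {κ : Type}
    [Finite κ] (hκ : Nat.card κ ≤ m + 1) {b b' : K} (hb : b ∉ F) {x : κ → K}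
    (hx : Indep L O (cl L O (insert b F)) x) {τ : O.ValueGroup} (hτ : τ ∉ N₀)
    (hbb : O.valuation (b' - b) ≤ τ * μ b) {z : κ} {z' : K}
    (hz' : z' ∈ cl L O (insert b (F ∪ x '' {z}ᶜ))) (hzz : O.valuation (x z - z') ≤ τ * μ (x z))
    {ι : Type} [Finite ι] {y : ι → K} (hyF : ∀ i, y i ∉ F)
    (hy : ∀ i, y i ∈ cl L O (cl L O (insert b F) ∪ Set.range x))
    (hs : ∀ i, dsc L O (cl L O (insert b F)) x z (y i) * μ (x z) ≤ μ (y i))
    {X : (Option ι → K) → Prop} (hX : Dfn L O F X) (h : X (fun o => o.elim b y)) :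
    ∃ y' : ι → K, X (fun o => o.elim b' y') ∧
      ∀ i, O.valuation (y' i - y i) ≤ τ * μ (y i) := by
  have hK := C.hyp.val
  obtain ⟨E, hE⟩ : ∃ E : Set K, E = cl L O (cl L O (insert b F) ∪ x '' {z}ᶜ) := ⟨_, rfl⟩
  have hE' : E = cl L O (insert b (F ∪ x '' {z}ᶜ)) := by
    rw [hE, cl_union_cl hK, Set.insert_union]
  have hEc : Cld L O E := by
    rw [hE]
    exact cld_cl hK
  have hxz : x z ∉ E := by
    rw [hE]
    exact hx z
  have hz'E : z' ∈ E := by
    rw [hE']
    exact hz'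
  have hNz : τ * μ (x z) ∈ NN O E (x z) := ⟨z', hz'E, hzz⟩
  have hu : ∀ i, ∃ u ∈ E, O.valuation (y i - u) ≤ τ * μ (y i) := by
    intro i
    by_cases hyE : y i ∈ E
    · exact ⟨y i, hyE, by rw [sub_self, map_zero]; exact zero_le⟩
    · have hsub : cl L O (cl L O (insert b F) ∪ Set.range x) ⊆ cl L O (insert (x z) E) := by
        refine cl_mono ?_
        rintro w (hw | ⟨k, rfl⟩)
        · refine Set.mem_insert_of_mem _ ?_
          rw [hE]
          exact subset_cl hK (Or.inl hw)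
        · by_cases hk : k = z
          · rw [hk]
            exact Set.mem_insert _ _
          · refine Set.mem_insert_of_mem _ ?_
            rw [hE]
            exact subset_cl hK (Or.inr ⟨k, hk, rfl⟩)
      have h1 := (NN_sc C.hyp hEc hxz (hsub (hy i)) hyE).2 hNz
      have h2 : sc L O E (x z) (y i) * μ (x z) ≤ μ (y i) := by
        rw [hE]
        exact hs i
      have h3 : sc L O E (x z) (y i) * (τ * μ (x z)) ≤ τ * μ (y i) := by
        calc sc L O E (x z) (y i) * (τ * μ (x z)) = τ * (sc L O E (x z) (y i) * μ (x z)) :=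
            mul_left_comm _ _ _
          _ ≤ τ * μ (y i) := by gcongr
      obtain ⟨c, hc, hc'⟩ := NN_up h1 h3
      exact ⟨c, hc, hc'⟩
  choose u huE huy using hu
  have hμu : ∀ i, μ (u i) = μ (y i) := fun i =>
    C.norm.near (y i) (u i) (C.near_norm (hyF i) hτ (huy i))
  have hfin : (x '' {z}ᶜ).Finite := Set.toFinite _
  have hcard : hfin.toFinset.card ≤ m := by
    rw [← Set.ncard_eq_toFinset_card _ hfin]
    have h1 := Set.ncard_image_le (f := x) (Set.toFinite ({z}ᶜ : Set κ))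
    have h2 := Set.ncard_add_ncard_compl ({z} : Set κ)
    rw [Set.ncard_singleton] at h2
    omega
  obtain ⟨u', ⟨y'', hXy, hy''⟩, hu'⟩ := hGoal ι u b b' τ hfin.toFinset
    (fun w => ∃ y'' : ι → K, X (fun o => o.elim (w none) y'') ∧
      ∀ i, O.valuation (y'' i - w (some i)) ≤ O.valuation (y i - u i)) hcard hb
    (fun i => by
      rw [Set.Finite.coe_toFinset, ← hE']
      exact huE i) hτ hbb (by
      refine Dfn.exF (p := fun (w : Option ι → K) (y'' : ι → K) =>
        X (fun o => o.elim (w none) y'') ∧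
        ∀ i, O.valuation (y'' i - w (some i)) ≤ O.valuation (y i - u i)) ?_
      refine Dfn.and ?_ (Dfn.finAll fun i => Dfn.vle hK (DV.val hK (DfnF.sub hK
        (DfnF.var (Sum.inr i)) (DfnF.var (Sum.inl (some i))))) (DV.constV hK _))
      refine (hX.ren (fun o : Option ι => o.elim (Sum.inl none : Option ι ⊕ ι) Sum.inr)).congr
        fun v => ?_
      have h1 : (fun o : Option ι => o.elim (v (Sum.inl none)) (fun i => v (Sum.inr i))) =
          fun a => v (a.elim (Sum.inl none : Option ι ⊕ ι) Sum.inr) := by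
        funext o
        cases o <;> rfl
      rw [← h1])
    ⟨y, h, fun i => le_rfl⟩
  refine ⟨y'', hXy, fun i => ?_⟩
  have h1 : O.valuation (y'' i - u' i) ≤ τ * μ (y i) := (hy'' i).trans (huy i)
  have h2 : O.valuation (u' i - u i) ≤ τ * μ (y i) := by
    rw [← hμu i]
    exact hu' i
  have h3 : O.valuation (u i - y i) ≤ τ * μ (y i) := by
    rw [Valuation.map_sub_swap]
    exact huy i
  have h4 : y'' i - y i = (y'' i - u' i) + ((u' i - u i) + (u i - y i)) := by ring
  rw [h4]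
  exact Valuation.map_add_le _ h1 (Valuation.map_add_le _ h2 h3)

end

end Pool.Agent.MP_e9d743_lc
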