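import Mathlib
import Pool.Agent.Lib.MP_e9d743_lc.M0_Goal

/-!
# Reduction to `y i ∉ F`

Task M5c. Given `y`, let `κ = {i // y i ∉ F}` and
`X' w := X (fun o => o.elim (w none) (fun i => if h : y i ∉ F then w (some ⟨i, h⟩) else y i))`, definable
over `F` (`Dfn.subst`, `DfnF.var`, `DfnF.const`). Take `y' i = y i` for `y i ∈ F`.
-/

set_option autoImplicit false

open FirstOrder FirstOrder.Language

namespace Pool.Agent.MP_e9d743_lc

universe u v w

section
variable {L : FirstOrder.Language.{u, v}} {K : Type w} [Field K] [L.Structure K]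
  {O : ValuationSubring K} {S : ValSymb L} {T : L.Theory} {F : Set K}

variable {N₀ : Set O.ValueGroup} {μ : K → O.ValueGroup}

theorem goal_of (m : ℕ) (h : ∀ (ι : Type) [Finite ι] (y : ι → K) (b b' : K) (τ : O.ValueGroup)
    (Z : Finset K) (X : (Option ι → K) → Prop), (∀ i, y i ∉ F) → Z.card ≤ m → b ∉ F →
    (∀ i, y i ∈ cl L O (insert b (F ∪ Z))) → τ ∉ N₀ → O.valuation (b' - b) ≤ τ * μ b →
    Dfn L O F X → X (fun o => o.elim b y) →
    ∃ y' : ι → K, X (fun o => o.elim b' y') ∧
      ∀ i, O.valuation (y' i - y i) ≤ τ * μ (y i)) : Goal L O F N₀ μ m := by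
  intro ι _ y b b' τ Z X hZ hb hy hτ hv hX hXy
  classical
  let t : (Option {i : ι // y i ∉ F} → K) → Option ι → K := fun w o =>
    o.elim (w none) (fun i => if h : y i ∉ F then w (some ⟨i, h⟩) else y i)
  have hX' : Dfn L O F (fun w => X (t w)) := by
    refine Dfn.subst hX ?_
    rintro (_ | i)
    · exact DfnF.var none
    · by_cases h : y i ∉ F
      · have e : (fun w : Option {i : ι // y i ∉ F} → K => t w (some i)) =
            fun w => w (some ⟨i, h⟩) := by
          funext w
          simp only [t, Option.elim]
          exact dif_pos h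
        rw [e]
        exact DfnF.var _
      · have e : (fun w : Option {i : ι // y i ∉ F} → K => t w (some i)) = fun _ => y i := by
          funext w
          simp only [t, Option.elim]
          exact dif_neg h
        rw [e]
        exact DfnF.const (not_not.1 h)
  have h0 : X (t (fun o => o.elim b (fun k : {i : ι // y i ∉ F} => y k.1))) := by
    have e : t (fun o => o.elim b (fun k : {i : ι // y i ∉ F} => y k.1)) =
        fun o => o.elim b y := by
      funext o
      rcases o with _ | i
      · rfl
      · by_cases h : y i ∉ F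
        · simp only [t, Option.elim]
          exact dif_pos h
        · simp only [t, Option.elim]
          exact dif_neg h
    rw [e]
    exact hXy
  obtain ⟨y', h1, h2⟩ := h {i : ι // y i ∉ F} (fun k => y k.1) b b' τ Z (fun w => X (t w))
    (fun k => k.2) hZ hb (fun k => hy k.1) hτ hv hX' h0
  refine ⟨fun i => if h : y i ∉ F then y' ⟨i, h⟩ else y i, ?_, ?_⟩
  · have e : t (fun o => o.elim b' y') =
        fun o => o.elim b' (fun i => if h : y i ∉ F then y' ⟨i, h⟩ else y i) := by
      funext o
      rcases o with _ | i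
      · rfl
      · rfl
    rw [← e]
    exact h1
  · intro i
    show O.valuation ((if h : y i ∉ F then y' ⟨i, h⟩ else y i) - y i) ≤ τ * μ (y i)
    by_cases h : y i ∉ F
    · have e : (if h : y i ∉ F then y' ⟨i, h⟩ else y i) = y' ⟨i, h⟩ := dif_pos h
      rw [e]
      exact h2 ⟨i, h⟩
    · have e : (if h : y i ∉ F then y' ⟨i, h⟩ else y i) = y i := dif_neg h
      rw [e, sub_self, map_zero]
      exact zero_le

end

end Pool.Agent.MP_e9d743_lc
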