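import Mathlib
import Pool.Agent.Lib.MP_e9d743_lc.M2_N
import Pool.Agent.Lib.MP_e9d743_lc.M3_Sel
import Pool.Agent.Lib.MP_e9d743_lc.M4_Zero
import Pool.Agent.Lib.MP_e9d743_lc.M5a_Star
import Pool.Agent.Lib.MP_e9d743_lc.M5b_CaseB
import Pool.Agent.Lib.MP_e9d743_lc.M5c_Red

/-!
# The induction step

Task M5. By `goal_of` all `y i ∉ F`. `E = cl (insert b F)`; `sel` over `E` with the weights
`μ (y i) > 0` gives `Z'`, `x k = y k` for `k ∈ Z'`, independent over `E`. `rank_le` (over `E`, with the
finset `Z`: `y i ∈ cl (E ∪ Z)`) gives `Nat.card Z' ≤ m + 1`. If `Nat.card Z' ≤ m` apply `Goal m` with the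
finset of the `y k`, `k ∈ Z'`. Otherwise `Nat.card Z' = m + 1`. The family
`fun o : Option Z' => o.elim b x` is independent over `F` (`indep_option`) of cardinality `m + 2`; `nMain`
for it, `e = y i`, `i₀ = none`, `B = μ (y i)` (`dsc` of it in the direction `some k` is
`dsc L O E x k (y i)`, the sets `cl (F ∪ ...)` are equal) gives
`sc L O M b (y i) * μ b ≤ μ (y i)` for `M = cl (F ∪ Set.range x)`. If `Near O M b b'`: `caseA`. Otherwise
`|b - b'| ∈ NN O M b`, so `τ * μ b ∈ NN O M b` (`NN_up`), `star_point` and `caseB`.
-/

set_option autoImplicit false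

open FirstOrder FirstOrder.Language

namespace Pool.Agent.MP_e9d743_lc

universe u v w

section
variable {L : FirstOrder.Language.{u, v}} {K : Type w} [Field K] [L.Structure K]
  {O : ValuationSubring K} {S : ValSymb L} {T : L.Theory} {F : Set K}

variable {N₀ : Set O.ValueGroup} {μ : K → O.ValueGroup}

theorem goal_succ (C : Ctx S T O F N₀ μ) {m : ℕ} (h : Goal L O F N₀ μ m) :
    Goal L O F N₀ μ (m + 1) := by
  classical
  have H := C.hyp
  have hF : Cld L O F := C.cld
  refine goal_of (m + 1) ?_
  intro ι _ y b b' τ Z X hyF hZ hb hy hτ hbb hX hXy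
  have hE : Cld L O (cl L O (insert b F)) := cld_cl H.val
  obtain ⟨Z', hind, hgen, hbd⟩ := sel H hE y (fun i => μ (y i))
    (fun i => C.norm_pos (hyF i))
  have hcard : Nat.card Z' ≤ m + 1 := by
    refine le_trans (rank_le H hind (Z := Z) fun i => ?_) hZ
    rw [cl_union_cl H.val, Set.insert_union]
    exact hy i
  have hgen' : ∀ i, y i ∈ cl L O (insert b (F ∪ Set.range (fun z : Z' => y z))) := by
    intro i
    have h1 := hgen i
    rw [cl_union_cl H.val, Set.insert_union] at h1
    exact h1
  by_cases hcm : Nat.card Z' ≤ m
  · have hfin : (Set.range (fun z : Z' => y z)).Finite := Set.finite_range _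
    have hW : hfin.toFinset.card ≤ m := by
      rw [← Set.ncard_eq_toFinset_card _ hfin]
      refine le_trans ?_ hcm
      have h2 := Set.ncard_image_le (f := fun z : Z' => y z) (s := Set.univ) Set.finite_univ
      rwa [Set.image_univ, Set.ncard_univ] at h2
    refine h ι y b b' τ _ X hW hb (fun i => ?_) hτ hbb hX hXy
    rw [Set.Finite.coe_toFinset]
    exact hgen' i
  · have hceq : Nat.card Z' = m + 1 := by omega
    have hopt := indep_option H hF hb hind
    have hcopt : Nat.card (Option Z') = m + 2 := by
      rw [Finite.card_option, hceq]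
    have hrange : Set.range (fun o : Option Z' => o.elim b (fun z : Z' => y z)) =
        insert b (Set.range (fun z : Z' => y z)) := by
      ext t
      simp only [Set.mem_range, Set.mem_insert_iff, Option.exists, Option.elim_none,
        Option.elim_some]
      constructor
      · rintro (h1 | h1)
        · exact Or.inl h1.symm
        · exact Or.inr h1
      · rintro (h1 | h1)
        · exact Or.inl h1.symm
        · exact Or.inr h1
    have hnone : (fun o : Option Z' => o.elim b (fun z : Z' => y z)) '' {none}ᶜ =
        Set.range (fun z : Z' => y z) := by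
      ext t
      simp only [Set.mem_image, Set.mem_range, Set.mem_compl_iff, Set.mem_singleton_iff,
        Option.exists, Option.elim_none, Option.elim_some]
      constructor
      · rintro (h1 | ⟨k, _, h1⟩)
        · exact absurd trivial h1.1
        · exact ⟨k, h1⟩
      · rintro ⟨k, h1⟩
        exact Or.inr ⟨k, by simp, h1⟩
    have hsome : ∀ k : Z', (fun o : Option Z' => o.elim b (fun z : Z' => y z)) '' {some k}ᶜ =
        insert b ((fun z : Z' => y z) '' {k}ᶜ) := by
      intro k
      ext t
      simp only [Set.mem_image, Set.mem_insert_iff, Set.mem_compl_iff, Set.mem_singleton_iff,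
        Option.exists, Option.elim_none, Option.elim_some]
      constructor
      · rintro (h1 | ⟨j, hj, h1⟩)
        · exact Or.inl h1.2.symm
        · exact Or.inr ⟨j, fun h2 => hj (by rw [h2]), h1⟩
      · rintro (h1 | ⟨j, hj, h1⟩)
        · exact Or.inl ⟨by simp, h1.symm⟩
        · exact Or.inr ⟨j, fun h2 => hj (Option.some_injective _ h2), h1⟩
    have hs : ∀ i, sc L O (cl L O (F ∪ Set.range (fun z : Z' => y z))) b (y i) * μ b ≤
        μ (y i) := by
      intro i
      have h1 := nMain C h hcopt hopt (e := y i) (i₀ := none) (B := μ (y i)) ?_ le_rfl ?_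
      · unfold dsc at h1
        rw [hnone] at h1
        exact h1
      · rw [hrange]
        have h2 := hgen' i
        rwa [← Set.union_insert] at h2
      · intro o ho
        obtain ⟨k, rfl⟩ := Option.ne_none_iff_exists'.1 ho
        have h2 := hbd k i
        unfold dsc at h2 ⊢
        rw [hsome k]
        rw [cl_union_cl H.val, Set.insert_union, ← Set.union_insert] at h2
        exact h2
    have hM : Cld L O (cl L O (F ∪ Set.range (fun z : Z' => y z))) := cld_cl H.val
    have hFM : F ⊆ cl L O (F ∪ Set.range (fun z : Z' => y z)) :=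
      Set.subset_union_left.trans (subset_cl H.val)
    by_cases hn : Near O (cl L O (F ∪ Set.range (fun z : Z' => y z))) b b'
    · refine caseA H hM hFM (fun i => ?_) hn hbb hs hX hXy
      rw [cl_insert_cl H.val]
      exact hgen' i
    · have h1 : O.valuation (b - b') ∈ NN O (cl L O (F ∪ Set.range (fun z : Z' => y z))) b := by
        by_contra h2
        exact hn h2
      have h2 : O.valuation (b - b') ≤ τ * μ b := by
        rw [← Valuation.map_neg, neg_sub]
        exact hbb
      have h3 := NN_up h1 h2
      obtain ⟨z, z', hz', hzz⟩ := star_point C h hcard hb hind hτ h3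
      exact caseB C h hcard hb hind hτ hbb hz' hzz hyF hgen (fun i => hbd z i) hX hXy

theorem goal_all (C : Ctx S T O F N₀ μ) (m : ℕ) : Goal L O F N₀ μ m := by
  induction m with
  | zero => exact goal_zero C
  | succ m ih => exact goal_succ C ih

end

end Pool.Agent.MP_e9d743_lc
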