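import Mathlib
import Pool.Agent.Lib.MP_e9d743_lc.M5_Succ

/-!
# The main theorem in one model

Task E1. If `b' = b` take `a' = a`. Otherwise `κ := |b' - b| / |l| > 0` is not in `NN O (cl A) b`
(`not_mem_NN`). `zorn` gives `F ⊇ A` tight with `κ ∉ NN O F b`, `b ∉ F`; `exists_norm` with `b₀ = b` gives
`μ`, `N₀ = NN O F b`, `μ b = 1`. `Ctx`: `up` is `NN_up`, `pos` is `κ`. `τ := |b' - b| = |l| κ ≤ κ`, so
`τ ∉ N₀`. `goal_all` with `y = a`, `Z` the finset of the `a i` gives `a'` with
`|a' i - a i| ≤ τ * μ (a i) = |l| κ μ (a i)`. If `a i ∈ F` then `a' i = a i`. Otherwise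
`μ (a i) * κ ∉ NN O F (a i)` and `|a i| ∈ NN O F (a i)` (`0 ∈ F`), so `κ μ (a i) < |a i|` and
`|a' i - a i| < |l| |a i|`.
-/

set_option autoImplicit false

open FirstOrder FirstOrder.Language

namespace Pool.Agent.MP_e9d743_lc

universe u v w

section
variable {L : FirstOrder.Language.{u, v}} {K : Type w} [Field K] [L.Structure K]
  {O : ValuationSubring K} {S : ValSymb L} {T : L.Theory} {F : Set K}

theorem main_model (H : Hyp S T K O) {A : Set K} {ι : Type} [Finite ι] {a : ι → K} {b b' l : K}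
    (hl : l ≠ 0) (hl1 : O.valuation l ≤ 1)
    (hb : ∀ c ∈ cl L O A, O.valuation (b' - b) < O.valuation (l * (b - c)))
    {X : (Option ι → K) → Prop} (hX : Dfn L O A X) (h : X (fun o => o.elim b a)) :
    ∃ a' : ι → K, X (fun o => o.elim b' a') ∧ ∀ i, RVEq O l (a' i) (a i) := by
  classical
  have hrefl : ∀ y : K, RVEq O l y y := by
    intro y
    by_cases hy : y = 0
    · exact Or.inl ⟨hy, hy⟩
    · right
      rw [sub_self, map_zero]
      exact zero_lt_iff.2 ((Valuation.ne_zero_iff _).2 (mul_ne_zero hl hy))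
  by_cases hbb : b' = b
  · subst hbb
    exact ⟨a, h, fun i => hrefl _⟩
  have hK := H.val
  have hl0 : 0 < O.valuation l := zero_lt_iff.2 ((Valuation.ne_zero_iff _).2 hl)
  have hbb0 : 0 < O.valuation (b' - b) :=
    zero_lt_iff.2 ((Valuation.ne_zero_iff _).2 (sub_ne_zero.2 hbb))
  obtain ⟨κ, hκ⟩ : ∃ κ : O.ValueGroup, κ = O.valuation (b' - b) / O.valuation l := ⟨_, rfl⟩
  have hκ0 : 0 < κ := by
    rw [hκ]
    exact div_pos hbb0 hl0
  have hκl : O.valuation l * κ = O.valuation (b' - b) := by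
    rw [hκ]
    exact mul_div_cancel₀ _ hl0.ne'
  have hκA : κ ∉ NN O (cl L O A) b := by
    rw [not_mem_NN]
    intro c hc
    have h1 := hb c hc
    rw [← hκl, map_mul] at h1
    exact lt_of_mul_lt_mul_left' h1
  obtain ⟨F, hAF, hT, hκF⟩ := zorn H hκA
  have hbF : b ∉ F := by
    intro hbF
    have h1 := not_mem_NN.1 hκF b hbF
    rw [sub_self, map_zero] at h1
    exact not_lt_zero h1
  obtain ⟨μ, hμ, hμb⟩ := exists_norm H hT hbF
  have C : Ctx S T O F (NN O F b) μ :=
    { hyp := H, tight := hT, norm := hμ, up := fun γ hγ γ' hle => NN_up hγ hle,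
      pos := ⟨κ, hκ0, hκF⟩ }
  have hκle : O.valuation (b' - b) ≤ κ := by
    rw [← hκl]
    exact mul_le_of_le_one_left' hl1
  have hτ : O.valuation (b' - b) ∉ NN O F b := fun h1 => hκF (NN_up h1 hκle)
  have hfin : (Set.range a).Finite := Set.finite_range a
  obtain ⟨a', ha', hle⟩ := goal_all C hfin.toFinset.card ι a b b' (O.valuation (b' - b))
    hfin.toFinset X le_rfl hbF (fun i => subset_cl hK (Or.inr (Or.inr (by simp)))) hτ
    (by rw [hμb, mul_one]) (hX.mono hAF) h
  refine ⟨a', ha', fun i => ?_⟩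
  have h0F : (0 : K) ∈ F := zero_mem hK C.cld
  by_cases hai : a i ∈ F
  · have h1 := hle i
    rw [(hμ.zero _).2 hai, mul_zero] at h1
    have h2 : a' i = a i := by
      have h3 : O.valuation (a' i - a i) = 0 := le_antisymm h1 zero_le'
      exact sub_eq_zero.1 ((Valuation.zero_iff _).1 h3)
    rw [h2]
    exact hrefl _
  · right
    have h1 : μ (a i) * κ ∉ NN O F (a i) := fun h2 => hκF ((hμ.nn _ hai κ).1 h2)
    have h2 := not_mem_NN.1 h1 0 h0F
    rw [sub_zero] at h2
    refine lt_of_le_of_lt (hle i) ?_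
    rw [← hκl, map_mul, mul_assoc]
    refine mul_lt_mul_of_pos_left ?_ hl0
    rw [mul_comm]
    exact h2

end

end Pool.Agent.MP_e9d743_lc
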