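import Mathlib
import Pool.Agent.Lib.MP_e9d743_lc.E1_Main
import Pool.Agent.Lib.MP_e9d743_lc.U5_ClS

/-!
# 1-h-minimality implies ω-h-minimality

Task E2. `H.hmin = h`. Let `X` be `DefOver L O l ⊤ A` with `m`, `n`, `r`, `s`, `Y`. Suppose that no
finite non-empty `C`, `L`-definable over `A`, prepares `X`. For `j : Finset K` let `C j` be a finite
non-empty set, `L`-definable over `A`, with `j ∩ cl A ⊆ C j` (`mem_acl`, finite unions; non-empty: add
`{0}`, `zero_mem_cl`), and `x j`, `x' j` with `RVEq O l (x j - c) (x' j - c)` for all `c ∈ C j`,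
`x j ∈ X`, `x' j ∉ X` or `x j ∉ X`, `x' j ∈ X`; as `RVEq O l` is symmetric (`|l| ≤ 1`) we can take
`x j ∈ X`, `x' j ∉ X`. In the ultrapower (`H* = hypS H`) let `b = mkS x`, `b' = mkS x'`. `b ≠ b'`. For all
`c ∈ cl (inS '' A) = inS '' cl A` (`cl_star`): `RVEq (OS O) (inS l) (b - c) (b' - c)` (`ev_of_mem`,
`rvEq_mk`), so `|b' - b| < |l (b - c)|`. Let `X̂ w` (`w : Option (Fin n) → KS K`) be
`∃ r' : Fin m → KS K, (∀ i, RVEq (OS O) 1 (r' i) (inS (r i))) ∧ (w none, r', w ∘ some) ∈ Y*`, where `Y*`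
is `starP (· ∈ Y)`, definable by `los`; `X̂` is `Dfn` over `inS '' A` (`Dfn.ofL`, `Dfn.rvConst`).
`X̂ (b, inS ∘ s)` holds since `x j ∈ X`. `main_model` gives `s'` with `X̂ (b', s')` and
`RVEq (OS O) (inS l) (s' i) (inS (s i))`; so there is `r'`, and by `starP_mk` for some `j`
`(x' j, r' j, s' j) ∈ Y` with `RVEq O 1 (r' j i) (r i)`, `RVEq O l (s' j i) (s i)`, that is `x' j ∈ X`:
contradiction.
-/

set_option autoImplicit false

open FirstOrder FirstOrder.Language

namespace Pool.Agent.MP_e9d743_lc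

universe u v w

section
variable {L : FirstOrder.Language.{u, v}} {K : Type w} [Field K] [L.Structure K]
  {O : ValuationSubring K} {S : ValSymb L} {T : L.Theory}

private theorem e2_symm {l x y : K} (hl1 : O.valuation l ≤ 1) (h : RVEq O l x y) :
    RVEq O l y x := by
  rcases h with ⟨h1, h2⟩ | h
  · exact Or.inl ⟨h2, h1⟩
  · right
    have h3 : O.valuation (x - y) < O.valuation y := by
      refine lt_of_lt_of_le h ?_
      rw [map_mul]
      exact mul_le_of_le_one_left' hl1
    have h4 : O.valuation x = O.valuation y := Valuation.map_eq_of_sub_lt _ h3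
    rw [map_mul] at h ⊢
    rw [Valuation.map_sub_swap, h4]
    exact h

private theorem e2_refl {l : K} (hl : l ≠ 0) (x : K) : RVEq O l x x := by
  by_cases hx : x = 0
  · exact Or.inl ⟨hx, hx⟩
  · right
    rw [sub_self, map_zero]
    exact zero_lt_iff.2 ((Valuation.ne_zero_iff _).2 (mul_ne_zero hl hx))

private theorem e2_cover (H : Hyp S T K O) (A : Set K) (j : Finset K) :
    ∃ C : Set K, C.Finite ∧ C.Nonempty ∧ A.Definable₁ L C ∧ ∀ c ∈ j, c ∈ cl L O A → c ∈ C := by
  classical
  induction j using Finset.induction_on with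
  | empty =>
    obtain ⟨C, h1, h2, h3⟩ := mem_acl H (zero_mem_cl H.val : (0 : K) ∈ cl L O A)
    exact ⟨C, h1, ⟨0, h3⟩, h2, by simp⟩
  | insert a j ha ih =>
    obtain ⟨C, h1, h2, h3, h4⟩ := ih
    by_cases haA : a ∈ cl L O A
    · obtain ⟨C', g1, g2, g3⟩ := mem_acl H haA
      refine ⟨C ∪ C', h1.union g1, h2.mono Set.subset_union_left, ?_, ?_⟩
      · exact Set.Definable.union h3 g2
      · intro c hc hcA
        rcases Finset.mem_insert.1 hc with rfl | hc
        · exact Or.inr g3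
        · exact Or.inl (h4 c hc hcA)
    · refine ⟨C, h1, h2, h3, ?_⟩
      intro c hc hcA
      rcases Finset.mem_insert.1 hc with rfl | hc
      · exact absurd hcA haA
      · exact h4 c hc hcA

private theorem e2_hat {m n : ℕ} {A : Set K} {r : Fin m → KS K}
    {Y : Set (Option (Fin m ⊕ Fin n) → K)} (hY : A.Definable L Y) :
    Dfn L (OS O) (inS '' A) (fun w : Option (Fin n) → KS K => ∃ r' : Fin m → KS K,
      (∀ i, RVEq (OS O) 1 (r' i) (r i)) ∧
      starP (fun v => v ∈ Y) (fun o => o.elim (w none) (Sum.elim r' (fun i => w (some i))))) := by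
  refine Dfn.exF ?_
  refine Dfn.and (Dfn.finAll fun i => Dfn.rvConst (DfnF.var (Sum.inr i)) (r i)) ?_
  have h1 : Dfn L (OS O) (inS '' A)
      (fun v : Option (Fin m ⊕ Fin n) → KS K => starP (fun v => v ∈ Y) v) :=
    Dfn.ofL (los hY)
  refine (h1.ren (fun o : Option (Fin m ⊕ Fin n) =>
    (o.elim (Sum.inl none) (Sum.elim (fun i => Sum.inr i) (fun i => Sum.inl (some i))) :
      Option (Fin n) ⊕ Fin m))).congr fun w => ?_
  have : (fun o : Option (Fin m ⊕ Fin n) => o.elim (w (Sum.inl none))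
      (Sum.elim (fun i => w (Sum.inr i)) (fun i => w (Sum.inl (some i))))) =
      fun o => w (o.elim (Sum.inl none)
        (Sum.elim (fun i => Sum.inr i) (fun i => Sum.inl (some i)))) := by
    funext o
    rcases o with _ | (i | i) <;> rfl
  rw [this]

end

theorem omega_of_one {L : FirstOrder.Language.{u, v}} (S : ValSymb L) (T : L.Theory)
    (h : HMin.{u, v, w} S T 1) : HMin.{u, v, w} S T ⊤ := by
  intro K _ _ O hK hT l hl hl1 A X hX
  have H : Hyp S T K O := ⟨h, hK, hT⟩
  by_contra hno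
  have h1 : ∀ j : Finset K, ∃ x x' : K,
      (∀ c ∈ j, c ∈ cl L O A → RVEq O l (x - c) (x' - c)) ∧ x ∈ X ∧ x' ∉ X := by
    intro j
    obtain ⟨C, g1, g2, g3, g4⟩ := e2_cover H A j
    have g5 : ¬ Prepares O l C X := fun hP => hno ⟨C, g1, g2, g3, hP⟩
    unfold Prepares at g5
    push Not at g5
    obtain ⟨x, x', hx, hxx⟩ := g5
    rcases hxx with ⟨h1, h2⟩ | ⟨h1, h2⟩
    · exact ⟨x, x', fun c hc hcA => hx c (g4 c hc hcA), h1, h2⟩
    · exact ⟨x', x, fun c hc hcA => e2_symm hl1 (hx c (g4 c hc hcA)), h2, h1⟩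
  choose x x' hxx hxX hxX' using h1
  obtain ⟨m, n, r, s, Y, -, hY, hYX⟩ := hX
  have hne : mkS x ≠ mkS x' := by
    intro he
    obtain ⟨j, hj⟩ := (mkS_eq.1 he).exists
    exact hxX' j (hj ▸ hxX j)
  have hl0 : (inS l : KS K) ≠ 0 := by
    intro he
    exact hl (inS_inj (he.trans inS_zero.symm))
  have hl1' : (OS O).valuation (inS l) ≤ 1 := by
    have : (OS O).valuation (mkS fun _ => l) ≤ (OS O).valuation (mkS fun _ => (1 : K)) :=
      val_le.2 (Filter.Eventually.of_forall fun j => by rw [map_one]; exact hl1)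
    have h2 : (mkS fun _ => (1 : K)) = (1 : KS K) := inS_one
    rw [h2, map_one] at this
    exact this
  have key : ∀ c ∈ cl L (OS O) (inS '' A),
      (OS O).valuation (mkS x' - mkS x) < (OS O).valuation (inS l * (mkS x - c)) := by
    intro c hc
    rw [cl_star H A] at hc
    obtain ⟨c₀, hc₀, rfl⟩ := hc
    have h2 : RVEq (OS O) (inS l) (mkS x - inS c₀) (mkS x' - inS c₀) :=
      (rvEq_mk (l := fun _ => l) (x := fun j => x j - c₀) (y := fun j => x' j - c₀)).2
        (ev_of_mem c₀ fun j hj => hxx j c₀ hj hc₀)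
    rcases h2 with ⟨h3, h4⟩ | h2
    · exact absurd ((sub_eq_zero.1 h3).trans (sub_eq_zero.1 h4).symm) hne
    · have h5 : mkS x - inS c₀ - (mkS x' - inS c₀) = mkS x - mkS x' := by ring
      have h3 : (OS O).valuation (mkS x - inS c₀ - (mkS x' - inS c₀)) <
          (OS O).valuation (mkS x' - inS c₀) := by
        refine lt_of_lt_of_le h2 ?_
        rw [map_mul]
        exact mul_le_of_le_one_left' hl1'
      have h4 := Valuation.map_eq_of_sub_lt _ h3
      rw [map_mul] at h2 ⊢
      rw [h4, Valuation.map_sub_swap, ← h5]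
      exact h2
  have hXh := e2_hat (O := O) (r := fun i => (inS (r i) : KS K)) hY
  have hb : ∃ r' : Fin m → KS K, (∀ i, RVEq (OS O) 1 (r' i) (inS (r i))) ∧
      starP (fun v => v ∈ Y) (fun o : Option (Fin m ⊕ Fin n) => o.elim (mkS x)
        (Sum.elim r' (fun i => inS (s i)))) := by
    refine ⟨fun i => inS (r i), fun i => rvEq_refl _, ?_⟩
    have e1 : (fun o : Option (Fin m ⊕ Fin n) => o.elim (mkS x)
        (Sum.elim (fun i => inS (r i)) (fun i => inS (s i)))) =
        fun o => mkS (fun j => o.elim (x j) (Sum.elim r s)) := by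
      funext o
      rcases o with _ | (i | i) <;> rfl
    rw [e1]
    refine (starP_mk (fun v => v ∈ Y)
      (fun o j => o.elim (x j) (Sum.elim r s))).2 (Filter.Eventually.of_forall fun j => ?_)
    exact (hYX r s (fun i => rvEq_refl _) (fun i => e2_refl hl _) (x j)).1 (hxX j)
  obtain ⟨s', ⟨r', hr', hst⟩, hs'⟩ := main_model (hypS H) (a := fun i => inS (s i)) (b := mkS x)
    (b' := mkS x') hl0 hl1' key hXh hb
  have e2 : (fun o : Option (Fin m ⊕ Fin n) => o.elim (mkS x')
      (Sum.elim r' (fun i => s' i))) =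
      fun o => mkS (fun j => o.elim (x' j) (Sum.elim (fun i => repS (r' i) j)
        (fun i => repS (s' i) j))) := by
    funext o
    rcases o with _ | (i | i)
    · rfl
    · exact (mkS_repS (r' i)).symm
    · exact (mkS_repS (s' i)).symm
  have h3 : starP (fun v => v ∈ Y) (fun o : Option (Fin m ⊕ Fin n) => o.elim (mkS x')
      (Sum.elim r' (fun i => s' i))) := hst
  rw [e2] at h3
  have h4 := (starP_mk (fun v => v ∈ Y) (fun o j => o.elim (x' j)
    (Sum.elim (fun i => repS (r' i) j) (fun i => repS (s' i) j)))).1 h3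
  have h5 : ∀ᶠ j in (ufil K : Filter (Finset K)), ∀ i, RVEq O 1 (repS (r' i) j) (r i) := by
    refine Filter.eventually_all.2 fun i => ?_
    refine (rvEq_mk (l := fun _ => (1 : K)) (x := repS (r' i)) (y := fun _ => r i)).1 ?_
    rw [mkS_repS]
    exact hr' i
  have h6 : ∀ᶠ j in (ufil K : Filter (Finset K)), ∀ i, RVEq O l (repS (s' i) j) (s i) := by
    refine Filter.eventually_all.2 fun i => ?_
    refine (rvEq_mk (l := fun _ => l) (x := repS (s' i)) (y := fun _ => s i)).1 ?_
    rw [mkS_repS]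
    exact hs' i
  obtain ⟨j, ⟨h7, h8⟩, h9⟩ := ((h4.and h5).and h6).exists
  exact hxX' j ((hYX _ _ h8 h9 (x' j)).2 h7)

end Pool.Agent.MP_e9d743_lc
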